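import Pool.Agent.KS6_98.Orb.Sd

/-!
# Products, the pairing, and spans of words
-/

set_option autoImplicit false

namespace Pool.Agent.KS6_98.Bdd

open Pool.Agent.KS6_98.Orb Finsupp

section

variable {α β : Type*}

/-! ### Spans of words -/

/-- the span of the words in `S` -/
noncomputable def Sp (S : Set (List α)) : Submodule ℤ (EE α) :=
  Submodule.span ℤ {x | ∃ l ∈ S, x = word l}

theorem Sp_le {S : Set (List α)} {M : Submodule ℤ (EE α)} (h : ∀ l ∈ S, word l ∈ M) :
    Sp S ≤ M := by
  refine Submodule.span_le.2 ?_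
  rintro x ⟨l, hl, rfl⟩
  exact h l hl

theorem Sp_word {S : Set (List α)} {l : List α} (h : l ∈ S) : word l ∈ Sp S :=
  Submodule.subset_span ⟨l, h, rfl⟩

theorem Sp_map {N : Type*} [AddCommGroup N] {S : Set (List α)} {M : Submodule ℤ N}
    (F : EE α →ₗ[ℤ] N) (h : ∀ l ∈ S, F (word l) ∈ M) {y : EE α} (hy : y ∈ Sp S) : F y ∈ M := by
  have : Sp S ≤ M.comap F := Sp_le h
  exact this hy

theorem Sp_mono {S S' : Set (List α)} (h : S ⊆ S') : Sp S ≤ Sp S' :=
  Sp_le fun _ hl => Sp_word (h hl)

theorem Sp_congr {N : Type*} [AddCommGroup N] {S : Set (List α)}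
    (F F' : EE α →ₗ[ℤ] N) (h : ∀ l ∈ S, F (word l) = F' (word l)) {y : EE α} (hy : y ∈ Sp S) :
    F y = F' y := by
  have := Sp_map (M := ⊥) (F - F') (fun l hl => by
    rw [Submodule.mem_bot, LinearMap.sub_apply, h l hl, sub_self]) hy
  rw [Submodule.mem_bot, LinearMap.sub_apply, sub_eq_zero] at this
  exact this

theorem mem_Sp_univ (y : EE α) : y ∈ Sp (Set.univ : Set (List α)) := by
  obtain ⟨x, rfl⟩ := mkE_surj y
  refine supp_ind mkE _ (S := Set.univ) (fun l _ => ?_) (by rw [Finsupp.supported_univ]; trivial)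
  exact Sp_word (Set.mem_univ l)

theorem EE_ext {N : Type*} [AddCommGroup N] (F F' : EE α →ₗ[ℤ] N)
    (h : ∀ l, F (word l) = F' (word l)) : F = F' := by
  ext1
  refine LinearMap.ext fun y => ?_
  exact Sp_congr F F' (fun l _ => h l) (mem_Sp_univ (Submodule.Quotient.mk y))

theorem EE_ext' {N : Type*} [AddCommGroup N] (F F' : EE α →ₗ[ℤ] N)
    (h : ∀ l, F (word l) = F' (word l)) (y : EE α) : F y = F' y := by
  rw [EE_ext F F' h]

theorem Dc_mem_Sp (f : α → ℤ) (l : List α) :
    Dc f (word l) ∈ Sp {l' : List α | l'.Sublist l ∧ l'.length + 1 = l.length} := by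
  have h : Submodule.span ℤ {x | ∃ l' : List α, l'.Sublist l ∧
      l'.length + 1 = l.length ∧ x = word l'} ≤
      Sp {l' : List α | l'.Sublist l ∧ l'.length + 1 = l.length} := by
    refine Submodule.span_le.2 ?_
    rintro x ⟨l', h1, h2, rfl⟩
    exact Sp_word ⟨h1, h2⟩
  exact h (Dc_word_mem f l)

/-! ### Linear maps given on words -/

section Fold

variable {N : Type*} [AddCommGroup N]

/-- a map on combinations of lists given by operators -/
noncomputable def foldF (T : α → N →ₗ[ℤ] N) (n₀ : N) : FL α →ₗ[ℤ] N :=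
  Finsupp.linearCombination ℤ fun l => l.foldr (fun a => T a) n₀

theorem foldF_consL (T : α → N →ₗ[ℤ] N) (n₀ : N) (a : α) (x : FL α) :
    foldF T n₀ (consL a x) = T a (foldF T n₀ x) := by
  induction x using Finsupp.induction_linear with
  | zero => simp
  | add x y hx hy => simp [hx, hy]
  | single l c => simp [foldF]

theorem foldF_rel (T : α → N →ₗ[ℤ] N) (n₀ : N) (h1 : ∀ a b x, T a (T b x) = -T b (T a x))
    (h2 : ∀ a x, T a (T a x) = 0) : Orb.Rel α ≤ LinearMap.ker (foldF T n₀) := by
  refine Submodule.span_le.2 fun x hx => ?_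
  show foldF T n₀ x = 0
  induction hx with
  | swap u v q =>
    have : (single (u :: v :: q) 1 + single (v :: u :: q) 1 : FL α) =
      consL u (consL v (single q 1)) + consL v (consL u (single q 1)) := by simp
    rw [this, map_add, foldF_consL, foldF_consL, foldF_consL, foldF_consL, h1]
    simp
  | dup u q =>
    have : (single (u :: u :: q) 1 : FL α) = consL u (consL u (single q 1)) := by simp
    rw [this, foldF_consL, foldF_consL, h2]
  | @cons a x hx ih =>
    rw [foldF_consL, ih, map_zero]

/-- a map on the quotient given by anticommuting operators -/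
noncomputable def foldE (T : α → N →ₗ[ℤ] N) (n₀ : N) (h1 : ∀ a b x, T a (T b x) = -T b (T a x))
    (h2 : ∀ a x, T a (T a x) = 0) : EE α →ₗ[ℤ] N :=
  (Orb.Rel α).liftQ (foldF T n₀) (foldF_rel T n₀ h1 h2)

variable (T : α → N →ₗ[ℤ] N) (n₀ : N) (h1 : ∀ a b x, T a (T b x) = -T b (T a x))
    (h2 : ∀ a x, T a (T a x) = 0)

theorem foldE_ins (a : α) (x : EE α) :
    foldE T n₀ h1 h2 (ins a x) = T a (foldE T n₀ h1 h2 x) := by
  obtain ⟨y, rfl⟩ := mkE_surj x
  rw [ins_mkE]
  exact foldF_consL T n₀ a y

theorem foldE_nil : foldE T n₀ h1 h2 (word []) = n₀ := by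
  show foldF T n₀ (single [] 1) = n₀
  simp [foldF]

end Fold

/-! ### The product -/

/-- the product, as a linear map in the first factor -/
noncomputable def mulE (y : EE α) : EE α →ₗ[ℤ] EE α := foldE ins y ins_ins ins_self

theorem mulE_ins (a : α) (x y : EE α) : mulE y (ins a x) = ins a (mulE y x) :=
  foldE_ins _ _ _ _ _ _

theorem mulE_nil (y : EE α) : mulE y (word []) = y := foldE_nil _ _ _ _

theorem mulE_word_cons (a : α) (l : List α) (y : EE α) :
    mulE y (word (a :: l)) = ins a (mulE y (word l)) := by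
  rw [word_cons, mulE_ins]

theorem mulE_word_word (l l' : List α) : mulE (word l') (word l) = word (l ++ l') := by
  induction l with
  | nil => rw [mulE_nil]; rfl
  | cons a l ih => rw [mulE_word_cons, ih, List.cons_append, word_cons]

/-- the product with a word on the left, as a linear map in the second factor -/
noncomputable def lm : List α → EE α →ₗ[ℤ] EE α
  | [] => LinearMap.id
  | a :: l => ins a ∘ₗ lm l

theorem lm_cons (a : α) (l : List α) (y : EE α) : lm (a :: l) y = ins a (lm l y) := rfl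

theorem lm_eq (l : List α) (y : EE α) : lm l y = mulE y (word l) := by
  induction l with
  | nil => rw [mulE_nil]; rfl
  | cons a l ih => rw [lm_cons, ih, mulE_word_cons]

theorem lm_word (l l' : List α) : lm l (word l') = word (l ++ l') := by
  rw [lm_eq, mulE_word_word]

theorem lm_append (l l' : List α) (y : EE α) : lm (l ++ l') y = lm l (lm l' y) := by
  induction l with
  | nil => rfl
  | cons a l ih => rw [List.cons_append, lm_cons, lm_cons, ih]

theorem mulE_lm (l : List α) (x y : EE α) : mulE y (lm l x) = lm l (mulE y x) := by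
  induction l with
  | nil => rfl
  | cons a l ih => rw [lm_cons, lm_cons, mulE_ins, ih]

/-- the product is linear in the other factor -/
theorem mulE_add (x y y' : EE α) : mulE (y + y') x = mulE y x + mulE y' x := by
  refine EE_ext' (mulE (y + y')) (mulE y + mulE y') (fun l => ?_) x
  rw [LinearMap.add_apply, ← lm_eq, ← lm_eq, ← lm_eq, map_add]

theorem mulE_smul (x y : EE α) (c : ℤ) : mulE (c • y) x = c • mulE y x := by
  refine EE_ext' (mulE (c • y)) (c • mulE y) (fun l => ?_) x
  rw [LinearMap.smul_apply, ← lm_eq, ← lm_eq, map_smul]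

theorem mulE_mem {S₁ S₂ S : Set (List α)} (h : ∀ l₁ ∈ S₁, ∀ l₂ ∈ S₂, l₁ ++ l₂ ∈ S) {x y : EE α}
    (hx : x ∈ Sp S₁) (hy : y ∈ Sp S₂) : mulE y x ∈ Sp S := by
  refine Sp_map (mulE y) (fun l₁ hl₁ => ?_) hx
  rw [← lm_eq]
  refine Sp_map (lm l₁) (fun l₂ hl₂ => ?_) hy
  rw [lm_word]
  exact Sp_word (h l₁ hl₁ l₂ hl₂)

/-- the Leibniz rule -/
theorem bdE_lm (l : List α) (y : EE α) :
    bdE (lm l y) = mulE y (bdE (word l)) + (-1 : ℤ) ^ l.length • lm l (bdE y) := by
  induction l with
  | nil =>
    rw [bdE, Dc_nil, map_zero, zero_add, List.length_nil, pow_zero, one_smul]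
    rfl
  | cons a l ih =>
    rw [lm_cons, bdE_ins, ih, word_cons, bdE_ins, map_sub, mulE_ins, ← lm_eq, map_add, map_smul,
      lm_cons, List.length_cons, pow_succ, mul_neg_one, neg_smul]
    abel

/-- moving a letter through a word -/
theorem lm_ins (l : List α) (a : α) (y : EE α) :
    lm l (ins a y) = (-1 : ℤ) ^ l.length • ins a (lm l y) := by
  induction l with
  | nil =>
    rw [List.length_nil, pow_zero, one_smul]
    rfl
  | cons b l ih =>
    rw [lm_cons, ih, map_smul, ins_ins, lm_cons, List.length_cons, pow_succ, mul_neg_one, neg_smul,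
      smul_neg]

theorem word_append (l l' : List α) : word (l ++ l') = lm l (word l') := (lm_word l l').symm

theorem bdE_word_append (l l' : List α) :
    bdE (word (l ++ l')) =
      mulE (word l') (bdE (word l)) + (-1 : ℤ) ^ l.length • lm l (bdE (word l')) := by
  rw [word_append, bdE_lm]

end

/-! ### The pairing -/

section Pairing

variable {α : Type*} [DecidableEq α]

/-- the pairing -/
noncomputable def PP : EE α →ₗ[ℤ] (EE α →ₗ[ℤ] ℤ) :=
  foldE (fun a => (LinearMap.lcomp ℤ ℤ (Dl a))) aug
    (fun a b x => by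
      refine LinearMap.ext fun y => ?_
      show x (Dl b (Dl a y)) = -x (Dl a (Dl b y))
      rw [Dl_Dl, map_neg])
    (fun a x => by
      refine LinearMap.ext fun y => ?_
      show x (Dl a (Dl a y)) = 0
      rw [Dl, Dc_self, map_zero])

theorem PP_ins (a : α) (x y : EE α) : PP (ins a x) y = PP x (Dl a y) := by
  rw [PP, foldE_ins]
  rfl

theorem PP_nil (y : EE α) : PP (word []) y = aug y := by
  rw [PP, foldE_nil]

omit [DecidableEq α] in
theorem aug_ins (a : α) (y : EE α) : aug (ins a y) = 0 := by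
  refine EE_ext' (aug ∘ₗ ins a) 0 (fun l => ?_) y
  rw [LinearMap.comp_apply, ← word_cons, LinearMap.zero_apply]
  show (Finsupp.lapply ([] : List α) : FL α →ₗ[ℤ] ℤ) (single (a :: l) 1) = 0
  simp

theorem PP_Dl (a : α) (x y : EE α) : PP (Dl a x) y = PP x (ins a y) := by
  have h : PP ∘ₗ Dl a = (LinearMap.lcomp ℤ ℤ (ins a)) ∘ₗ PP := by
    refine EE_ext _ _ fun l => ?_
    refine LinearMap.ext fun y => ?_
    show PP (Dl a (word l)) y = PP (word l) (ins a y)
    induction l generalizing y with
    | nil => rw [Dl, Dc_nil, map_zero, PP_nil, aug_ins]; rfl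
    | cons b l ih =>
      rw [word_cons, PP_ins]
      by_cases hab : b = a
      · subst hab
        rw [Dl_ins_self, Dl_ins_self, map_sub, LinearMap.sub_apply, map_sub, PP_ins, ih]
      · rw [Dl_ins_ne hab, map_neg, LinearMap.neg_apply, PP_ins, ih, Dl_ins_ne (Ne.symm hab),
          map_neg]
  exact LinearMap.congr_fun (LinearMap.congr_fun h x) y

theorem PP_word_self {l : List α} (h : l.Nodup) : PP (word l) (word l) = 1 := by
  induction l with
  | nil => rw [PP_nil, aug_nil]
  | cons a l ih =>
    rw [List.nodup_cons] at h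
    rw [word_cons, PP_ins, Dl_ins_self, Dl_word_of_not_mem h.1, map_zero, sub_zero, ih h.2]

theorem PP_ins_not_mem {a : α} {l : List α} (h : a ∉ l) (x : EE α) :
    PP (ins a x) (word l) = 0 := by
  rw [PP_ins, Dl_word_of_not_mem h, map_zero]

end Pairing

end Pool.Agent.KS6_98.Bdd
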