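import Pool.Agent.KS6_98.Bdd.Ops

/-!
# The leaf relation and the main cancellation
-/

set_option autoImplicit false

namespace Pool.Agent.KS6_98.Bdd

open Pool.Agent.KS6_98.Orb Finset

/-! ### Divisibility -/

section Div

variable {N N' : Type*} [AddCommGroup N] [AddCommGroup N']

/-- the multiples of `p` -/
def pS (p : ℕ) (N : Type*) [AddCommGroup N] : Submodule ℤ N :=
  LinearMap.range ((p : ℤ) • (LinearMap.id : N →ₗ[ℤ] N))

theorem smul_mem_pS (p : ℕ) (w : N) : (p : ℤ) • w ∈ pS p N := ⟨w, rfl⟩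

theorem pS_map (p : ℕ) (F : N →ₗ[ℤ] N') {x : N} (h : x ∈ pS p N) : F x ∈ pS p N' := by
  obtain ⟨w, rfl⟩ := h
  refine ⟨F w, ?_⟩
  show (p : ℤ) • F w = F ((p : ℤ) • w)
  rw [map_smul]

theorem pS_int {p : ℕ} {x : ℤ} (h : x ∈ pS p ℤ) : (p : ℤ) ∣ x := by
  obtain ⟨w, rfl⟩ := h
  exact ⟨w, rfl⟩

end Div

section

variable {V : Type*} [DecidableEq V]

/-- the leaf chain -/
noncomputable def NN (rt : Finset V → V) (X : Finset V) : EE (Lt V) :=
  ∑ x ∈ X, iv x (Fh (rt (X.erase x)) (X.erase x) one)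

theorem NN_chi {p j : ℕ} (hp : p.Prime) {rt : Finset V → V}
    (hrt : ∀ X : Finset V, X.Nonempty → rt X ∈ X) {X : Finset V} (hX : X.card = p ^ j + 1) :
    chi X (NN rt X) ∈ pS p (EE (Lt V)) := by
  have hcard : ∀ x ∈ X, (X.erase x).card = p ^ j := by
    intro x hx
    rw [card_erase_of_mem hx, hX, Nat.add_sub_cancel]
  have hne : ∀ x ∈ X, (X.erase x).Nonempty := by
    intro x hx
    rw [← card_pos, hcard x hx]
    exact pow_pos hp.pos _
  have hpos : X.Nonempty := by rw [← card_pos, hX]; omega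
  obtain ⟨r₀, hr₀⟩ := hpos
  have h1 : chi X (NN rt X) =
      -∑ x ∈ X, Zs zz x (X.erase x) (Fh (rt (X.erase x)) (X.erase x) one) := by
    rw [NN, map_sum, ← sum_neg_distrib]
    refine sum_congr rfl fun x hx => ?_
    have h2 : chi X * iv x = -(iv x * chi X) := by rw [iv_chi, neg_neg]
    have h3 : chi X = chi (X.erase x) + Xs x (X.erase x) := by
      rw [← chi_insert (notMem_erase x X), insert_erase hx]
    have h4 : chi (X.erase x) * Fh (rt (X.erase x)) (X.erase x) = 0 := by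
      rw [chi_Fh, Fh_chi (hrt _ (hne x hx)), neg_zero]
    have h5 : chi X * (iv x * Fh (rt (X.erase x)) (X.erase x)) =
        -(Zs zz x (X.erase x) * Fh (rt (X.erase x)) (X.erase x)) := by
      rw [← mul_assoc, h2, neg_mul, mul_assoc, h3, add_mul, h4, zero_add, Zs_eq, mul_assoc]
    exact LinearMap.congr_fun h5 one
  -- the vertices different from `r₀`
  have h6 : ∀ x ∈ X.erase r₀, Zs zz x (X.erase x) (Fh (rt (X.erase x)) (X.erase x) one) -
      iv r₀ ((Zs zz x (insert r₀ ((X.erase r₀).erase x)) *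
        G zz r₀ ((X.erase r₀).erase x)) one) ∈ pS p (EE (Lt V)) := by
    intro x hx
    have hxX := mem_of_mem_erase hx
    have hxr : x ≠ r₀ := ne_of_mem_erase hx
    have hr : r₀ ∈ X.erase x := mem_erase.2 ⟨hxr.symm, hr₀⟩
    obtain ⟨w, hw⟩ := Fh_root hp (hcard x hxX) (notMem_erase x X) (hrt _ (hne x hxX)) hr
    have h7 : Zs zz x (X.erase x) * Fh r₀ (X.erase x) =
        iv r₀ * (Zs zz x (insert r₀ ((X.erase r₀).erase x)) *
          G zz r₀ ((X.erase r₀).erase x)) := by
      rw [Fh, ← mul_assoc, ← mul_assoc, erase_right_comm, ← comm_Zs (fun a b => iv_zz r₀ a b) x]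
      congr 3
      rw [erase_right_comm, insert_erase hr]
    have h8 : iv r₀ ((Zs zz x (insert r₀ ((X.erase r₀).erase x)) *
        G zz r₀ ((X.erase r₀).erase x)) one) = Zs zz x (X.erase x) (Fh r₀ (X.erase x) one) :=
      (LinearMap.congr_fun h7 one).symm
    rw [h8, ← map_sub, hw, add_sub_cancel_left]
    exact pS_map p _ (smul_mem_pS p w)
  have hB := hcard r₀ hr₀
  -- the vertex `r₀`
  have h9 : Zs zz r₀ (X.erase r₀) (Fh (rt (X.erase r₀)) (X.erase r₀) one) +
      iv r₀ (Cc zz r₀ (X.erase r₀) one) ∈ pS p (EE (Lt V)) := by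
    have h10 : iv r₀ (Cc zz r₀ (X.erase r₀) one) =
        -∑ u ∈ X.erase r₀, zz r₀ u (Fh u (X.erase r₀) one) := by
      have h11 : iv r₀ * Cc zz r₀ (X.erase r₀) =
          -∑ u ∈ X.erase r₀, zz r₀ u * Fh u (X.erase r₀) := by
        rw [Cc, mul_sum, ← sum_neg_distrib]
        refine sum_congr rfl fun u _ => ?_
        have e1 : ie r₀ u * iv u = -(iv u * ie r₀ u) := by rw [iv_ie, neg_neg]
        have e2 : zz r₀ u * iv u = -(iv r₀ * zz u r₀) := by
          rw [zz, zz, mul_assoc, e1, mul_neg, ie_symm]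
        rw [Fh, ← mul_assoc (zz r₀ u), e2, neg_mul, neg_neg, mul_assoc]
      have h12 := LinearMap.congr_fun h11 one
      rw [LinearMap.neg_apply, LinearMap.sum_apply] at h12
      exact h12
    have h13 : Zs zz r₀ (X.erase r₀) (Fh (rt (X.erase r₀)) (X.erase r₀) one) =
        ∑ u ∈ X.erase r₀, zz r₀ u (Fh (rt (X.erase r₀)) (X.erase r₀) one) := by
      rw [Zs, LinearMap.sum_apply]
    rw [h10, h13, ← sub_eq_add_neg, ← sum_sub_distrib]
    refine Submodule.sum_mem _ fun u hu => ?_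
    obtain ⟨w, hw⟩ := Fh_root hp hB (notMem_erase r₀ X) (hrt _ (hne r₀ hr₀)) hu
    rw [← map_sub, hw, add_sub_cancel_left]
    exact pS_map p _ (smul_mem_pS p w)
  have h14 : iv r₀ (G zz r₀ (X.erase r₀) one) - iv r₀ (Cc zz r₀ (X.erase r₀) one) ∈
      pS p (EE (Lt V)) := by
    obtain ⟨w, hw⟩ := G_mod (A := Module.End ℤ (EE (Lt V))) zz_comm hp r₀ hB (notMem_erase r₀ X)
    rw [← map_sub, hw, LinearMap.add_apply, add_sub_cancel_left, LinearMap.smul_apply]
    exact pS_map p _ (smul_mem_pS p _)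
  have h15 : iv r₀ (G zz r₀ (X.erase r₀) one) = ∑ x ∈ X.erase r₀,
      iv r₀ ((Zs zz x (insert r₀ ((X.erase r₀).erase x)) *
        G zz r₀ ((X.erase r₀).erase x)) one) := by
    rw [G_rec zz r₀ (hne r₀ hr₀), LinearMap.sum_apply, map_sum]
  have h16 := Submodule.sum_mem _ h6
  rw [sum_sub_distrib, ← h15] at h16
  rw [h1, ← add_sum_erase X _ hr₀]
  refine Submodule.neg_mem _ ?_
  have h17 := Submodule.add_mem _ (Submodule.add_mem _ h16 h14) h9
  convert h17 using 1
  abel

theorem Dm_chi {X : Finset V} {e : Sym2 V} (he : e ∈ X.sym2) (hd : ¬e.IsDiag) :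
    Dm (Sum.inl e) * chi X = 1 - chi X * Dm (Sum.inl e) := by
  have hmem : e ∈ X.sym2.filter fun e => ¬e.IsDiag := mem_filter.2 ⟨he, hd⟩
  rw [chi, mul_sum, sum_mul, ← add_sum_erase _ _ hmem, ← add_sum_erase _ (fun i =>
    (ins (Sum.inl i) : Module.End ℤ (EE (Lt V))) * Dm (Sum.inl e)) hmem, Dm_ins_self]
  have h : ∀ e' ∈ (X.sym2.filter fun e => ¬e.IsDiag).erase e,
      Dm (Sum.inl e) * (ins (Sum.inl e') : Module.End ℤ (EE (Lt V))) =
        -((ins (Sum.inl e') : Module.End ℤ (EE (Lt V))) * Dm (Sum.inl e)) := by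
    intro e' he'
    refine Dm_ins_ne fun h => (mem_erase.1 he').1 (Sum.inl.inj h)
  rw [sum_congr rfl h, sum_neg_distrib]
  abel

/-- A chain annihilated by `chi X` modulo `p` is a multiple of `chi X` modulo `p`. -/
theorem NN_eq {p j : ℕ} (hp : p.Prime) {rt : Finset V → V}
    (hrt : ∀ X : Finset V, X.Nonempty → rt X ∈ X) {X : Finset V} (hX : X.card = p ^ j + 1)
    {e : Sym2 V} (he : e ∈ X.sym2) (hd : ¬e.IsDiag) :
    NN rt X - chi X (Dm (Sum.inl e) (NN rt X)) ∈ pS p (EE (Lt V)) := by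
  have h1 := pS_map p (Dm (Sum.inl e)) (NN_chi hp hrt hX)
  have h2 := LinearMap.congr_fun (Dm_chi he hd) (NN rt X)
  have h3 : Dm (Sum.inl e) (chi X (NN rt X)) =
      NN rt X - chi X (Dm (Sum.inl e) (NN rt X)) := h2
  rw [← h3]
  exact h1

theorem chi_union {X Y : Finset V} (h : Disjoint X Y) :
    chi (X ∪ Y) = chi X + chi Y + ∑ a ∈ X, Xs a Y := by
  induction X using Finset.induction_on with
  | empty => rw [empty_union, chi_empty, sum_empty, zero_add, add_zero]
  | insert a X ha ih =>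
    rw [disjoint_insert_left] at h
    have h1 : a ∉ X ∪ Y := by
      rw [mem_union]
      rintro (h' | h')
      · exact ha h'
      · exact h.1 h'
    have h2 : Xs a (X ∪ Y) = Xs a X + Xs a Y := by
      rw [Xs, sum_union h.2]
      rfl
    rw [insert_union, chi_insert h1, ih h.2, chi_insert ha, sum_insert ha, h2]
    abel

/-! ### Connectivity -/

/-- A tree operator pairs to zero with words in which its vertices are not connected. -/
theorem conn {w : List (Lt V)} {s : Setoid V}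
    (hw : ∀ x y, (Sum.inl s(x, y) : Lt V) ∈ w → s x y) {r : V} {U : Finset V}
    (h : ¬∀ u ∈ U, s r u) (φ : EE (Lt V)) : PP (G zz r U φ) (word w) = 0 := by
  induction U using Finset.strongInduction generalizing φ with
  | H U ih =>
    rcases U.eq_empty_or_nonempty with rfl | hne
    · exact absurd (by simp) h
    · rw [G_rec zz r hne, LinearMap.sum_apply, map_sum, LinearMap.sum_apply]
      refine sum_eq_zero fun l hl => ?_
      by_cases h1 : ∀ u ∈ U.erase l, s r u
      · have hl' : ¬s r l := by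
          intro h2
          apply h
          intro u hu
          by_cases hul : u = l
          · exact hul ▸ h2
          · exact h1 u (mem_erase.2 ⟨hul, hu⟩)
        rw [Zs, sum_mul, LinearMap.sum_apply, map_sum, LinearMap.sum_apply]
        refine sum_eq_zero fun u hu => ?_
        have h3 : zz l u * G zz r (U.erase l) = -(ie l u * iv l) * G zz r (U.erase l) := by
          rw [zz, iv_ie]
        rw [h3, neg_mul, LinearMap.neg_apply, map_neg, LinearMap.neg_apply, neg_eq_zero]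
        refine PP_ins_not_mem ?_ _
        intro h4
        have h5 := hw l u h4
        apply hl'
        rcases mem_insert.1 hu with rfl | hu
        · exact s.symm' h5
        · exact s.trans' (h1 u hu) (s.symm' h5)
      · have h2 : Zs zz l (insert r (U.erase l)) * G zz r (U.erase l) =
            G zz r (U.erase l) * Zs zz l (insert r (U.erase l)) :=
          ((comm_Zs (fun a b => ((comm_G (fun c d => zz_comm a b c d) r (U.erase l)) : _).symm) l
            (insert r (U.erase l))) : _).symm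
        rw [h2]
        exact ih (U.erase l) (erase_ssubset hl) h1 _

theorem conn_Fh {w : List (Lt V)} {s : Setoid V}
    (hw : ∀ x y, (Sum.inl s(x, y) : Lt V) ∈ w → s x y) {r : V} {X : Finset V}
    (h : ¬∀ u ∈ X, s r u) (φ : EE (Lt V)) : PP (Fh r X φ) (word w) = 0 := by
  have h1 : Fh r X = G zz r (X.erase r) * iv r := by rw [Fh, iv, ins_G]
  rw [h1]
  refine conn hw (fun h2 => h fun u hu => ?_) _
  by_cases hur : u = r
  · rw [hur]
  · exact h2 u (mem_erase.2 ⟨hur, hu⟩)

end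

/-! ### The main cancellation -/

section

variable {V : Type*} [Fintype V] [DecidableEq V]

theorem sum_M {m : ℕ} (hm : 0 < m) (hV : Fintype.card V = 2 * m + 1) (rt : Finset V → V) :
    ∑ X ∈ powersetCard m (univ : Finset V), Fh (rt X) X (NN rt Xᶜ) = 0 := by
  have h1 : ∑ X ∈ powersetCard m (univ : Finset V), Fh (rt X) X (NN rt Xᶜ) =
      ∑ q ∈ (powersetCard m (univ : Finset V)).sigma fun X => Xᶜ,
        -((iv q.2 * (Fh (rt q.1) q.1 * Fh (rt (q.1ᶜ.erase q.2)) (q.1ᶜ.erase q.2))) one) := by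
    rw [sum_sigma]
    refine sum_congr rfl fun X _ => ?_
    rw [NN, map_sum]
    refine sum_congr rfl fun x _ => ?_
    have h2 : Fh (rt X) X * (iv x * Fh (rt (Xᶜ.erase x)) (Xᶜ.erase x)) =
        -(iv x * (Fh (rt X) X * Fh (rt (Xᶜ.erase x)) (Xᶜ.erase x))) := by
      have h3 : iv x * Fh (rt X) X = -(Fh (rt X) X * iv x) := ins_Fh _ _ _
      rw [← mul_assoc, ← mul_assoc, h3, neg_mul, neg_neg]
    exact LinearMap.congr_fun h2 one
  rw [h1]
  have hback : ∀ q : (_ : Finset V) × V, q ∈ (powersetCard m (univ : Finset V)).sigma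
      (fun X => Xᶜ) → (q.1ᶜ.erase q.2)ᶜ.erase q.2 = q.1 := by
    intro q hq
    rw [mem_sigma, mem_compl] at hq
    ext y
    simp only [mem_erase, mem_compl, not_and, not_not]
    constructor
    · rintro ⟨h1, h2⟩
      exact h2 h1
    · intro h
      refine ⟨?_, fun _ => h⟩
      rintro rfl
      exact hq.2 h
  refine sum_involution (fun q _ => ⟨q.1ᶜ.erase q.2, q.2⟩) ?_ ?_ ?_ ?_
  · intro q hq
    have e1 := hback q hq
    show -((iv q.2 * (Fh (rt q.1) q.1 * Fh (rt (q.1ᶜ.erase q.2)) (q.1ᶜ.erase q.2))) one) +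
      -((iv q.2 * (Fh (rt (q.1ᶜ.erase q.2)) (q.1ᶜ.erase q.2) *
        Fh (rt ((q.1ᶜ.erase q.2)ᶜ.erase q.2)) ((q.1ᶜ.erase q.2)ᶜ.erase q.2))) one) = 0
    rw [e1, Fh_Fh (rt (q.1ᶜ.erase q.2)) (rt q.1), mul_neg, LinearMap.neg_apply]
    abel
  · intro q hq _ h
    rw [mem_sigma, mem_powersetCard] at hq
    have h3 : q.1ᶜ.erase q.2 = q.1 := congrArg Sigma.fst h
    obtain ⟨a, ha⟩ : q.1.Nonempty := by rw [← card_pos, hq.1.2]; exact hm
    have h4 := ha
    rw [← h3, mem_erase, mem_compl] at h4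
    exact h4.2 ha
  · intro q hq
    rw [mem_sigma, mem_powersetCard] at hq ⊢
    refine ⟨⟨subset_univ _, ?_⟩, ?_⟩
    · show (q.1ᶜ.erase q.2).card = m
      rw [card_erase_of_mem hq.2, card_compl, hV, hq.1.2]
      omega
    · show q.2 ∈ (q.1ᶜ.erase q.2)ᶜ
      rw [mem_compl]
      exact notMem_erase _ _
  · intro q hq
    have e1 := hback q hq
    exact Sigma.ext e1 HEq.rfl

/-- graphs all of whose components have at most `c` vertices -/
def Sm (c : ℕ) (l : List (Sym2 V)) : Prop :=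
  (∀ e ∈ l, ¬e.IsDiag) ∧
    ∃ s : Setoid V, (∀ x y, s(x, y) ∈ l → s x y) ∧ ∀ v, {u | s v u}.ncard ≤ c

/-- adding all the vertices -/
noncomputable def Jv : EE (Sym2 V) →ₗ[ℤ] EE (Lt V) :=
  lm ((univ : Finset V).toList.map Sum.inr) ∘ₗ mpE Sum.inl

omit [DecidableEq V] in
theorem Jv_word (l : List (Sym2 V)) :
    Jv (word l) = word ((univ : Finset V).toList.map Sum.inr ++ l.map Sum.inl) := by
  rw [Jv, LinearMap.comp_apply, mpE_word, lm_word]

omit [DecidableEq V] in
theorem mem_Jv_word {l : List (Sym2 V)} {e : Sym2 V} :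
    (Sum.inl e : Lt V) ∈ (univ : Finset V).toList.map Sum.inr ++ l.map Sum.inl ↔ e ∈ l := by
  simp

omit [Fintype V] in
theorem lm_Dm (L : List V) (e : Sym2 V) (y : EE (Lt V)) :
    Dm (Sum.inl e) (lm (L.map Sum.inr) y) =
      (-1 : ℤ) ^ L.length • lm (L.map Sum.inr) (Dm (Sum.inl e) y) := by
  induction L with
  | nil =>
    rw [List.length_nil, pow_zero, one_smul]
    rfl
  | cons a L ih =>
    have h1 : Dm (Sum.inl e) (ins (Sum.inr a) (lm (L.map Sum.inr) y)) =
        -ins (Sum.inr a) (Dm (Sum.inl e) (lm (L.map Sum.inr) y)) :=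
      Dl_ins_ne (by simp) _
    rw [List.map_cons, lm_cons, h1, ih, map_smul, lm_cons, List.length_cons, pow_succ, mul_neg_one,
      neg_smul]

theorem sum_Dm_mpE {l : List (Sym2 V)} (hl : ∀ e ∈ l, ¬e.IsDiag) :
    ∑ e ∈ (univ : Finset V).sym2 with ¬e.IsDiag,
      Dm (Sum.inl e) (mpE (Sum.inl : Sym2 V → Lt V) (word l)) =
      mpE Sum.inl (bdE (word l)) := by
  induction l with
  | nil =>
    rw [bdE, Dc_nil, map_zero]
    refine sum_eq_zero fun e _ => ?_
    rw [mpE_word]
    exact Dc_nil _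
  | cons a l ih =>
    have ih' := ih fun e he => hl e (List.mem_cons_of_mem _ he)
    have ha := hl a List.mem_cons_self
    rw [word_cons, bdE_ins, map_sub, mpE_ins, mpE_ins, ← ih', map_sum]
    have h1 : ∀ e : Sym2 V, Dm (Sum.inl e) (ins (Sum.inl a : Lt V)
        (mpE (Sum.inl : Sym2 V → Lt V) (word l))) =
        (if a = e then mpE (Sum.inl : Sym2 V → Lt V) (word l) else 0) -
        ins (Sum.inl a : Lt V) (Dm (Sum.inl e) (mpE (Sum.inl : Sym2 V → Lt V) (word l))) := by
      intro e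
      rw [Dm_apply_ins]
      congr 1
      by_cases h : a = e
      · subst h
        rw [if_pos rfl, if_pos rfl, one_smul]
      · rw [if_neg h, if_neg fun h' => h (Sum.inl.inj h'), zero_smul]
    simp only [h1]
    rw [sum_sub_distrib, sum_ite_eq, if_pos (by simp [ha])]

omit [Fintype V] in
theorem PP_chi (X : Finset V) (φ : EE (Lt V)) (y : EE (Lt V)) :
    PP (chi X φ) y = PP φ (∑ e ∈ X.sym2 with ¬e.IsDiag, Dm (Sum.inl e) y) := by
  rw [chi, LinearMap.sum_apply, map_sum, LinearMap.sum_apply, map_sum]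
  exact sum_congr rfl fun e _ => PP_ins _ _ _

theorem PP_chi_univ (φ : EE (Lt V)) {y : EE (Sym2 V)}
    (hy : y ∈ Sp {l : List (Sym2 V) | ∀ e ∈ l, ¬e.IsDiag}) :
    PP (chi univ φ) (Jv y) = (-1 : ℤ) ^ Fintype.card V • PP φ (Jv (bdE y)) := by
  refine Sp_congr (PP (chi univ φ) ∘ₗ Jv) ((-1 : ℤ) ^ Fintype.card V • (PP φ ∘ₗ Jv ∘ₗ bdE)) ?_ hy
  intro l hl
  rw [LinearMap.comp_apply, PP_chi, LinearMap.smul_apply, LinearMap.comp_apply,
    LinearMap.comp_apply, Jv, LinearMap.comp_apply, LinearMap.comp_apply]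
  simp only [lm_Dm]
  rw [← smul_sum, ← map_sum, sum_Dm_mpE hl, map_smul, length_toList, card_univ]

/-- **The main cancellation.** -/
theorem core {p j : ℕ} (hp : p.Prime) {m : ℕ} (hm : m = p ^ j)
    (hV : Fintype.card V = 2 * m + 1) {rt : Finset V → V}
    (hrt : ∀ X : Finset V, X.Nonempty → rt X ∈ X) {ec : Finset V → Sym2 V}
    (hec : ∀ X ∈ powersetCard m (univ : Finset V), ec X ∈ Xᶜ.sym2 ∧ ¬(ec X).IsDiag)
    {D : EE (Sym2 V)} (hD : D ∈ Sp {l : List (Sym2 V) | Sm m l}) :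
    (p : ℤ) ∣ ∑ X ∈ powersetCard m (univ : Finset V),
      PP (Fh (rt X) X (Dm (Sum.inl (ec X)) (NN rt Xᶜ))) (Jv (bdE D)) := by
  have hmpos : 0 < m := by rw [hm]; exact pow_pos hp.pos _
  have h0 : ∑ X ∈ powersetCard m (univ : Finset V), PP (Fh (rt X) X (NN rt Xᶜ)) (Jv D) = 0 := by
    rw [← LinearMap.sum_apply, ← map_sum, sum_M hmpos hV, map_zero, LinearMap.zero_apply]
  have hD' : D ∈ Sp {l : List (Sym2 V) | ∀ e ∈ l, ¬e.IsDiag} :=
    Sp_mono (fun l hl => hl.1) hD
  have key : ∀ X ∈ powersetCard m (univ : Finset V),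
      PP (Fh (rt X) X (NN rt Xᶜ)) (Jv D) -
        PP (Fh (rt X) X (Dm (Sum.inl (ec X)) (NN rt Xᶜ))) (Jv (bdE D)) ∈ pS p ℤ := by
    intro X hX
    obtain ⟨he, hd⟩ := hec X hX
    rw [mem_powersetCard] at hX
    set N' := Dm (Sum.inl (ec X)) (NN rt Xᶜ) with hN'
    have hXc : Xᶜ.card = p ^ j + 1 := by
      rw [card_compl, hV, hX.2, ← hm]
      omega
    have hne : X.Nonempty := by rw [← card_pos, hX.2]; exact hmpos
    have hr := hrt X hne
    have h1 := pS_map p (Fh (rt X) X) (NN_eq hp hrt hXc he hd)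
    have h2 := pS_map p ((LinearMap.applyₗ (Jv D)) ∘ₗ PP) h1
    have h3 : ((LinearMap.applyₗ (Jv D)) ∘ₗ PP) (Fh (rt X) X (NN rt Xᶜ - chi Xᶜ N')) =
        PP (Fh (rt X) X (NN rt Xᶜ)) (Jv D) - PP (Fh (rt X) X (chi Xᶜ N')) (Jv D) := by
      rw [map_sub, map_sub]
      rfl
    rw [h3] at h2
    -- all edges
    have h4 : chi (univ : Finset V) = chi X + chi Xᶜ + ∑ a ∈ X, Xs a Xᶜ := by
      rw [← chi_union disjoint_compl_right, union_compl]
    have h5 : Fh (rt X) X * chi Xᶜ = -(chi univ * Fh (rt X) X) -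
        Fh (rt X) X * ∑ a ∈ X, Xs a Xᶜ := by
      rw [chi_Fh, neg_neg, h4, mul_add, mul_add, Fh_chi hr]
      abel
    have h6 : PP ((Fh (rt X) X * ∑ a ∈ X, Xs a Xᶜ) N') (Jv D) = 0 := by
      rw [mul_sum, LinearMap.sum_apply, map_sum, LinearMap.sum_apply]
      refine sum_eq_zero fun a ha => ?_
      rw [Xs, mul_sum, LinearMap.sum_apply, map_sum, LinearMap.sum_apply]
      refine sum_eq_zero fun b hb => ?_
      rw [mem_compl] at hb
      refine Sp_congr (PP ((Fh (rt X) X * ie a b) N') ∘ₗ Jv) 0 (fun l hl => ?_) hD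
      rw [LinearMap.comp_apply, Jv_word, LinearMap.zero_apply]
      obtain ⟨_, s, hs1, hs2⟩ := hl
      have hw : ∀ x y, (Sum.inl s(x, y) : Lt V) ∈
          (univ : Finset V).toList.map Sum.inr ++ l.map Sum.inl → s x y := by
        intro x y h
        exact hs1 x y (mem_Jv_word.1 h)
      by_cases hc : ∀ u ∈ X, s (rt X) u
      · have hsub : (X : Set V) ⊆ {u | s (rt X) u} := fun u hu => hc u hu
        have heq : (X : Set V) = {u | s (rt X) u} := by
          refine Set.eq_of_subset_of_ncard_le hsub ?_ (Set.toFinite _)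
          rw [Set.ncard_coe_finset, hX.2]
          exact hs2 _
        have h7 : ie a b * Fh (rt X) X = -(Fh (rt X) X * ie a b) := ins_Fh _ _ _
        have h8 : Fh (rt X) X * ie a b = -(ie a b * Fh (rt X) X) := by rw [h7, neg_neg]
        rw [h8, LinearMap.neg_apply, map_neg, LinearMap.neg_apply, neg_eq_zero]
        refine PP_ins_not_mem ?_ _
        intro h9
        have h10 := hw a b h9
        apply hb
        have h11 : b ∈ {u | s (rt X) u} := s.trans' (hc a ha) h10
        rw [← heq] at h11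
        exact h11
      · exact conn_Fh hw hc _
    have h7 : PP (Fh (rt X) X (chi Xᶜ N')) (Jv D) = PP (Fh (rt X) X N') (Jv (bdE D)) := by
      have h8 : Fh (rt X) X (chi Xᶜ N') = -(chi univ (Fh (rt X) X N')) -
          (Fh (rt X) X * ∑ a ∈ X, Xs a Xᶜ) N' := LinearMap.congr_fun h5 N'
      rw [h8, map_sub, LinearMap.sub_apply, h6, sub_zero, map_neg, LinearMap.neg_apply,
        PP_chi_univ _ hD', hV, pow_succ, pow_mul]
      simp
    rw [h7] at h2
    exact h2
  have h1 := Submodule.sum_mem _ key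
  rw [sum_sub_distrib, h0, zero_sub] at h1
  have h2 := pS_int h1
  rwa [dvd_neg] at h2

end

end Pool.Agent.KS6_98.Bdd
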