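import Pool.Agent.KS6_98.Bdd.Graph

/-!
# Detection of the class
-/

set_option autoImplicit false

namespace Pool.Agent.KS6_98.Bdd

open Pool.Agent.KS6_98.Orb Finset

section

variable {V : Type*} [DecidableEq V]

theorem conn_zz {w : List (Lt V)} (hnd : w.Nodup) {s : Setoid V} {l u : V}
    (hw : ∀ x y, (Sum.inl s(x, y) : Lt V) ∈ w → s(x, y) ≠ s(l, u) → s x y) {r : V} {U : Finset V}
    (h : ¬∀ u ∈ U, s r u) (φ : EE (Lt V)) : PP (zz l u (G zz r U φ)) (word w) = 0 := by
  have h1 : zz l u (G zz r U φ) = ins (Sum.inr l) (ins (Sum.inl s(l, u)) (G zz r U φ)) := rfl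
  rw [h1, PP_ins, PP_ins]
  refine Sp_congr (PP (G zz r U φ) ∘ₗ Dl (Sum.inl s(l, u))) 0 ?_ (Dc_mem_Sp _ w)
  rintro w' ⟨hs, _⟩
  rw [LinearMap.comp_apply, LinearMap.zero_apply]
  have h2 := Dl_word_mem (Sum.inl s(l, u) : Lt V) (hnd.sublist hs)
  have h3 : Submodule.span ℤ {x | ∃ l' : List (Lt V), l'.Sublist w' ∧
      l'.length + 1 = w'.length ∧ (Sum.inl s(l, u) : Lt V) ∉ l' ∧ x = word l'} ≤
      LinearMap.ker (PP (G zz r U φ)) := by
    refine Submodule.span_le.2 ?_
    rintro y ⟨w'', hs', _, hn, rfl⟩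
    show PP (G zz r U φ) (word w'') = 0
    refine conn (s := s) (fun a b hab => ?_) h φ
    refine hw a b (hs.subset (hs'.subset hab)) ?_
    intro e
    rw [e] at hab
    exact hn hab
  exact h3 h2

/-- the letters of a path rooted at its first vertex -/
def PL (f : ℕ → V) : ℕ → List (Lt V)
  | 0 => []
  | k + 1 => PL f k ++ [Sum.inr (f (k + 1)), Sum.inl s(f (k + 1), f k)]

/-- evaluation on a path -/
theorem eval_path {f : ℕ → V} {K : ℕ} (hf : ∀ i ≤ K, ∀ j ≤ K, f i = f j → i = j)
    {w : List (Lt V)} (hnd : w.Nodup)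
    (hw : ∀ a b, (Sum.inl s(a, b) : Lt V) ∈ w → (∃ i < K, s(a, b) = s(f i, f (i + 1))) ∨
      ∀ i ≤ K, a ≠ f i ∧ b ≠ f i) (k : ℕ) (hk : k ≤ K) (φ : EE (Lt V)) :
    PP (G zz (f 0) ((range k).image fun i => f (i + 1)) φ) (word w) =
      PP (lm (PL f k) φ) (word w) := by
  induction k generalizing φ with
  | zero => rfl
  | succ k ih =>
    set U := (range (k + 1)).image fun i => f (i + 1) with hU
    have hmemU : ∀ i ≤ K, f i ∈ U ↔ 1 ≤ i ∧ i ≤ k + 1 := by
      intro i hi
      rw [hU, mem_image]
      constructor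
      · rintro ⟨j, hj, hji⟩
        rw [mem_range] at hj
        have := hf (j + 1) (by omega) i hi hji
        omega
      · rintro ⟨h1, h2⟩
        refine ⟨i - 1, by rw [mem_range]; omega, ?_⟩
        rw [Nat.sub_add_cancel h1]
    have hlast : f (k + 1) ∈ U := (hmemU _ hk).2 ⟨by omega, le_rfl⟩
    have herase : U.erase (f (k + 1)) = (range k).image fun i => f (i + 1) := by
      rw [hU, range_add_one, image_insert, erase_insert]
      rw [mem_image]
      rintro ⟨j, hj, hji⟩
      rw [mem_range] at hj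
      have := hf (j + 1) (by omega) (k + 1) hk hji
      omega
    rw [G_rec zz (f 0) ⟨_, hlast⟩, LinearMap.sum_apply, map_sum, LinearMap.sum_apply,
      sum_eq_single (f (k + 1))]
    · rw [herase]
      have h1 : insert (f 0) ((range k).image fun i => f (i + 1)) =
          (range (k + 1)).image f := by
        rw [range_eq_Ico, range_eq_Ico]
        ext y
        simp only [mem_insert, mem_image, mem_Ico]
        constructor
        · rintro (rfl | ⟨i, hi, rfl⟩)
          · exact ⟨0, by omega, rfl⟩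
          · exact ⟨i + 1, by omega, rfl⟩
        · rintro ⟨i, hi, rfl⟩
          rcases Nat.eq_zero_or_pos i with rfl | h
          · exact Or.inl rfl
          · refine Or.inr ⟨i - 1, by omega, ?_⟩
            rw [Nat.sub_add_cancel h]
      rw [h1, Zs, sum_mul, LinearMap.sum_apply, map_sum, LinearMap.sum_apply,
        sum_eq_single (f k)]
      · have h2 : zz (f (k + 1)) (f k) * G zz (f 0) ((range k).image fun i => f (i + 1)) =
            G zz (f 0) ((range k).image fun i => f (i + 1)) * zz (f (k + 1)) (f k) :=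
          comm_G (fun a b => zz_comm _ _ a b) _ _
        rw [h2]
        show PP (G zz (f 0) ((range k).image fun i => f (i + 1)) (zz (f (k + 1)) (f k) φ))
          (word w) = _
        rw [ih (by omega), PL, lm_append]
        rfl
      · intro b hb hbk
        obtain ⟨i, hi, rfl⟩ := mem_image.1 hb
        rw [mem_range] at hi
        have h3 : zz (f (k + 1)) (f i) * G zz (f 0) ((range k).image fun i => f (i + 1)) =
            -(ie (f (k + 1)) (f i) * iv (f (k + 1))) *
              G zz (f 0) ((range k).image fun i => f (i + 1)) := by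
          rw [zz, iv_ie]
        rw [h3, neg_mul, LinearMap.neg_apply, map_neg, LinearMap.neg_apply, neg_eq_zero]
        refine PP_ins_not_mem ?_ _
        intro hmem
        rcases hw _ _ hmem with ⟨i', hi', e⟩ | h
        · rw [Sym2.eq_iff] at e
          rcases e with ⟨e1, e2⟩ | ⟨e1, e2⟩
          · have := hf _ hk _ (by omega) e1
            have := hf _ (by omega) _ (by omega) e2
            omega
          · have := hf _ hk _ (by omega) e1
            have := hf _ (by omega) _ (by omega) e2
            apply hbk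
            congr 1
            omega
        · exact (h (k + 1) hk).1 rfl
      · intro h
        exact absurd (mem_image_of_mem f (mem_range.2 (Nat.lt_succ_self k))) h
    · intro l hl hlk
      obtain ⟨i, hi, rfl⟩ := mem_image.1 (hU ▸ hl)
      rw [mem_range] at hi
      have hik : i < k := by
        by_contra hc
        have : i = k := by omega
        exact hlk (by rw [this])
      rw [Zs, sum_mul, LinearMap.sum_apply, map_sum, LinearMap.sum_apply]
      refine sum_eq_zero fun u hu => ?_
      by_cases hmem : (Sum.inl s(f (i + 1), u) : Lt V) ∈ w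
      · have h4 : ∃ i' < K, s(f (i + 1), u) = s(f i', f (i' + 1)) := by
          rcases hw _ _ hmem with h | h
          · exact h
          · exact absurd rfl (h (i + 1) (by omega)).1
        obtain ⟨i', hi', e⟩ := h4
        have hi'k : i' ≤ k := by
          have e' := e
          rw [Sym2.eq_iff] at e'
          rcases e' with ⟨e1, e2⟩ | ⟨e1, e2⟩
          · have h5 := hf _ (by omega) _ (by omega) e1
            rw [e2] at hu
            rcases mem_insert.1 hu with h6 | h6
            · have := hf _ (by omega) _ (by omega) h6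
              omega
            · have := (hmemU _ (by omega)).1 (mem_of_mem_erase h6)
              omega
          · have h5 := hf _ (by omega) _ (by omega) e1
            omega
        refine conn_zz hnd (s := Setoid.ker fun v => ∃ q ≤ i', v = f q) ?_ ?_ φ
        · intro a b hab hne
          show (∃ q ≤ i', a = f q) = (∃ q ≤ i', b = f q)
          have hq : ∀ q ≤ K, (∃ q' ≤ i', f q = f q') ↔ q ≤ i' := by
            intro q hq
            constructor
            · rintro ⟨q', h1, h2⟩
              have := hf _ hq _ (by omega) h2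
              omega
            · intro h
              exact ⟨q, h, rfl⟩
          rcases hw _ _ hab with ⟨i'', hi'', e'⟩ | h
          · have hii : i'' ≠ i' := by
              rintro rfl
              exact hne (e'.trans e.symm)
            rw [Sym2.eq_iff] at e'
            rcases e' with ⟨rfl, rfl⟩ | ⟨rfl, rfl⟩
            · rw [propext (hq i'' (by omega)), propext (hq (i'' + 1) (by omega))]
              apply propext
              omega
            · rw [propext (hq i'' (by omega)), propext (hq (i'' + 1) (by omega))]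
              apply propext
              omega
          · apply propext
            constructor
            · rintro ⟨q, hq1, hq2⟩
              exact absurd hq2 (h q (by omega)).1
            · rintro ⟨q, hq1, hq2⟩
              exact absurd hq2 (h q (by omega)).2
        · intro hall
          have h5 : f (k + 1) ∈ U.erase (f (i + 1)) := by
            refine mem_erase.2 ⟨fun e1 => ?_, hlast⟩
            have := hf _ hk _ (by omega) e1
            omega
          have h6 : (∃ q ≤ i', f 0 = f q) = (∃ q ≤ i', f (k + 1) = f q) := hall _ h5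
          have h7 : ∃ q ≤ i', f (k + 1) = f q := by
            rw [← h6]
            exact ⟨0, by omega, rfl⟩
          obtain ⟨q, hq1, hq2⟩ := h7
          have := hf _ hk _ (by omega) hq2
          omega
      · have h3 : zz (f (i + 1)) u * G zz (f 0) (U.erase (f (i + 1))) =
            -(ie (f (i + 1)) u * iv (f (i + 1))) * G zz (f 0) (U.erase (f (i + 1))) := by
          rw [zz, iv_ie]
        rw [h3, neg_mul, LinearMap.neg_apply, map_neg, LinearMap.neg_apply, neg_eq_zero]
        exact PP_ins_not_mem hmem _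
    · intro h
      exact absurd hlast h

omit [DecidableEq V] in
theorem PL_length (f : ℕ → V) (k : ℕ) : (PL f k).length = 2 * k := by
  induction k with
  | zero => rfl
  | succ k ih => rw [PL, List.length_append, ih, List.length_cons, List.length_singleton]; ring

omit [DecidableEq V] in
theorem mem_PL_v (f : ℕ → V) (k : ℕ) {i : ℕ} (h1 : 1 ≤ i) (h2 : i ≤ k) :
    (Sum.inr (f i) : Lt V) ∈ PL f k := by
  induction k with
  | zero => omega
  | succ k ih =>
    rw [PL, List.mem_append]
    by_cases h : i ≤ k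
    · exact Or.inl (ih h)
    · have : i = k + 1 := by omega
      subst this
      right
      simp

omit [DecidableEq V] in
theorem mem_PL_e (f : ℕ → V) (k : ℕ) {i : ℕ} (h2 : i < k) :
    (Sum.inl s(f i, f (i + 1)) : Lt V) ∈ PL f k := by
  induction k with
  | zero => omega
  | succ k ih =>
    rw [PL, List.mem_append]
    by_cases h : i < k
    · exact Or.inl (ih h)
    · have : i = k := by omega
      subst this
      right
      rw [Sym2.eq_swap]
      simp

end

/-! ### The chain -/

section

variable {V : Type*}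

/-- the edges of a path with `k` edges starting at `x a` -/
def pE (x : ℕ → V) (a k : ℕ) : List (Sym2 V) :=
  (List.range k).map fun i => s(x (a + i), x (a + i + 1))

theorem pE_length (x : ℕ → V) (a k : ℕ) : (pE x a k).length = k := by simp [pE]

theorem mem_pE {x : ℕ → V} {a k : ℕ} {e : Sym2 V} :
    e ∈ pE x a k ↔ ∃ i < k, e = s(x (a + i), x (a + i + 1)) := by
  rw [pE, List.mem_map]
  simp only [List.mem_range]
  constructor
  · rintro ⟨i, hi, rfl⟩
    exact ⟨i, hi, rfl⟩
  · rintro ⟨i, hi, rfl⟩
    exact ⟨i, hi, rfl⟩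

/-- the chain whose boundary is the cycle -/
noncomputable def T0 (x : ℕ → V) (k : ℕ) : EE (Sym2 V) :=
  lm (pE x 0 k) (bdE (word (pE x (k + 1) k)))

/-- the vertices are distinct -/
def Inj (x : ℕ → V) (n : ℕ) : Prop := ∀ i ≤ n, ∀ j ≤ n, x i = x j → i = j

theorem edge_inj {x : ℕ → V} {n : ℕ} (hx : Inj x n) {i j : ℕ} (hi : i < n) (hj : j < n)
    (h : s(x i, x (i + 1)) = s(x j, x (j + 1))) : i = j := by
  rw [Sym2.eq_iff] at h
  rcases h with ⟨h1, _⟩ | ⟨h1, h2⟩
  · exact hx _ hi.le _ hj.le h1
  · have := hx _ hi.le _ (by omega) h1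
    have := hx _ (by omega) _ hj.le h2
    omega

theorem pE_nodup {x : ℕ → V} {n : ℕ} (hx : Inj x n) {a k : ℕ} (h : a + k ≤ n) :
    (pE x a k).Nodup := by
  rw [pE, List.nodup_map_iff_inj_on List.nodup_range]
  intro i hi j hj hij
  rw [List.mem_range] at hi hj
  have := edge_inj hx (i := a + i) (j := a + j) (by omega) (by omega) hij
  omega

/-- words in the chain -/
theorem T0_mem (x : ℕ → V) (k : ℕ) : T0 x k ∈ Sp {l : List (Sym2 V) | ∃ l' : List (Sym2 V),
    l'.Sublist (pE x (k + 1) k) ∧ l'.length + 1 = k ∧ l = pE x 0 k ++ l'} := by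
  refine Sp_map (lm (pE x 0 k)) ?_ (Dc_mem_Sp _ (pE x (k + 1) k))
  rintro l' ⟨h1, h2⟩
  rw [lm_word]
  rw [pE_length] at h2
  exact Sp_word ⟨l', h1, h2, rfl⟩

theorem exists_missing {x : ℕ → V} {n : ℕ} (hx : Inj x n) {a k : ℕ} (h : a + k ≤ n)
    {l' : List (Sym2 V)} (_h1 : l'.Sublist (pE x a k)) (h2 : l'.length + 1 = k) :
    ∃ i < k, s(x (a + i), x (a + i + 1)) ∉ l' := by
  by_contra hc
  push Not at hc
  have h3 : pE x a k ⊆ l' := by
    intro e he
    obtain ⟨i, hi, rfl⟩ := mem_pE.1 he
    exact hc i hi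
  have h4 := (List.subperm_of_subset (pE_nodup hx h) h3).length_le
  rw [pE_length] at h4
  omega

end

section

variable {V : Type*} [Fintype V]

open Classical in
/-- the labels of the pieces of the graph -/
noncomputable def lab (x : ℕ → V) (k i : ℕ) (v : V) : ℕ :=
  if ∃ q ≤ k, v = x q then 0
  else if ∃ q, k + 1 ≤ q ∧ q ≤ k + 1 + i ∧ v = x q then 1
  else if ∃ q, k + 1 + i + 1 ≤ q ∧ q ≤ 2 * k + 1 ∧ v = x q then 2
  else 3

omit [Fintype V] in
theorem lab_zero {x : ℕ → V} {k i q : ℕ} (h : q ≤ k) : lab x k i (x q) = 0 :=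
  if_pos ⟨q, h, rfl⟩

omit [Fintype V] in
theorem lab_zero_iff {x : ℕ → V} {k i : ℕ} {v : V} :
    lab x k i v = 0 ↔ ∃ q ≤ k, v = x q := by
  rw [lab]
  split_ifs <;> simp_all

omit [Fintype V] in
theorem lab_one {x : ℕ → V} {k i : ℕ} (hx : Inj x (2 * k + 2)) {q : ℕ} (hi : i ≤ k)
    (h1 : k + 1 ≤ q) (h2 : q ≤ k + 1 + i) : lab x k i (x q) = 1 := by
  rw [lab, if_neg, if_pos ⟨q, h1, h2, rfl⟩]
  rintro ⟨q', h3, h4⟩
  have := hx _ (by omega) _ (by omega) h4
  omega

omit [Fintype V] in
theorem lab_two {x : ℕ → V} {k i : ℕ} (hx : Inj x (2 * k + 2)) {q : ℕ}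
    (h1 : k + 1 + i + 1 ≤ q) (h2 : q ≤ 2 * k + 1) : lab x k i (x q) = 2 := by
  rw [lab, if_neg, if_neg, if_pos ⟨q, h1, h2, rfl⟩]
  · rintro ⟨q', h3, h5, h4⟩
    have := hx _ (by omega) _ (by omega) h4
    omega
  · rintro ⟨q', h3, h4⟩
    have := hx _ (by omega) _ (by omega) h4
    omega

theorem surj {x : ℕ → V} {n : ℕ} (hx : Inj x n) (hV : Fintype.card V = n + 1) (v : V) :
    ∃ q ≤ n, v = x q := by
  classical
  have h1 : ((range (n + 1)).image x).card = n + 1 := by
    rw [card_image_of_injOn, card_range]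
    intro i hi j hj hij
    rw [coe_range, Set.mem_Iio] at hi hj
    exact hx i (by omega) j (by omega) hij
  have h2 : (range (n + 1)).image x = univ := by
    rw [← card_eq_iff_eq_univ, h1, hV]
  have h3 : v ∈ (range (n + 1)).image x := by rw [h2]; exact mem_univ v
  obtain ⟨q, hq, rfl⟩ := mem_image.1 h3
  rw [mem_range] at hq
  exact ⟨q, by omega, rfl⟩

/-- sets of size `k + 1` with constant label -/
theorem lab_const [DecidableEq V] {x : ℕ → V} {k i : ℕ} (hx : Inj x (2 * k + 2))
    (hV : Fintype.card V = 2 * k + 3) (hk : 1 ≤ k) (hi : i < k) {X : Finset V}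
    (hX : X.card = k + 1) {c : ℕ} (hc : ∀ v ∈ X, lab x k i v = c) :
    X = (range (k + 1)).image x := by
  have hsub : ∀ S : Finset ℕ, (∀ v ∈ X, ∃ q ∈ S, v = x q) → k + 1 ≤ S.card := by
    intro S hS
    rw [← hX]
    have : X ⊆ S.image x := by
      intro v hv
      obtain ⟨q, hq, rfl⟩ := hS v hv
      exact mem_image_of_mem x hq
    exact (card_le_card this).trans card_image_le
  have h0 : c = 0 := by
    by_contra hc0
    have hge : ∀ v ∈ X, ∃ q, k + 1 ≤ q ∧ q ≤ 2 * k + 2 ∧ v = x q := by
      intro v hv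
      obtain ⟨q, hq, rfl⟩ := surj hx hV v
      by_cases h : q ≤ k
      · have h1 := hc _ hv
        rw [lab_zero h] at h1
        exact absurd h1.symm hc0
      · exact ⟨q, by omega, hq, rfl⟩
    by_cases hc1 : c = 1
    · have := hsub (Icc (k + 1) (k + 1 + i)) (by
        intro v hv
        obtain ⟨q, hq1, hq2, rfl⟩ := hge v hv
        refine ⟨q, ?_, rfl⟩
        rw [mem_Icc]
        refine ⟨hq1, ?_⟩
        by_contra hcc
        have h2 := hc _ hv
        by_cases hq3 : q ≤ 2 * k + 1
        · rw [lab_two hx (by omega) hq3] at h2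
          omega
        · rw [lab] at h2
          split_ifs at h2 with h3 h4 h5
          · omega
          · obtain ⟨q', h6, h7, h8⟩ := h4
            have := hx _ hq2 _ (by omega) h8
            omega
          · omega
          · omega)
      rw [Nat.card_Icc] at this
      omega
    · by_cases hc2 : c = 2
      · have := hsub (Icc (k + 1 + i + 1) (2 * k + 1)) (by
          intro v hv
          obtain ⟨q, hq1, hq2, rfl⟩ := hge v hv
          refine ⟨q, ?_, rfl⟩
          rw [mem_Icc]
          have h2 := hc _ hv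
          rw [lab] at h2
          split_ifs at h2 with h3 h4 h5
          · omega
          · omega
          · obtain ⟨q', h6, h7, h8⟩ := h5
            have := hx _ hq2 _ (by omega) h8
            omega
          · omega)
        rw [Nat.card_Icc] at this
        omega
      · have := hsub {2 * k + 2} (by
          intro v hv
          obtain ⟨q, hq1, hq2, rfl⟩ := hge v hv
          refine ⟨q, ?_, rfl⟩
          rw [mem_singleton]
          by_contra hcc
          have h2 := hc _ hv
          by_cases hq3 : q ≤ k + 1 + i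
          · rw [lab_one hx (by omega) hq1 hq3] at h2
            omega
          · rw [lab_two hx (by omega) (by omega)] at h2
            omega)
        rw [card_singleton] at this
        omega
  subst h0
  refine eq_of_subset_of_card_le ?_ ?_
  · intro v hv
    obtain ⟨q, hq, rfl⟩ := lab_zero_iff.1 (hc v hv)
    exact mem_image_of_mem x (mem_range.2 (by omega))
  · rw [hX]
    exact card_image_le.trans (by rw [card_range])

omit [Fintype V] in
/-- the labels are constant on the edges -/
theorem lab_edge {x : ℕ → V} {k i : ℕ} (hx : Inj x (2 * k + 2)) (hi : i < k)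
    {l' : List (Sym2 V)} (hs : l'.Sublist (pE x (k + 1) k))
    (hi' : s(x (k + 1 + i), x (k + 1 + i + 1)) ∉ l') {a b : V}
    (h : s(a, b) ∈ pE x 0 k ++ l') : lab x k i a = lab x k i b := by
  have key : ∀ q : ℕ, (q < k ∨ (k + 1 ≤ q ∧ q < 2 * k + 1 ∧ q ≠ k + 1 + i)) →
      lab x k i (x q) = lab x k i (x (q + 1)) := by
    rintro q (h | ⟨h1, h2, h3⟩)
    · rw [lab_zero h.le, lab_zero h]
    · by_cases h4 : q ≤ k + 1 + i
      · rw [lab_one hx hi.le h1 h4, lab_one hx hi.le (by omega) (by omega)]
      · rw [lab_two hx (by omega) (by omega), lab_two hx (by omega) (by omega)]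
  have h1 : ∃ q : ℕ, (q < k ∨ (k + 1 ≤ q ∧ q < 2 * k + 1 ∧ q ≠ k + 1 + i)) ∧
      s(a, b) = s(x q, x (q + 1)) := by
    rcases List.mem_append.1 h with h | h
    · obtain ⟨q, hq, e⟩ := mem_pE.1 h
      rw [Nat.zero_add] at e
      exact ⟨q, Or.inl hq, e⟩
    · obtain ⟨q, hq, e⟩ := mem_pE.1 (hs.subset h)
      refine ⟨k + 1 + q, Or.inr ⟨by omega, by omega, ?_⟩, e⟩
      intro hc
      have : q = i := by omega
      subst this
      rw [e] at h
      exact hi' h
  obtain ⟨q, hq, e⟩ := h1
  rw [Sym2.eq_iff] at e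
  rcases e with ⟨rfl, rfl⟩ | ⟨rfl, rfl⟩
  · exact key q hq
  · exact (key q hq).symm

variable [DecidableEq V]

/-- the word of all letters -/
noncomputable def w0 (x : ℕ → V) (k : ℕ) : List (Lt V) :=
  (univ : Finset V).toList.map Sum.inr ++ (pE x 0 k ++ pE x (k + 1) k).map Sum.inl

omit [DecidableEq V] in
theorem w0_nodup {x : ℕ → V} {k : ℕ} (hx : Inj x (2 * k + 2)) : (w0 x k).Nodup := by
  rw [w0, List.nodup_append]
  refine ⟨?_, ?_, ?_⟩
  · exact (nodup_toList _).map Sum.inr_injective
  · refine List.Nodup.map Sum.inl_injective ?_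
    rw [List.nodup_append]
    refine ⟨pE_nodup hx (by omega), pE_nodup hx (by omega), ?_⟩
    intro e he e' he' hee
    subst hee
    obtain ⟨i, hi, e1⟩ := mem_pE.1 he
    obtain ⟨j, hj, e2⟩ := mem_pE.1 he'
    have := edge_inj hx (i := 0 + i) (j := k + 1 + j) (by omega) (by omega) (e1.symm.trans e2)
    omega
  · intro a ha b hb hab
    obtain ⟨a', _, rfl⟩ := List.mem_map.1 ha
    obtain ⟨b', _, rfl⟩ := List.mem_map.1 hb
    exact absurd hab (by simp)

omit [Fintype V] in
theorem erase_first (f : ℕ → V) (k : ℕ) (hf : ∀ i < k, f (i + 1) ≠ f 0) :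
    ((range (k + 1)).image f).erase (f 0) = (range k).image fun i => f (i + 1) := by
  ext y
  rw [mem_erase, mem_image, mem_image]
  constructor
  · rintro ⟨h1, i, hi, rfl⟩
    rw [mem_range] at hi
    have h0 : i ≠ 0 := by
      rintro rfl
      exact h1 rfl
    refine ⟨i - 1, by rw [mem_range]; omega, ?_⟩
    rw [Nat.sub_add_cancel (by omega)]
  · rintro ⟨i, hi, rfl⟩
    rw [mem_range] at hi
    exact ⟨hf i hi, i + 1, by rw [mem_range]; omega, rfl⟩

/-- the value of the pairing at the end -/
theorem eval_top {x : ℕ → V} {k : ℕ} (hx : Inj x (2 * k + 2))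
    (hV : Fintype.card V = 2 * k + 3) :
    (PP (Fh (x 0) ((range (k + 1)).image x) (iv (x (2 * k + 2))
      (Fh (x (k + 1)) ((range (k + 1)).image fun i => x (k + 1 + i)) one))) (word (w0 x k))) ^ 2 =
        1 := by
  have e1 : ((range (k + 1)).image x).erase (x 0) = (range k).image fun i => x (i + 1) := by
    refine erase_first x k fun i hi h => ?_
    have := hx (i + 1) (by omega) 0 (by omega) h
    omega
  have e2 : ((range (k + 1)).image fun i => x (k + 1 + i)).erase (x (k + 1)) =
      (range k).image fun i => x (k + 1 + (i + 1)) := by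
    refine erase_first (fun i => x (k + 1 + i)) k fun i hi h => ?_
    have := hx (k + 1 + (i + 1)) (by omega) (k + 1) (by omega) h
    omega
  have hnd := w0_nodup hx
  have hedge : ∀ e : Sym2 V, (Sum.inl e : Lt V) ∈ w0 x k →
      ∃ q, (q < k ∨ (k + 1 ≤ q ∧ q < 2 * k + 1)) ∧ e = s(x q, x (q + 1)) := by
    intro e he
    rw [w0, mem_Jv_word] at he
    rcases List.mem_append.1 he with h | h
    · obtain ⟨q, hq, e1⟩ := mem_pE.1 h
      rw [Nat.zero_add] at e1
      exact ⟨q, Or.inl hq, e1⟩
    · obtain ⟨q, hq, e1⟩ := mem_pE.1 h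
      exact ⟨k + 1 + q, Or.inr ⟨by omega, by omega⟩, e1⟩
  -- first path
  have h1 : ∀ φ, PP (G zz (x 0) ((range k).image fun i => x (i + 1)) φ) (word (w0 x k)) =
      PP (lm (PL x k) φ) (word (w0 x k)) := by
    intro φ
    refine eval_path (f := x) (K := k) (fun i hi j hj => hx i (by omega) j (by omega)) hnd ?_ k
      le_rfl φ
    intro a b hab
    obtain ⟨q, hq | ⟨hq1, hq2⟩, e⟩ := hedge _ hab
    · exact Or.inl ⟨q, hq, e⟩
    · right
      intro i hi
      have h2 : ∀ q', k + 1 ≤ q' → q' ≤ 2 * k + 2 → x q' ≠ x i := by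
        intro q' h3 h4 h5
        have := hx _ h4 _ (by omega) h5
        omega
      rw [Sym2.eq_iff] at e
      rcases e with ⟨rfl, rfl⟩ | ⟨rfl, rfl⟩
      · exact ⟨h2 _ hq1 (by omega), h2 _ (by omega) (by omega)⟩
      · exact ⟨h2 _ (by omega) (by omega), h2 _ hq1 (by omega)⟩
  -- second path
  have h2 : ∀ φ, PP (G zz (x (k + 1)) ((range k).image fun i => x (k + 1 + (i + 1))) φ)
      (word (w0 x k)) = PP (lm (PL (fun i => x (k + 1 + i)) k) φ) (word (w0 x k)) := by
    intro φ
    refine eval_path (f := fun i => x (k + 1 + i)) (K := k) (fun i hi j hj h => ?_) hnd ?_ k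
      le_rfl φ
    · have := hx _ (by omega) _ (by omega) h
      omega
    intro a b hab
    obtain ⟨q, hq | ⟨hq1, hq2⟩, e⟩ := hedge _ hab
    · right
      intro i hi
      have h2 : ∀ q', q' ≤ k → x q' ≠ x (k + 1 + i) := by
        intro q' h3 h5
        have := hx _ (by omega) _ (by omega) h5
        omega
      rw [Sym2.eq_iff] at e
      rcases e with ⟨rfl, rfl⟩ | ⟨rfl, rfl⟩
      · exact ⟨h2 _ (by omega), h2 _ (by omega)⟩
      · exact ⟨h2 _ (by omega), h2 _ (by omega)⟩
    · left
      refine ⟨q - (k + 1), by omega, ?_⟩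
      rw [e]
      have e3 : k + 1 + (q - (k + 1)) = q := by omega
      have e4 : k + 1 + (q - (k + 1) + 1) = q + 1 := by omega
      rw [e3, e4]
  set GA := G zz (x 0) ((range k).image fun i => x (i + 1)) with hGA
  set GB := G zz (x (k + 1)) ((range k).image fun i => x (k + 1 + (i + 1))) with hGB
  have e3 : Fh (x 0) ((range (k + 1)).image x) * (iv (x (2 * k + 2)) *
      Fh (x (k + 1)) ((range (k + 1)).image fun i => x (k + 1 + i))) =
      GB * (GA * (iv (x 0) * (iv (x (2 * k + 2)) * iv (x (k + 1))))) := by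
    rw [Fh, Fh, e1, e2, ← hGA, ← hGB]
    have c1 : ∀ a, iv a * GA = GA * iv a := fun a => ins_G _ _ _
    have c2 : ∀ a, iv a * GB = GB * iv a := fun a => ins_G _ _ _
    have c3 : GA * GB = GB * GA := G_G _ _ _ _
    calc iv (x 0) * GA * (iv (x (2 * k + 2)) * (iv (x (k + 1)) * GB))
        = GA * (iv (x 0) * (iv (x (2 * k + 2)) * (iv (x (k + 1)) * GB))) := by
          rw [c1, mul_assoc]
      _ = GA * (iv (x 0) * (iv (x (2 * k + 2)) * (GB * iv (x (k + 1))))) := by rw [c2]
      _ = GA * (iv (x 0) * ((iv (x (2 * k + 2)) * GB) * iv (x (k + 1)))) := by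
          rw [mul_assoc (iv (x (2 * k + 2)))]
      _ = GA * ((iv (x 0) * GB) * (iv (x (2 * k + 2)) * iv (x (k + 1)))) := by
          rw [c2, mul_assoc GB, ← mul_assoc (iv (x 0))]
      _ = GB * (GA * (iv (x 0) * (iv (x (2 * k + 2)) * iv (x (k + 1))))) := by
          rw [c2, mul_assoc GB, ← mul_assoc GA, c3, mul_assoc]
  have e4 : Fh (x 0) ((range (k + 1)).image x) (iv (x (2 * k + 2))
      (Fh (x (k + 1)) ((range (k + 1)).image fun i => x (k + 1 + i)) one)) =
      GB (GA (word [Sum.inr (x 0), Sum.inr (x (2 * k + 2)), Sum.inr (x (k + 1))])) := by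
    rw [word_cons, word_cons, word_cons]
    exact LinearMap.congr_fun e3 one
  have e5 : ∀ y, PP (GB (GA y)) (word (w0 x k)) =
      PP (GA (lm (PL (fun i => x (k + 1 + i)) k) y)) (word (w0 x k)) := by
    intro y
    rw [h2]
    congr 2
    have : ∀ l : List (Lt V), lm l (GA y) = GA (lm l y) := by
      intro l
      induction l with
      | nil => rfl
      | cons a l ih =>
        rw [lm_cons, lm_cons, ih]
        exact LinearMap.congr_fun (ins_G a _ _) _
    exact this _
  rw [e4, e5, h1, lm_word, lm_word]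
  set w2 := PL x k ++ (PL (fun i => x (k + 1 + i)) k ++
    [Sum.inr (x 0), Sum.inr (x (2 * k + 2)), Sum.inr (x (k + 1))]) with hw2
  have hsub : w0 x k ⊆ w2 := by
    rintro (e | v) h
    · obtain ⟨q, hq | ⟨hq1, hq2⟩, rfl⟩ := hedge _ h
      · rw [hw2, List.mem_append]
        exact Or.inl (mem_PL_e x k hq)
      · rw [hw2, List.mem_append, List.mem_append]
        right
        left
        have h5 := mem_PL_e (fun i => x (k + 1 + i)) k (i := q - (k + 1)) (by omega)
        have e3 : k + 1 + (q - (k + 1)) = q := by omega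
        have e4 : k + 1 + (q - (k + 1) + 1) = q + 1 := by omega
        simp only [e3, e4] at h5
        exact h5
    · obtain ⟨q, hq, rfl⟩ := surj hx hV v
      rw [hw2, List.mem_append, List.mem_append]
      by_cases q0 : q = 0
      · subst q0
        simp
      by_cases q1 : q ≤ k
      · exact Or.inl (mem_PL_v x k (by omega) q1)
      by_cases q2 : q = k + 1
      · subst q2
        simp
      by_cases q3 : q ≤ 2 * k + 1
      · right
        left
        have h5 := mem_PL_v (fun i => x (k + 1 + i)) k (i := q - (k + 1)) (by omega) (by omega)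
        have e3 : k + 1 + (q - (k + 1)) = q := by omega
        simp only [e3] at h5
        exact h5
      · have : q = 2 * k + 2 := by omega
        subst this
        simp
  have hlen : w2.length ≤ (w0 x k).length := by
    rw [hw2, w0]
    simp only [List.length_append, List.length_map, length_toList, card_univ, hV, pE_length,
      PL_length, List.length_cons, List.length_nil]
    omega
  have hperm : (w0 x k).Perm w2 := (List.subperm_of_subset hnd hsub).perm_of_length_le hlen
  rcases word_perm hperm with h | h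
  · rw [← h, PP_word_self hnd]
    norm_num
  · have h6 : word w2 = -word (w0 x k) := by rw [h, neg_neg]
    rw [h6, map_neg, LinearMap.neg_apply, PP_word_self hnd]
    norm_num

/-- **Detection**: a multiple of the cycle which bounds is a multiple by a multiple of `p`. -/
theorem detect {p j k : ℕ} (hp : p.Prime) (hkp : k + 1 = p ^ j) (hk : 1 ≤ k)
    (hV : Fintype.card V = 2 * k + 3) {x : ℕ → V} (hx : Inj x (2 * k + 2)) {N : ℤ}
    {C : EE (Sym2 V)} (hC : C ∈ Sp {l : List (Sym2 V) | Sm k l ∧ l.length + 1 = 2 * k})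
    (h : bdE C = N • bdE (T0 x k)) : (p : ℤ) ∣ N := by
  set A0 : Finset V := (range (k + 1)).image x with hA0
  set B0 : Finset V := (range (k + 1)).image fun i => x (k + 1 + i) with hB0
  have hA0card : A0.card = k + 1 := by
    rw [hA0, card_image_of_injOn, card_range]
    intro i hi j hj hij
    rw [coe_range, Set.mem_Iio] at hi hj
    exact hx i (by omega) j (by omega) hij
  have hmemA : ∀ q ≤ 2 * k + 2, x q ∈ A0 ↔ q ≤ k := by
    intro q hq
    rw [hA0, mem_image]
    constructor
    · rintro ⟨i, hi, hiq⟩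
      rw [mem_range] at hi
      have := hx _ (by omega) _ hq hiq
      omega
    · intro h
      exact ⟨q, mem_range.2 (by omega), rfl⟩
  have hmemB : ∀ q ≤ 2 * k + 2, x q ∈ B0 ↔ k + 1 ≤ q ∧ q ≤ 2 * k + 1 := by
    intro q hq
    rw [hB0, mem_image]
    constructor
    · rintro ⟨i, hi, hiq⟩
      rw [mem_range] at hi
      have := hx _ (by omega) _ hq hiq
      omega
    · rintro ⟨h1, h2⟩
      exact ⟨q - (k + 1), mem_range.2 (by omega), by
        have : k + 1 + (q - (k + 1)) = q := by omega
        rw [this]⟩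
  have hBA : B0 ≠ A0 := by
    intro e
    have h1 := (hmemA 0 (by omega)).2 (by omega)
    rw [← e, hmemB 0 (by omega)] at h1
    omega
  -- the complement of `A0`
  have hcompl : A0ᶜ.erase (x (2 * k + 2)) = B0 := by
    ext v
    obtain ⟨q, hq, rfl⟩ := surj hx hV v
    rw [mem_erase, mem_compl, hmemA q hq, hmemB q hq]
    constructor
    · rintro ⟨h1, h2⟩
      have : q ≠ 2 * k + 2 := by
        rintro rfl
        exact h1 rfl
      omega
    · rintro ⟨h1, h2⟩
      refine ⟨fun e => ?_, by omega⟩
      have := hx _ hq _ (by omega) e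
      omega
  -- the roots
  classical
  let rt : Finset V → V := fun X =>
    if X = A0 then x 0 else if X = B0 then x (k + 1) else
      if h : X.Nonempty then h.choose else x 0
  have hrtA : rt A0 = x 0 := if_pos rfl
  have hrtB : rt B0 = x (k + 1) := by
    show (if B0 = A0 then _ else _) = _
    rw [if_neg hBA, if_pos rfl]
  have hrt : ∀ X : Finset V, X.Nonempty → rt X ∈ X := by
    intro X hX
    by_cases h1 : X = A0
    · rw [h1, hrtA, hmemA 0 (by omega)]
      omega
    · by_cases h2 : X = B0
      · rw [h2, hrtB, hmemB _ (by omega)]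
        omega
      · show (if X = A0 then _ else _) ∈ X
        rw [if_neg h1, if_neg h2, dif_pos hX]
        exact hX.choose_spec
  -- the edges
  have hec0 : ∀ X : Finset V, ∃ e : Sym2 V, (X = A0 → e = s(x (k + 1), x (k + 1 + 1))) ∧
      (X ∈ powersetCard (k + 1) (univ : Finset V) → e ∈ Xᶜ.sym2 ∧ ¬e.IsDiag) := by
    intro X
    by_cases h1 : X = A0
    · refine ⟨s(x (k + 1), x (k + 1 + 1)), fun _ => rfl, fun _ => ⟨?_, ?_⟩⟩
      · rw [h1, mk_mem_sym2_iff, mem_compl, mem_compl, hmemA _ (by omega), hmemA _ (by omega)]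
        omega
      · rw [Sym2.mk_isDiag_iff]
        intro e
        have := hx _ (by omega) _ (by omega) e
        omega
    · by_cases h2 : X ∈ powersetCard (k + 1) (univ : Finset V)
      · have h3 : 1 < Xᶜ.card := by
          rw [card_compl, hV, (mem_powersetCard.1 h2).2]
          omega
        obtain ⟨a, ha, b, hb, hab⟩ := one_lt_card.1 h3
        refine ⟨s(a, b), fun h => absurd h h1, fun _ => ⟨mk_mem_sym2_iff.2 ⟨ha, hb⟩, ?_⟩⟩
        rwa [Sym2.mk_isDiag_iff]
      · exact ⟨s(x 0, x 0), fun h => absurd h h1, fun h => absurd h h2⟩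
  choose ec hecA hec using hec0
  -- filling
  have hT0len : ∀ l' : List (Sym2 V), l'.length + 1 = k → (pE x 0 k ++ l').length + 1 = 2 * k := by
    intro l' hl'
    rw [List.length_append, pE_length]
    omega
  have hloop : ∀ q < 2 * k + 2, ¬(s(x q, x (q + 1))).IsDiag := by
    intro q hq
    rw [Sym2.mk_isDiag_iff]
    intro e
    have := hx _ (by omega) _ (by omega) e
    omega
  have hT0 : T0 x k ∈ Sp {l : List (Sym2 V) | Sm (k + 1) l ∧ l.length + 3 = 2 * (k + 1)} := by
    refine Sp_mono ?_ (T0_mem x k)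
    rintro l ⟨l', h1, h2, rfl⟩
    refine ⟨⟨?_, ?_⟩, by have := hT0len l' h2; omega⟩
    · intro e he
      rcases List.mem_append.1 he with h | h
      · obtain ⟨q, hq, rfl⟩ := mem_pE.1 h
        exact hloop _ (by omega)
      · obtain ⟨q, hq, rfl⟩ := mem_pE.1 (h1.subset h)
        exact hloop _ (by omega)
    · obtain ⟨i, hi, hi'⟩ := exists_missing hx (by omega) h1 h2
      refine ⟨Setoid.ker (lab x k i), fun a b hab => lab_edge hx hi h1 hi' hab, fun v => ?_⟩
      by_contra hc
      push Not at hc
      have h3 : k + 1 ≤ {u | Setoid.ker (lab x k i) v u}.ncard := by omega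
      obtain ⟨X, hXs, hX⟩ := Set.exists_subset_card_eq h3
      have h4 := lab_const hx hV hk hi (X := X.toFinset) (c := lab x k i v)
        (by rw [← Set.ncard_eq_toFinset_card', hX]) (fun u hu => by
          rw [Set.mem_toFinset] at hu
          exact (hXs hu).symm)
      -- the class is `A0`
      have h5 : {u | Setoid.ker (lab x k i) v u} ⊆ (A0 : Set V) := by
        intro u hu
        have h6 : lab x k i v = 0 := by
          have h7 : x 0 ∈ X.toFinset := by
            rw [h4, hmemA 0 (by omega)]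
            omega
          rw [Set.mem_toFinset] at h7
          have h8 : lab x k i v = lab x k i (x 0) := hXs h7
          rw [h8, lab_zero (by omega)]
        have h9 : lab x k i v = lab x k i u := hu
        obtain ⟨q, hq, rfl⟩ := lab_zero_iff.1 (h9.symm.trans h6)
        exact (hmemA q (by omega)).2 hq
      have h6 := Set.ncard_le_ncard h5 (Set.toFinite _)
      rw [Set.ncard_coe_finset, hA0card] at h6
      omega
  have hc : N • T0 x k - C ∈
      Sp {l : List (Sym2 V) | Sm (k + 1) l ∧ l.length + 3 = 2 * (k + 1)} := by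
    refine Submodule.sub_mem _ (Submodule.smul_mem _ _ hT0) (Sp_mono ?_ hC)
    rintro l ⟨h1, h2⟩
    exact ⟨Sm_mono (by omega) h1, by omega⟩
  obtain ⟨D, hD, hDc⟩ := fill (by omega) (by rw [hV]; ring) hc
    (by rw [map_sub, map_smul, h, sub_self])
  have hcore := core hp hkp (by rw [hV]; ring) hrt (ec := ec) (fun X hX => hec X hX) hD
  rw [hDc] at hcore
  -- the chain `C` contributes nothing
  have hC0 : ∀ X ∈ powersetCard (k + 1) (univ : Finset V), ∀ φ,
      PP (Fh (rt X) X φ) (Jv C) = 0 := by
    intro X hX φ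
    refine Sp_congr (PP (Fh (rt X) X φ) ∘ₗ Jv) 0 ?_ hC
    rintro l ⟨⟨_, s, hs1, hs2⟩, _⟩
    rw [LinearMap.comp_apply, Jv_word, LinearMap.zero_apply]
    refine conn_Fh (s := s) (fun a b hab => hs1 a b (mem_Jv_word.1 hab)) ?_ φ
    intro hall
    have h3 : (X : Set V) ⊆ {u | s (rt X) u} := fun u hu => hall u hu
    have h4 := Set.ncard_le_ncard h3 (Set.toFinite _)
    rw [Set.ncard_coe_finset, (mem_powersetCard.1 hX).2] at h4
    have := hs2 (rt X)
    omega
  -- the other sets contribute nothing
  have hT00 : ∀ X ∈ powersetCard (k + 1) (univ : Finset V), X ≠ A0 → ∀ φ,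
      PP (Fh (rt X) X φ) (Jv (T0 x k)) = 0 := by
    intro X hX hXA φ
    refine Sp_congr (PP (Fh (rt X) X φ) ∘ₗ Jv) 0 ?_ (T0_mem x k)
    rintro l ⟨l', h1, h2, rfl⟩
    rw [LinearMap.comp_apply, Jv_word, LinearMap.zero_apply]
    obtain ⟨i, hi, hi'⟩ := exists_missing hx (by omega) h1 h2
    refine conn_Fh (s := Setoid.ker (lab x k i))
      (fun a b hab => lab_edge hx hi h1 hi' (mem_Jv_word.1 hab)) ?_ φ
    intro hall
    exact hXA (lab_const hx hV hk hi (mem_powersetCard.1 hX).2 (c := lab x k i (rt X))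
      fun u hu => (hall u hu).symm)
  have hA0mem : A0 ∈ powersetCard (k + 1) (univ : Finset V) :=
    mem_powersetCard.2 ⟨subset_univ _, hA0card⟩
  have hsum : ∑ X ∈ powersetCard (k + 1) (univ : Finset V),
      PP (Fh (rt X) X (Dm (Sum.inl (ec X)) (NN rt Xᶜ))) (Jv (N • T0 x k - C)) =
      N * PP (Fh (x 0) A0 (Dm (Sum.inl s(x (k + 1), x (k + 1 + 1))) (NN rt A0ᶜ)))
        (Jv (T0 x k)) := by
    rw [sum_eq_single A0]
    · rw [map_sub, map_sub, hC0 A0 hA0mem, sub_zero, map_smul, map_smul, hrtA, hecA A0 rfl]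
      rfl
    · intro X hX hXA
      rw [map_sub, map_sub, hC0 X hX, sub_zero, map_smul, map_smul, hT00 X hX hXA, smul_zero]
    · intro h
      exact absurd hA0mem h
  rw [hsum] at hcore
  -- the value at `A0`
  set e : Sym2 V := s(x (k + 1), x (k + 1 + 1)) with he
  have hx0A : x 0 ∈ A0 := (hmemA 0 (by omega)).2 (by omega)
  have hval1 : PP (Fh (x 0) A0 (Dm (Sum.inl e) (NN rt A0ᶜ))) (Jv (T0 x k)) =
      -PP (Fh (x 0) A0 (NN rt A0ᶜ)) (ins (Sum.inl e) (Jv (T0 x k))) := by
    have h1 : Dm (Sum.inl e) * Fh (x 0) A0 = -(Fh (x 0) A0 * Dm (Sum.inl e)) := by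
      refine Dm_Fh hx0A ?_
      rw [hmemA _ (by omega)]
      omega
    have h2 : Fh (x 0) A0 * Dm (Sum.inl e) = -(Dm (Sum.inl e) * Fh (x 0) A0) := by
      rw [h1, neg_neg]
    have h3 : Fh (x 0) A0 (Dm (Sum.inl e) (NN rt A0ᶜ)) =
        -(Dl (Sum.inl e) (Fh (x 0) A0 (NN rt A0ᶜ))) := LinearMap.congr_fun h2 _
    rw [h3, map_neg, LinearMap.neg_apply, PP_Dl]
  have hins : ins (Sum.inl e) (Jv (T0 x k)) =
      ((-1 : ℤ) ^ (2 * k + 3) * (-1) ^ k) • word (w0 x k) := by
    have h1 : Jv (ins e (T0 x k)) = (-1 : ℤ) ^ (2 * k + 3) • ins (Sum.inl e) (Jv (T0 x k)) := by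
      rw [Jv, LinearMap.comp_apply, LinearMap.comp_apply, mpE_ins, lm_ins, List.length_map,
        length_toList, card_univ, hV]
    have h2 : ins e (T0 x k) = (-1 : ℤ) ^ k • word (pE x 0 k ++ pE x (k + 1) k) := by
      have h3 := lm_ins (pE x 0 k) e (bdE (word (pE x (k + 1) k)))
      have h4 : ins e (bdE (word (pE x (k + 1) k))) = word (pE x (k + 1) k) := by
        have h5 := bdE_ins e (word (pE x (k + 1) k))
        rw [ins_word_mem (mem_pE.2 ⟨0, by omega, rfl⟩), map_zero] at h5
        exact (sub_eq_zero.1 h5.symm).symm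
      rw [h4, pE_length, lm_word] at h3
      rw [h3, smul_smul, ← mul_pow]
      norm_num
      rfl
    have h6 : (-1 : ℤ) ^ (2 * k + 3) • Jv (ins e (T0 x k)) = ins (Sum.inl e) (Jv (T0 x k)) := by
      rw [h1, smul_smul, ← mul_pow]
      norm_num
    rw [← h6, h2, map_smul, Jv_word, smul_smul]
    rfl
  have hx2 : x (2 * k + 2) ∈ A0ᶜ := by
    rw [mem_compl, hmemA _ le_rfl]
    omega
  have hval2 : PP (Fh (x 0) A0 (NN rt A0ᶜ)) (word (w0 x k)) =
      PP (Fh (x 0) A0 (iv (x (2 * k + 2)) (Fh (x (k + 1)) B0 one))) (word (w0 x k)) := by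
    rw [NN, map_sum, map_sum, LinearMap.sum_apply, sum_eq_single (x (2 * k + 2))]
    · rw [hcompl, hrtB]
    · intro y hy hyx
      set Y := A0ᶜ.erase y with hY
      have hYne : x (2 * k + 2) ∈ Y := mem_erase.2 ⟨hyx.symm, hx2⟩
      have h1 : Fh (x 0) A0 * (iv y * Fh (rt Y) Y) = Fh (rt Y) Y * (Fh (x 0) A0 * iv y) := by
        have h2 : iv y * Fh (rt Y) Y = -(Fh (rt Y) Y * iv y) := ins_Fh _ _ _
        rw [h2, mul_neg, ← mul_assoc, Fh_Fh, neg_mul, neg_neg, mul_assoc]
      have h2 : Fh (x 0) A0 (iv y (Fh (rt Y) Y one)) = Fh (rt Y) Y ((Fh (x 0) A0 * iv y) one) :=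
        LinearMap.congr_fun h1 one
      rw [h2]
      refine conn_Fh (s := Setoid.ker fun v => v = x (2 * k + 2)) ?_ ?_ _
      · intro a b hab
        rw [w0, mem_Jv_word] at hab
        show (a = x (2 * k + 2)) = (b = x (2 * k + 2))
        have h3 : ∃ q < 2 * k + 1, s(a, b) = s(x q, x (q + 1)) := by
          rcases List.mem_append.1 hab with h | h
          · obtain ⟨q, hq, e1⟩ := mem_pE.1 h
            exact ⟨0 + q, by omega, e1⟩
          · obtain ⟨q, hq, e1⟩ := mem_pE.1 h
            exact ⟨k + 1 + q, by omega, e1⟩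
        obtain ⟨q, hq, e1⟩ := h3
        have h4 : ∀ q' ≤ 2 * k + 1, ¬x q' = x (2 * k + 2) := by
          intro q' hq' e2
          have := hx _ (by omega) _ le_rfl e2
          omega
        apply propext
        rw [Sym2.eq_iff] at e1
        rcases e1 with ⟨rfl, rfl⟩ | ⟨rfl, rfl⟩
        · exact iff_of_false (h4 _ (by omega)) (h4 _ (by omega))
        · exact iff_of_false (h4 _ (by omega)) (h4 _ (by omega))
      · intro hall
        have h3 : (rt Y = x (2 * k + 2)) = (x (2 * k + 2) = x (2 * k + 2)) := hall _ hYne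
        have h4 : 1 < Y.card := by
          rw [hY, card_erase_of_mem hy, card_compl, hV, hA0card]
          omega
        obtain ⟨u, hu, hu'⟩ := exists_mem_ne h4 (x (2 * k + 2))
        have h5 : (rt Y = x (2 * k + 2)) = (u = x (2 * k + 2)) := hall u hu
        exact hu' (by rw [← h5, h3])
    · intro h
      exact absurd hx2 h
  have htop := eval_top hx hV
  rw [← hA0, ← hB0, ← hval2] at htop
  rw [hval1, hins, map_smul] at hcore
  set t := PP (Fh (x 0) A0 (NN rt A0ᶜ)) (word (w0 x k)) with ht
  have hu : (-(((-1 : ℤ) ^ (2 * k + 3) * (-1) ^ k) • t)) ^ 2 = 1 := by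
    rw [smul_eq_mul, neg_sq, mul_pow, htop, mul_one, mul_pow, ← pow_mul, ← pow_mul, mul_comm _ 2,
      mul_comm k 2, pow_mul, pow_mul]
    norm_num
  have h1 := Dvd.dvd.mul_right hcore (-(((-1 : ℤ) ^ (2 * k + 3) * (-1) ^ k) • t))
  rw [mul_assoc, ← sq, hu, mul_one] at h1
  exact h1

end

end Pool.Agent.KS6_98.Bdd
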