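import Pool.Agent.KS6_98.Bdd.Moves

/-!
# The classes up to permutations of the vertices
-/

set_option autoImplicit false

namespace Pool.Agent.KS6_98.Bdd

open Pool.Agent.KS6_98.Orb

section

variable {V : Type*} [Fintype V]

/-- the class of a first path with a further vertex in front -/
noncomputable def CW (k : ℕ) (W u : List V) : EE (Sym2 V) ⧸ Bd V k := Cw k W.tail u

/-- all vertices different, right lengths -/
def Gd (k : ℕ) (W u : List V) : Prop := W.length = k + 2 ∧ u.length = k + 1 ∧ (W ++ u).Nodup

omit [Fintype V] in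
theorem Gd.of {k : ℕ} {W u W' u' : List V} (h : Gd k W u) (hp : (W' ++ u').Perm (W ++ u))
    (hl : W'.length = W.length) : Gd k W' u' := by
  have h1 := hp.length_eq
  rw [List.length_append, List.length_append] at h1
  exact ⟨hl.trans h.1, by have := h.2.1; omega, hp.nodup_iff.2 h.2.2⟩

theorem eps_sq (k : ℕ) : ((-1 : ℤ) ^ k) * (-1) ^ k = 1 := by
  rw [← mul_pow]
  norm_num

theorem RA' {k : ℕ} (hk : 1 ≤ k) {l u : List V} {y : V} (h : Gd k (l ++ [y]) u) :
    CW k (l ++ [y]) u = (-1 : ℤ) ^ (k + 1) • CW k (y :: l) u := by
  obtain ⟨h1, h2, h3⟩ := h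
  cases l with
  | nil => simp at h1
  | cons a t =>
    refine RA hk ?_ h2 h3
    simp at h1
    omega

theorem RB' {k : ℕ} (hk : 1 ≤ k) {w u' : List V} {x y : V} (h : Gd k (x :: w) (u' ++ [y])) :
    CW k (x :: w) (u' ++ [y]) = (-1 : ℤ) ^ (k + 1) • CW k (y :: w) (x :: u') := by
  classical
  obtain ⟨h1, h2, h3⟩ := h
  refine RB hk (w := w) ?_ ?_ ?_
  · simp at h2
    omega
  · simp at h1
    omega
  · refine (List.Perm.nodup_iff ?_).2 h3
    rw [List.perm_iff_count]
    intro c
    simp only [List.count_append, List.count_cons, List.count_nil]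
    ring

theorem M3 {k : ℕ} (hk : 1 ≤ k) {w' u' : List V} {x a b : V}
    (h : Gd k (x :: a :: w') (b :: u')) :
    CW k (x :: a :: w') (b :: u') = CW k (a :: b :: w') (x :: u') := by
  classical
  have he := eps_sq (k + 1)
  have g1 : Gd k ((a :: w') ++ [x]) (b :: u') := by
    refine h.of ?_ (by simp)
    rw [List.perm_iff_count]
    intro c
    simp only [List.count_append, List.count_cons, List.count_nil]
    ring
  have g2 : Gd k (b :: (w' ++ [x])) (u' ++ [a]) := by
    refine h.of ?_ (by simp)
    rw [List.perm_iff_count]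
    intro c
    simp only [List.count_append, List.count_cons, List.count_nil]
    ring
  have g3 : Gd k (x :: b :: w') (u' ++ [a]) := by
    refine h.of ?_ (by simp)
    rw [List.perm_iff_count]
    intro c
    simp only [List.count_append, List.count_cons, List.count_nil]
    ring
  have e1 := RA' hk g1
  have e2 := RB' hk g2
  have e3 := RA' hk (l := b :: w') (y := x) g2
  have e4 := RB' hk g3
  have e1' : CW k (x :: a :: w') (b :: u') =
      (-1 : ℤ) ^ (k + 1) • CW k ((a :: w') ++ [x]) (b :: u') := by
    rw [e1, smul_smul, he, one_smul]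
  have e2' : CW k (a :: (w' ++ [x])) (b :: u') =
      (-1 : ℤ) ^ (k + 1) • CW k (b :: (w' ++ [x])) (u' ++ [a]) := by
    rw [e2, smul_smul, he, one_smul]
  have e3' : CW k (b :: (w' ++ [x])) (u' ++ [a]) =
      (-1 : ℤ) ^ (k + 1) • CW k (x :: b :: w') (u' ++ [a]) := e3
  rw [e1', List.cons_append, e2', e3', e4, smul_smul, smul_smul, smul_smul, he, one_mul, he,
    one_smul]

theorem rot {k : ℕ} (hk : 1 ≤ k) (p t : List V) {u : List V} (h : Gd k (p ++ t) u) :
    CW k (p ++ t) u = ((-1 : ℤ) ^ (k + 1)) ^ p.length • CW k (t ++ p) u := by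
  classical
  induction p generalizing t with
  | nil => rw [List.nil_append, List.append_nil, List.length_nil, pow_zero, one_smul]
  | cons y p ih =>
    have g1 : Gd k ((p ++ t) ++ [y]) u := by
      refine h.of ?_ (by simp; omega)
      rw [List.perm_iff_count]
      intro c
      simp only [List.count_append, List.count_cons, List.count_nil]
      ring
    have e1 := RA' hk g1
    have e2 : CW k (y :: (p ++ t)) u = (-1 : ℤ) ^ (k + 1) • CW k ((p ++ t) ++ [y]) u := by
      rw [e1, smul_smul, eps_sq, one_smul]
    have e3 : (p ++ t) ++ [y] = p ++ (t ++ [y]) := List.append_assoc _ _ _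
    rw [List.cons_append, e2, e3, ih (t ++ [y]) (e3 ▸ g1), smul_smul, List.length_cons,
      pow_succ' ((-1 : ℤ) ^ (k + 1)), List.append_assoc]
    rfl

theorem M3' {k : ℕ} (hk : 1 ≤ k) (p : List V) {q u' : List V} {x a b : V}
    (h : Gd k (p ++ x :: a :: q) (b :: u')) :
    CW k (p ++ x :: a :: q) (b :: u') = CW k (p ++ a :: b :: q) (x :: u') := by
  classical
  have g1 : Gd k (p ++ a :: b :: q) (x :: u') := by
    refine h.of ?_ (by simp)
    rw [List.perm_iff_count]
    intro c
    simp only [List.count_append, List.count_cons]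
    ring
  have g2 : Gd k (x :: a :: (q ++ p)) (b :: u') := by
    refine h.of ?_ (by simp; omega)
    rw [List.perm_iff_count]
    intro c
    simp only [List.count_append, List.count_cons]
    ring
  rw [rot hk p (x :: a :: q) h, rot hk p (a :: b :: q) g1]
  congr 1
  exact M3 hk g2

theorem Two {k : ℕ} (hk : 1 ≤ k) (p : List V) {q u : List V} {x a d : V}
    (h : Gd k (p ++ x :: a :: d :: q) u) :
    CW k (p ++ x :: a :: d :: q) u = CW k (p ++ a :: d :: x :: q) u := by
  classical
  cases u with
  | nil =>
    have := h.2.1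
    simp at this
  | cons b u' =>
    have g1 : Gd k ((p ++ [a]) ++ b :: d :: q) (x :: u') := by
      refine h.of ?_ (by simp)
      rw [List.perm_iff_count]
      intro c
      simp only [List.count_append, List.count_cons, List.count_nil]
      ring
    have e1 := M3' hk p h
    have e2 := M3' hk (p ++ [a]) g1
    rw [List.append_assoc, List.append_assoc] at e2
    exact e1.trans e2

/-- the class after exchange of the first two vertices -/
noncomputable def cs (k : ℕ) (W u : List V) : EE (Sym2 V) ⧸ Bd V k :=
  match W with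
  | a :: b :: r => CW k (b :: a :: r) u
  | _ => 0

theorem swap0 {k : ℕ} (hk : 1 ≤ k) (p : List V) {q u : List V} {a b : V}
    (h : Gd k (p ++ a :: b :: q) u) :
    CW k (p ++ b :: a :: q) u = cs k (p ++ a :: b :: q) u := by
  classical
  induction p using List.reverseRecOn generalizing a b q with
  | nil => rfl
  | append_singleton p c ih =>
    rw [List.append_assoc, List.append_assoc]
    rw [List.append_assoc] at h
    have g1 : Gd k (p ++ a :: c :: b :: q) u := by
      refine h.of ?_ (by simp)
      rw [List.perm_iff_count]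
      intro d
      simp only [List.count_append, List.count_cons, List.count_nil]
      ring
    have e1 := Two hk p g1
    have e2 := ih (a := c) (b := a) (q := b :: q) h
    show CW k (p ++ c :: b :: a :: q) u = cs k (p ++ c :: a :: b :: q) u
    rw [← e1, e2]

/-- the class, exchanged an odd or even number of times -/
noncomputable def cc (k n : ℕ) (W u : List V) : EE (Sym2 V) ⧸ Bd V k :=
  if n % 2 = 0 then CW k W u else cs k W u

theorem cc_swap {k n : ℕ} (hk : 1 ≤ k) (p : List V) {q u : List V} {a b : V}
    (h : Gd k (p ++ a :: b :: q) u) :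
    cc k n (p ++ b :: a :: q) u = cc k (n + 1) (p ++ a :: b :: q) u := by
  classical
  have g1 : Gd k (p ++ b :: a :: q) u := by
    refine h.of ?_ (by simp)
    rw [List.perm_iff_count]
    intro c
    simp only [List.count_append, List.count_cons]
    ring
  rw [cc, cc]
  by_cases hn : n % 2 = 0
  · rw [if_pos hn, if_neg (by omega)]
    exact swap0 hk p h
  · rw [if_neg hn, if_pos (by omega)]
    exact (swap0 hk p g1).symm

theorem cc_move {k n : ℕ} (hk : 1 ≤ k) (p s : List V) {q u : List V} {y : V}
    (h : Gd k (p ++ y :: (s ++ q)) u) :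
    cc k n (p ++ (s ++ y :: q)) u = cc k (n + s.length) (p ++ y :: (s ++ q)) u := by
  classical
  induction s generalizing p n with
  | nil => rfl
  | cons c s ih =>
    have g1 : Gd k ((p ++ [c]) ++ y :: (s ++ q)) u := by
      refine h.of ?_ (by simp)
      rw [List.perm_iff_count]
      intro d
      simp only [List.count_append, List.count_cons, List.count_nil]
      ring
    have e1 := ih (n := n) (p ++ [c]) g1
    rw [List.append_assoc, List.append_assoc] at e1
    have e2 := cc_swap (n := n + s.length) hk p (a := y) (b := c) (q := s ++ q) h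
    exact e1.trans e2

theorem cc_rev {k n : ℕ} (hk : 1 ≤ k) (p s : List V) {u : List V} (h : Gd k (p ++ s) u) :
    cc k n (p ++ s.reverse) u = cc k (n + s.length.choose 2) (p ++ s) u := by
  classical
  induction s generalizing p n with
  | nil => rfl
  | cons a s ih =>
    have g1 : Gd k (p ++ a :: (s.reverse ++ [])) u := by
      refine h.of ?_ (by simp)
      rw [List.perm_iff_count]
      intro d
      simp only [List.count_append, List.count_cons, List.count_nil, List.count_reverse]
      ring
    have g2 : Gd k ((p ++ [a]) ++ s) u := by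
      rw [List.append_assoc]
      exact h
    have e1 := cc_move (n := n) hk p s.reverse g1
    have e2 := ih (n := n + s.reverse.length) (p ++ [a]) g2
    rw [List.append_assoc, List.append_assoc] at e2
    rw [List.append_nil] at e1
    rw [List.reverse_cons, e1]
    refine e2.trans ?_
    rw [List.length_reverse, List.length_cons, Nat.choose_succ_succ, Nat.choose_one_right,
      add_assoc]
    rfl

/-! ### Even `k` -/

theorem cs_neg {k : ℕ} (hk : 1 ≤ k) (hke : Even k) {W u : List V} (h : Gd k W u) :
    cs k W u = -CW k W u := by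
  classical
  obtain ⟨a, W', rfl⟩ : ∃ a W', W = a :: W' := List.exists_cons_of_ne_nil (by
    rintro rfl
    have := h.1
    simp at this)
  obtain ⟨b, s, rfl⟩ : ∃ b s, W' = b :: s := List.exists_cons_of_ne_nil (by
    rintro rfl
    have := h.1
    simp at this)
  have hs : s.length = k := by
    have := h.1
    simp at this
    omega
  have g1 : Gd k ((a :: s) ++ [b]) u := by
    refine h.of ?_ (by simp)
    rw [List.perm_iff_count]
    intro d
    simp only [List.count_append, List.count_cons, List.count_nil]
    ring
  have g2 : Gd k ([a] ++ b :: (s ++ [])) u := by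
    rw [List.append_nil]
    exact h
  have e1 := RA' hk g1
  have e2 := cc_move (n := 0) hk [a] s g2
  rw [Nat.zero_add, hs, cc, cc, if_pos rfl, if_pos (Nat.even_iff.1 hke), List.append_nil] at e2
  have e3 : CW k ((a :: s) ++ [b]) u = CW k (a :: b :: s) u := e2
  rw [e3, hke.add_one.neg_one_pow, neg_one_smul] at e1
  show CW k (b :: a :: s) u = -CW k (a :: b :: s) u
  rw [e1, neg_neg]

theorem cc_sign {k n : ℕ} (hk : 1 ≤ k) (hke : Even k) {W u : List V} (h : Gd k W u) :
    cc k n W u = (-1 : ℤ) ^ n • CW k W u := by
  rw [cc]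
  by_cases hn : n % 2 = 0
  · rw [if_pos hn, (Nat.even_iff.2 hn).neg_one_pow, one_smul]
  · rw [if_neg hn, (Nat.odd_iff.2 (by omega)).neg_one_pow, neg_one_smul, cs_neg hk hke h]

/-- moving a vertex -/
theorem move {k : ℕ} (hk : 1 ≤ k) (hke : Even k) {x v : V} (p q : List V) {u : List V}
    (h : Gd k (x :: v :: (p ++ q)) u) :
    Cw k (p ++ v :: q) u = (-1 : ℤ) ^ p.length • Cw k (v :: (p ++ q)) u := by
  have e1 := cc_move (n := 0) hk [x] p (y := v) (q := q) h
  rw [Nat.zero_add, cc, if_pos rfl] at e1
  have e2 := cc_sign (n := p.length) hk hke h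
  exact e1.trans e2

/-! ### The case `k ≡ 3` modulo `4` -/

omit [Fintype V] in
theorem pth_reverse (l : List V) : pth l.reverse = (pth l).reverse := by
  induction l with
  | nil => rfl
  | cons a l ih =>
    cases l with
    | nil => rfl
    | cons b l =>
      have h1 := pth_snoc l.reverse b a
      have h2 : pth (l.reverse ++ [b]) = (pth (b :: l)).reverse := by
        rw [← List.reverse_cons]
        exact ih
      have h3 : (a :: b :: l).reverse = l.reverse ++ [b, a] := by simp
      rw [h3, h1, h2, pth_cons, List.reverse_cons, Sym2.eq_swap]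

theorem lm_reverse {α : Type*} (l : List α) (y : EE α) :
    lm l.reverse y = (-1 : ℤ) ^ (l.length.choose 2) • lm l y := by
  induction l generalizing y with
  | nil =>
    rw [List.length_nil, Nat.choose_zero_succ, pow_zero, one_smul]
    rfl
  | cons a l ih =>
    have h1 : lm [a] y = ins a y := rfl
    rw [List.reverse_cons, lm_append, h1, ih, lm_ins, smul_smul, List.length_cons,
      Nat.choose_succ_succ, Nat.choose_one_right, pow_add, mul_comm, lm_cons]

theorem two_torsion {k : ℕ} (hk : k % 4 = 3) {x : V} {w u : List V} (h : Gd k (x :: w) u) :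
    (2 : ℤ) • Cw k w u = 0 := by
  have hk1 : 1 ≤ k := by omega
  obtain ⟨t, rfl⟩ : ∃ t, k = 4 * t + 3 := ⟨k / 4, by omega⟩
  have hw : w.length = 4 * t + 3 + 1 := by
    have := h.1
    simp at this
    omega
  have hpl : (pth w).length = 4 * t + 3 := by
    have hne : w ≠ [] := by
      rintro rfl
      simp at hw
    have := pth_length' hne
    omega
  have hc1 : (4 * t + 3).choose 2 = (4 * t + 3) * (2 * t + 1) := by
    rw [Nat.choose_two_right]
    have : (4 * t + 3) * (4 * t + 3 - 1) = ((4 * t + 3) * (2 * t + 1)) * 2 := by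
      rw [show 4 * t + 3 - 1 = 2 * (2 * t + 1) by omega]
      ring
    rw [this, Nat.mul_div_cancel _ (by norm_num)]
  have hc2 : (4 * t + 3 + 1).choose 2 = 2 * ((t + 1) * (4 * t + 3)) := by
    rw [Nat.choose_succ_succ, Nat.choose_one_right, hc1]
    ring
  have e1 : Cw (4 * t + 3) w.reverse u = -Cw (4 * t + 3) w u := by
    rw [Cw, pth_reverse, lm_reverse, map_smul, map_smul, hpl, hc1]
    have : Odd ((4 * t + 3) * (2 * t + 1)) := Odd.mul ⟨2 * t + 1, by ring⟩ ⟨t, rfl⟩
    rw [this.neg_one_pow, neg_one_smul]
    rfl
  have e2 := cc_rev (n := 0) hk1 [x] w h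
  rw [Nat.zero_add, hw, hc2, cc, cc, if_pos rfl, if_pos (by omega)] at e2
  have e3 : Cw (4 * t + 3) w.reverse u = Cw (4 * t + 3) w u := e2
  rw [two_smul]
  nth_rewrite 1 [← e3]
  rw [e1]
  abel

/-! ### The relation of a triangle -/

omit [Fintype V] in
theorem in_edge {Q : List (List V)} {P : List V} (hP : P ∈ Q) {a b : V} (ha : a ∈ P) (hb : b ∈ P)
    (hab : a ≠ b) {e : Sym2 V} (he : e = s(a, b)) :
    ∃ P ∈ Q, ∃ a b, e = s(a, b) ∧ a ≠ b ∧ a ∈ P ∧ b ∈ P := ⟨P, hP, a, b, he, hab, ha, hb⟩

omit [Fintype V] in
theorem in_pth {Q : List (List V)} {P P' : List V} (hP : P ∈ Q) (hsub : P'.Sublist P)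
    (hnd : P.Nodup) {e : Sym2 V} (he : e ∈ pth P') :
    ∃ P ∈ Q, ∃ a b, e = s(a, b) ∧ a ≠ b ∧ a ∈ P ∧ b ∈ P := by
  obtain ⟨a, b, h1, h2, h3, h4⟩ := mem_pth (hnd.sublist hsub) he
  exact ⟨P, hP, a, b, h1, h2, hsub.subset h3, hsub.subset h4⟩

/-- the class of a path with a pendant edge -/
noncomputable def tt (k : ℕ) (w : List V) (v a : V) (u : List V) : EE (Sym2 V) ⧸ Bd V k :=
  qB k (bdE (lm (pth w) (ins s(v, a) (gam u))))

theorem tri {k : ℕ} (hk : 1 ≤ k) {p q u : List V} {a b v : V}
    (hlen : p.length + q.length + 2 = k) (hu : u.length = k + 1)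
    (hnd : (p ++ a :: v :: b :: q ++ u).Nodup) :
    Cw k (p ++ a :: v :: b :: q) u =
      (-1 : ℤ) ^ q.length • (tt k (p ++ a :: b :: q) v b u - tt k (p ++ a :: b :: q) v a u) := by
  classical
  have hnd' : (p ++ (a :: v :: b :: q ++ u)).Nodup := by
    rw [← List.append_assoc]
    exact hnd
  have hav : a ≠ v ∧ a ≠ b ∧ v ≠ b := by
    have h := (List.nodup_append.1 hnd').2.1
    simp only [List.cons_append, List.nodup_cons, List.mem_cons, List.mem_append] at h
    tauto
  obtain ⟨hav, hab, hvb⟩ := hav
  set P := pth (p ++ [a]) with hP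
  set Q := pth (b :: q) with hQ
  have hPlen : P.length = p.length := by
    have := pth_length' (l := p ++ [a]) (by simp)
    rw [List.length_append, List.length_singleton, ← hP] at this
    omega
  have hQlen : Q.length = q.length := pth_length b q
  set y := lm Q (gam u) with hy
  have hy' : bdE y = mulE (gam u) (bdE (word Q)) := by
    rw [hy, bdE_lm, bdE_gam, map_zero, smul_zero, add_zero]
  set e := s(a, b) with he
  set f := s(v, a) with hf
  set g := s(v, b) with hg
  have h0 : bdE (ins e (ins f (ins g y))) = ins f (ins g y) - ins e (ins g y) +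
      ins e (ins f y) - ins e (ins f (ins g (mulE (gam u) (bdE (word Q))))) := by
    rw [bdE_ins, bdE_ins, bdE_ins, hy']
    simp only [map_sub]
    abel
  have h1 := congrArg bdE (bdE_lm P (ins e (ins f (ins g y))))
  rw [bdE_bdE, h0] at h1
  simp only [map_add, map_sub, map_smul] at h1
  -- the first error term
  have m1 : qB k (bdE (mulE (ins e (ins f (ins g y))) (bdE (word P)))) = 0 := by
    refine qB_bdE ?_
    have hmem : ins e (ins f (ins g y)) ∈ Sp {l | ∃ lu ∈ S1 u, l = e :: f :: g :: (Q ++ lu)} := by
      have h2 : ins e (ins f (ins g y)) = lm (e :: f :: g :: Q) (gam u) := rfl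
      rw [h2]
      refine Sp_map (lm (e :: f :: g :: Q)) (fun l hl => ?_) (bd_pth u)
      rw [lm_word]
      exact Sp_word ⟨l, hl, rfl⟩
    refine mulE_mem ?_ (bd_pth (p ++ [a])) hmem
    rintro l₁ ⟨p1, p2, hp1, hp2, hpp, rfl⟩ l₂ ⟨lu, ⟨u1, u2, hu1, hu2, huu, rfl⟩, rfl⟩
    have e1 := List.length_pos_iff.2 hp1
    have e2 := List.length_pos_iff.2 hp2
    have e3 := List.length_pos_iff.2 hu1
    have e4 := List.length_pos_iff.2 hu2
    have e5 : p1.length + p2.length = p.length + 1 := by
      rw [← List.length_append, ← hpp]
      simp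
    have e6 : u1.length + u2.length = k + 1 := by rw [← List.length_append, ← huu, hu]
    have ha2 : a ∈ p2 := by
      obtain ⟨q', c', rfl⟩ : ∃ t1 c, p2 = t1 ++ [c] :=
        ⟨p2.dropLast, p2.getLast hp2, (List.dropLast_append_getLast hp2).symm⟩
      rw [← List.append_assoc] at hpp
      have := (List.append_inj' hpp rfl).2
      rw [List.cons.injEq] at this
      rw [this.1]
      simp
    have hndf : ([p1, p2 ++ (v :: b :: q), u1, u2] : List (List V)).flatten.Nodup := by
      refine (List.Perm.nodup_iff ?_).2 hnd
      have e7 : p ++ a :: v :: b :: q ++ u = (p ++ [a]) ++ (v :: b :: q ++ u) := by simp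
      rw [e7, hpp, huu]
      simp
    constructor
    · refine Sm_pieces [p1, p2 ++ (v :: b :: q), u1, u2] hndf ?_ hk ?_
      · intro P' hP'
        simp only [List.mem_cons, List.not_mem_nil, or_false] at hP'
        rcases hP' with rfl | rfl | rfl | rfl
        · omega
        · simp only [List.length_append, List.length_cons]
          omega
        · omega
        · omega
      · have hndP : (p2 ++ (v :: b :: q)).Nodup := (List.nodup_flatten.1 hndf).1 _ (by simp)
        have hin : p2 ++ (v :: b :: q) ∈ ([p1, p2 ++ (v :: b :: q), u1, u2] : List (List V)) := by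
          simp
        intro e' he'
        simp only [List.mem_append, List.mem_cons] at he'
        rcases he' with (he' | he') | he' | he' | he' | he' | he' | he'
        · exact pieces_pth hndf (by simp) he'
        · exact in_pth hin (List.sublist_append_left _ _) hndP he'
        · exact in_edge hin (by simp [ha2]) (by simp) hab he'
        · exact in_edge hin (by simp) (by simp [ha2]) hav.symm he'
        · exact in_edge hin (by simp) (by simp) hvb he'
        · exact in_pth hin ((List.sublist_cons_self v (b :: q)).trans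
            (List.sublist_append_right _ _)) hndP he'
        · exact pieces_pth hndf (by simp) he'
        · exact pieces_pth hndf (by simp) he'
    · have e7 := pth_length' hp1
      have e8 := pth_length' hp2
      have e9 := pth_length' hu1
      have e10 := pth_length' hu2
      simp only [List.length_append, List.length_cons, hQlen]
      omega
  -- the second error term
  have m2 : qB k (bdE (lm P (ins e (ins f (ins g (mulE (gam u) (bdE (word Q)))))))) = 0 := by
    refine qB_bdE ?_
    have hmem : mulE (gam u) (bdE (word Q)) ∈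
        Sp {l | ∃ l₁ ∈ S1 (b :: q), ∃ l₂ ∈ S1 u, l = l₁ ++ l₂} := by
      refine mulE_mem ?_ (bd_pth (b :: q)) (bd_pth u)
      intro l₁ h₁ l₂ h₂
      exact ⟨l₁, h₁, l₂, h₂, rfl⟩
    refine Sp_map (lm P ∘ₗ ins e ∘ₗ ins f ∘ₗ ins g) ?_ hmem
    rintro l ⟨l₁, ⟨q1, q2, hq1, hq2, hqq, rfl⟩, l₂, ⟨u1, u2, hu1, hu2, huu, rfl⟩, rfl⟩
    have e0 : (lm P ∘ₗ ins e ∘ₗ ins f ∘ₗ ins g) (word (pth q1 ++ pth q2 ++ (pth u1 ++ pth u2))) =
        word (P ++ e :: f :: g :: (pth q1 ++ pth q2 ++ (pth u1 ++ pth u2))) := by
      rw [word_append P (e :: f :: g :: (pth q1 ++ pth q2 ++ (pth u1 ++ pth u2))), word_cons e,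
        word_cons f, word_cons g]
      rfl
    rw [e0]
    refine Sp_word ?_
    have e1 := List.length_pos_iff.2 hq1
    have e2 := List.length_pos_iff.2 hq2
    have e3 := List.length_pos_iff.2 hu1
    have e4 := List.length_pos_iff.2 hu2
    have e5 : q1.length + q2.length = q.length + 1 := by
      rw [← List.length_append, ← hqq]
      simp
    have e6 : u1.length + u2.length = k + 1 := by rw [← List.length_append, ← huu, hu]
    have hb1 : b ∈ q1 := by
      obtain ⟨c, q', rfl⟩ := List.exists_cons_of_ne_nil hq1
      rw [List.cons_append, List.cons.injEq] at hqq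
      rw [hqq.1]
      simp
    have hndf : ([(p ++ [a]) ++ (v :: q1), q2, u1, u2] : List (List V)).flatten.Nodup := by
      refine (List.Perm.nodup_iff ?_).2 hnd
      rw [hqq, huu]
      simp
    constructor
    · refine Sm_pieces [(p ++ [a]) ++ (v :: q1), q2, u1, u2] hndf ?_ hk ?_
      · intro P' hP'
        simp only [List.mem_cons, List.not_mem_nil, or_false] at hP'
        rcases hP' with rfl | rfl | rfl | rfl
        · simp only [List.length_append, List.length_cons, List.length_nil]
          omega
        · omega
        · omega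
        · omega
      · have hndP : ((p ++ [a]) ++ (v :: q1)).Nodup := (List.nodup_flatten.1 hndf).1 _ (by simp)
        have hin : (p ++ [a]) ++ (v :: q1) ∈
            ([(p ++ [a]) ++ (v :: q1), q2, u1, u2] : List (List V)) := by simp
        intro e' he'
        simp only [List.mem_append, List.mem_cons] at he'
        rcases he' with he' | he' | he' | he' | (he' | he') | he' | he'
        · exact in_pth hin (List.sublist_append_left _ _) hndP he'
        · exact in_edge hin (by simp) (by simp [hb1]) hab he'
        · exact in_edge hin (by simp) (by simp) hav.symm he'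
        · exact in_edge hin (by simp) (by simp [hb1]) hvb he'
        · exact in_pth hin ((List.sublist_cons_self v q1).trans
            (List.sublist_append_right _ _)) hndP he'
        · exact pieces_pth hndf (by simp) he'
        · exact pieces_pth hndf (by simp) he'
        · exact pieces_pth hndf (by simp) he'
    · have e7 := pth_length' hq1
      have e8 := pth_length' hq2
      have e9 := pth_length' hu1
      have e10 := pth_length' hu2
      simp only [List.length_append, List.length_cons, hPlen]
      omega
  -- the main terms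
  have t1 : qB k (bdE (lm P (ins f (ins g y)))) = Cw k (p ++ a :: v :: b :: q) u := by
    have h2 : lm P (ins f (ins g y)) = lm (P ++ f :: g :: Q) (gam u) := by
      rw [lm_append]
      rfl
    rw [Cw, pth_append, pth_cons, h2, hf, Sym2.eq_swap]
  have t2 : ∀ c : V, qB k (bdE (lm P (ins e (ins s(v, c) y)))) =
      (-1 : ℤ) ^ q.length • tt k (p ++ a :: b :: q) v c u := by
    intro c
    have h2 := lm_ins Q s(v, c) (gam u)
    have h3 : ins s(v, c) y = (-1 : ℤ) ^ q.length • lm Q (ins s(v, c) (gam u)) := by
      rw [h2, smul_smul, hQlen, eps_sq, one_smul]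
    rw [h3, map_smul, map_smul, map_smul, map_smul, tt, pth_append, lm_append]
    rfl
  have h2 := congrArg (qB k) h1
  simp only [map_add, map_sub, map_smul, map_zero, m1, m2, zero_add, sub_zero] at h2
  have h3 := congrArg (fun z => (-1 : ℤ) ^ P.length • z) h2
  simp only [smul_zero, smul_smul, eps_sq, one_smul] at h3
  rw [t1, hg, t2 b, hf, t2 a] at h3
  rw [smul_sub]
  have h4 : Cw k (p ++ a :: v :: b :: q) u =
      (Cw k (p ++ a :: v :: b :: q) u - (-1 : ℤ) ^ q.length • tt k (p ++ a :: b :: q) v b u +
        (-1 : ℤ) ^ q.length • tt k (p ++ a :: b :: q) v a u) +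
      ((-1 : ℤ) ^ q.length • tt k (p ++ a :: b :: q) v b u -
        (-1 : ℤ) ^ q.length • tt k (p ++ a :: b :: q) v a u) := by abel
  rw [h4, ← h3, zero_add]

/-- The class has finite order for even `k`. -/
theorem odd_torsion {k : ℕ} (hk : 1 ≤ k) (hke : Even k) {x v : V} {w u : List V}
    (h : Gd k (x :: v :: w) u) : ((k : ℤ) + 1) • Cw k (v :: w) u = 0 := by
  classical
  have hwlen : w.length = k := by
    have := h.1
    simp at this
    omega
  have hu := h.2.1
  have hnd0 := h.2.2
  have claim : ∀ (p q : List V) (a : V), w = p ++ a :: q →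
      tt k w v a u = -(((p.length : ℤ) + 1) • Cw k (v :: w) u) := by
    intro p
    induction p using List.reverseRecOn with
    | nil =>
      intro q a hw
      rw [List.nil_append] at hw
      have h1 := lm_ins (pth w) s(v, a) (gam u)
      have h2 : (pth w).length = k - 1 := by
        rw [hw, pth_length]
        rw [hw, List.length_cons] at hwlen
        omega
      have h3 : Odd (k - 1) := by
        obtain ⟨t, ht⟩ := hke
        exact ⟨t - 1, by omega⟩
      have h4 : ins s(v, a) (lm (pth w) (gam u)) = lm (pth (v :: w)) (gam u) := by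
        rw [hw]
        rfl
      rw [tt, h1, h2, h3.neg_one_pow, neg_one_smul, map_neg, map_neg, h4, List.length_nil]
      simp only [Nat.cast_zero, zero_add, one_smul]
      rfl
    | append_singleton p a' ih =>
      intro q a hw
      have hw' : w = p ++ a' :: (a :: q) := by rw [hw]; simp
      have h1 := ih (a :: q) a' hw'
      have hl : p.length + q.length + 2 = k := by
        rw [← hwlen, hw']
        simp only [List.length_append, List.length_cons]
        omega
      have h2 := tri (p := p) (q := q) (a := a') (b := a) (v := v) (u := u) hk hl hu (by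
        refine List.Nodup.sublist (List.sublist_cons_self x _) ?_
        refine (List.Perm.nodup_iff ?_).2 hnd0
        rw [hw', List.perm_iff_count]
        intro d
        simp only [List.count_append, List.count_cons]
        ring)
      have h3 := move hk hke (x := x) (v := v) (p ++ [a']) (a :: q) (u := u) (by
        have : p ++ [a'] ++ (a :: q) = w := by rw [hw]
        rw [this]
        exact h)
      have e1 : p ++ [a'] ++ v :: (a :: q) = p ++ a' :: v :: a :: q := by simp
      have e2 : p ++ [a'] ++ (a :: q) = w := by rw [hw]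
      rw [e1, e2] at h3
      rw [← hw'] at h2
      rw [h3] at h2
      have h4 : (-1 : ℤ) ^ q.length = (-1) ^ p.length := by
        have h5 : (-1 : ℤ) ^ (p.length + q.length) = 1 := by
          have : Even (p.length + q.length) := by
            obtain ⟨t, ht⟩ := hke
            exact ⟨t - 1, by omega⟩
          exact this.neg_one_pow
        have h6 : (-1 : ℤ) ^ p.length * (-1) ^ q.length = 1 := by rw [← pow_add, h5]
        calc (-1 : ℤ) ^ q.length = ((-1) ^ p.length * (-1) ^ p.length) * (-1) ^ q.length := by
              rw [eps_sq, one_mul]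
          _ = (-1) ^ p.length := by rw [mul_assoc, h6, mul_one]
      have h7 := congrArg (fun z => (-1 : ℤ) ^ p.length • z) h2
      simp only [smul_smul, h4, eps_sq, one_smul, List.length_append, List.length_singleton,
        pow_succ] at h7
      rw [← mul_assoc, eps_sq, one_mul, neg_one_smul] at h7
      have h8 : tt k w v a u = tt k w v a' u - Cw k (v :: w) u := by
        rw [sub_eq_add_neg, h7]
        abel
      rw [h8, h1, List.length_append, List.length_singleton]
      push_cast
      simp only [add_smul, one_smul]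
      abel
  have hwne : w ≠ [] := by
    rintro rfl
    simp at hwlen
    omega
  obtain ⟨p, a, hw⟩ : ∃ t1 c, w = t1 ++ [c] :=
    ⟨w.dropLast, w.getLast hwne, (List.dropLast_append_getLast hwne).symm⟩
  have h1 := claim p [] a hw
  have hpl : p.length + 1 = k := by
    rw [← hwlen, hw]
    simp
  have h2 : tt k w v a u = Cw k (w ++ [v]) u := by
    have e1 : pth (w ++ [v]) = pth w ++ [s(v, a)] := by
      rw [hw, List.append_assoc, Sym2.eq_swap]
      exact pth_snoc p a v
    rw [Cw, e1, lm_append]
    rfl
  have h3 := move hk hke (x := x) (v := v) w [] (u := u) (by rw [List.append_nil]; exact h)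
  rw [List.append_nil, hwlen, hke.neg_one_pow, one_smul] at h3
  rw [h2, h3] at h1
  have h4 : ((p.length : ℤ) + 1) = k := by exact_mod_cast hpl
  rw [h4] at h1
  rw [add_smul, one_smul]
  nth_rewrite 2 [h1]
  abel

end

end Pool.Agent.KS6_98.Bdd
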