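import Pool.Agent.KS6_98.Bdd.Base

/-!
# Weakly decreasing lists and reversal
-/

set_option autoImplicit false

namespace Pool.Agent.KS6_98.Bdd

open Pool.Agent.KS6_98.Orb Finsupp

section

variable {Q : Type*} [PartialOrder Q]

open Classical in
/-- keep the strictly decreasing lists -/
noncomputable def Nn : FL Q →ₗ[ℤ] FL Q :=
  Finsupp.linearCombination ℤ fun L => if L.Pairwise (· > ·) then single L 1 else 0

theorem Nn_pos {L : List Q} (h : L.Pairwise (· > ·)) : Nn (single L 1) = single L (1 : ℤ) := by
  rw [Nn, linearCombination_single, one_smul, if_pos h]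

theorem Nn_neg {L : List Q} (h : ¬L.Pairwise (· > ·)) : Nn (single L 1) = 0 := by
  rw [Nn, linearCombination_single, one_smul, if_neg h]

theorem Nn_consL {a : Q} {y : FL Q} (hy : y ∈ supported ℤ ℤ {L : List Q | ∀ s ∈ L, s < a}) :
    Nn (consL a y) = consL a (Nn y) := by
  refine supp_congr (Nn ∘ₗ consL a) (consL a ∘ₗ Nn) (fun L hL => ?_) hy
  rw [LinearMap.comp_apply, LinearMap.comp_apply, consL_single]
  by_cases h : L.Pairwise (· > ·)
  · rw [Nn_pos h, Nn_pos (List.pairwise_cons.2 ⟨fun s hs => hL s hs, h⟩), consL_single]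
  · rw [Nn_neg h, Nn_neg fun h' => h (List.pairwise_cons.1 h').2, map_zero]

theorem Nn_dup (a : Q) (y : FL Q) : Nn (consL a (consL a y)) = 0 := by
  refine supp_congr (S := Set.univ) (Nn ∘ₗ consL a ∘ₗ consL a) 0 (fun L _ => ?_)
    (by rw [Finsupp.supported_univ]; trivial)
  rw [LinearMap.comp_apply, LinearMap.comp_apply, consL_single, consL_single,
    LinearMap.zero_apply, Nn_neg]
  intro h
  exact lt_irrefl a ((List.pairwise_cons.1 h).1 a List.mem_cons_self)

theorem bdF_Nn {L : List Q} (h : L.Pairwise (· ≥ ·)) :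
    bdF (Nn (single L 1)) = Nn (bdF (single L 1)) := by
  induction L with
  | nil =>
    rw [Nn_pos List.Pairwise.nil]
    have : bdF (single ([] : List Q) (1 : ℤ)) = 0 := by rw [bdF_single]; rfl
    rw [this, map_zero]
  | cons a L ih =>
    rw [List.pairwise_cons] at h
    have ih' := ih h.2
    have e1 : (single (a :: L) (1 : ℤ) : FL Q) = consL a (single L 1) := by rw [consL_single]
    by_cases h1 : ∀ s ∈ L, s < a
    · have e2 : Nn (single (a :: L) (1 : ℤ)) = consL a (Nn (single L 1)) := by
        rw [e1, Nn_consL (Finsupp.single_mem_supported _ _ h1)]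
      have e3 : Nn (consL a (bdF (single L (1 : ℤ)))) = consL a (Nn (bdF (single L 1))) := by
        refine Nn_consL ?_
        rw [bdF_single]
        refine Finsupp.supported_mono ?_ (conL_supp _ L)
        rintro L' ⟨hs, _⟩ s hs'
        exact h1 s (hs.subset hs')
      rw [e2, bdF_consL, ih', e1, bdF_consL, map_sub, e3]
    · cases L with
      | nil => exact absurd (by simp) h1
      | cons b L =>
        have hab : a = b := by
          push Not at h1
          obtain ⟨s, hs, hsa⟩ := h1
          have h2 : s ≤ b := by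
            rcases List.mem_cons.1 hs with rfl | hs
            · exact le_rfl
            · exact (List.pairwise_cons.1 h.2).1 s hs
          have h3 : b ≤ a := h.1 b List.mem_cons_self
          rcases h3.lt_or_eq with h4 | h4
          · exact absurd (lt_of_le_of_lt h2 h4) hsa
          · exact h4.symm
        subst hab
        have e2 : (single (a :: a :: L) (1 : ℤ) : FL Q) = consL a (consL a (single L 1)) := by
          rw [consL_single, consL_single]
        rw [e2, Nn_dup, map_zero, bdF_consL, bdF_consL]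
        simp only [map_sub]
        rw [Nn_dup]
        abel

/-- reversal -/
noncomputable def rv : FL Q →ₗ[ℤ] FL Q := Finsupp.lmapDomain ℤ ℤ List.reverse

omit [PartialOrder Q] in
theorem rv_single (L : List Q) (c : ℤ) : rv (single L c) = single L.reverse c := by
  simp [rv]

/-- put an entry at the end -/
noncomputable def snL (a : Q) : FL Q →ₗ[ℤ] FL Q := Finsupp.lmapDomain ℤ ℤ (· ++ [a])

omit [PartialOrder Q] in
theorem snL_single (a : Q) (L : List Q) (c : ℤ) : snL a (single L c) = single (L ++ [a]) c := by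
  simp [snL]

omit [PartialOrder Q] in
theorem snL_consL (a b : Q) (y : FL Q) : snL a (consL b y) = consL b (snL a y) := by
  refine supp_congr (S := Set.univ) (snL a ∘ₗ consL b) (consL b ∘ₗ snL a) (fun L _ => ?_)
    (by rw [Finsupp.supported_univ]; trivial)
  rw [LinearMap.comp_apply, LinearMap.comp_apply, consL_single, snL_single, snL_single,
    consL_single]
  rfl

omit [PartialOrder Q] in
theorem rv_consL (a : Q) (y : FL Q) : rv (consL a y) = snL a (rv y) := by
  refine supp_congr (S := Set.univ) (rv ∘ₗ consL a) (snL a ∘ₗ rv) (fun L _ => ?_)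
    (by rw [Finsupp.supported_univ]; trivial)
  rw [LinearMap.comp_apply, LinearMap.comp_apply, consL_single, rv_single, rv_single, snL_single,
    List.reverse_cons]

omit [PartialOrder Q] in
theorem bdF_append (L : List Q) (a : Q) : bdF (single (L ++ [a]) (1 : ℤ)) =
    snL a (bdF (single L 1)) + (-1 : ℤ) ^ L.length • single L 1 := by
  induction L with
  | nil =>
    rw [bdF_single, bdF_single]
    simp [conL]
  | cons b L ih =>
    have e1 : (single (b :: (L ++ [a])) (1 : ℤ) : FL Q) = consL b (single (L ++ [a]) 1) := by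
      rw [consL_single]
    have e2 : (single (b :: L) (1 : ℤ) : FL Q) = consL b (single L 1) := by rw [consL_single]
    rw [List.cons_append, e1, bdF_consL, ih, e2, bdF_consL, map_sub, snL_single, snL_consL, map_add,
      map_smul, List.length_cons, pow_succ, mul_neg_one, neg_smul]
    abel

omit [PartialOrder Q] in
theorem bdF_rv (L : List Q) : bdF (rv (single L (1 : ℤ))) =
    (-1 : ℤ) ^ (L.length + 1) • rv (bdF (single L 1)) := by
  induction L with
  | nil =>
    rw [rv_single]
    have : bdF (single ([] : List Q) (1 : ℤ)) = 0 := by rw [bdF_single]; rfl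
    rw [List.reverse_nil, this, map_zero, smul_zero]
  | cons a L ih =>
    have e2 : (single (a :: L) (1 : ℤ) : FL Q) = consL a (single L 1) := by rw [consL_single]
    rw [rv_single] at ih
    rw [rv_single, List.reverse_cons, bdF_append, ih, e2, bdF_consL, map_sub, rv_consL, rv_single,
      map_smul, List.length_reverse, List.length_cons, pow_succ _ (L.length + 1), pow_succ,
      smul_sub]
    simp only [mul_neg_one, neg_neg, neg_smul]
    abel

/-- from weakly decreasing lists to increasing lists -/
noncomputable def Nr : FL Q →ₗ[ℤ] FL Q := rv ∘ₗ Nn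

theorem bdF_Nr {k : ℕ} {y : FL Q} (hy : y ∈ supported ℤ ℤ {L : List Q | L.length = k ∧
    L.Pairwise (· ≥ ·)}) : bdF (Nr y) = (-1 : ℤ) ^ (k + 1) • Nr (bdF y) := by
  have key : ∀ L ∈ {L : List Q | L.length = k ∧ L.Pairwise (· ≥ ·)},
      (bdF ∘ₗ Nr) (single L 1) = ((-1 : ℤ) ^ (k + 1) • (Nr ∘ₗ bdF)) (single L 1) := ?_
  · have h := supp_congr (bdF ∘ₗ Nr) ((-1 : ℤ) ^ (k + 1) • (Nr ∘ₗ bdF)) key hy
    rw [LinearMap.comp_apply, LinearMap.smul_apply, LinearMap.comp_apply] at h
    exact h
  rintro L ⟨rfl, hL⟩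
  rw [LinearMap.comp_apply, LinearMap.smul_apply, LinearMap.comp_apply, Nr, LinearMap.comp_apply,
    LinearMap.comp_apply, ← bdF_Nn hL]
  by_cases h : L.Pairwise (· > ·)
  · rw [Nn_pos h, bdF_rv]
  · rw [Nn_neg h, map_zero, map_zero, map_zero, smul_zero]

theorem Nr_supp {p : Q → Prop} {k : ℕ} {y : FL Q} (hy : y ∈ supported ℤ ℤ {L : List Q |
    L.length = k ∧ L.Pairwise (· ≥ ·) ∧ ∀ s ∈ L, p s}) :
    Nr y ∈ supported ℤ ℤ {L : List Q | L.length = k ∧ L.Pairwise (· < ·) ∧ ∀ s ∈ L, p s} := by
  have key : ∀ L ∈ {L : List Q | L.length = k ∧ L.Pairwise (· ≥ ·) ∧ ∀ s ∈ L, p s},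
      Nr (single L 1) ∈ supported ℤ ℤ
        {L : List Q | L.length = k ∧ L.Pairwise (· < ·) ∧ ∀ s ∈ L, p s} := ?_
  · exact supp_ind Nr (supported ℤ ℤ
      {L : List Q | L.length = k ∧ L.Pairwise (· < ·) ∧ ∀ s ∈ L, p s}) key hy
  rintro L ⟨h1, h2, h3⟩
  rw [Nr, LinearMap.comp_apply]
  by_cases h : L.Pairwise (· > ·)
  · rw [Nn_pos h, rv_single]
    refine Finsupp.single_mem_supported _ _ ⟨by rw [List.length_reverse, h1], ?_, ?_⟩
    · rw [List.pairwise_reverse]
      exact h
    · intro s hs
      exact h3 s (List.mem_reverse.1 hs)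
  · rw [Nn_neg h, map_zero]
    exact Submodule.zero_mem _

theorem word_reverse {α : Type*} (l : List α) :
    word l.reverse = (-1 : ℤ) ^ (l.length.choose 2) • word l := by
  induction l with
  | nil =>
    rw [List.length_nil, Nat.choose_zero_succ, pow_zero, one_smul]
    rfl
  | cons a l ih =>
    have h1 : word (l.reverse ++ [a]) = (-1 : ℤ) ^ l.length • ins a (word l.reverse) := by
      rw [← lm_word, word_cons, lm_ins, List.length_reverse, lm_word, List.append_nil]
    rw [List.reverse_cons, h1, ih, map_smul, smul_smul, List.length_cons,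
      Nat.choose_succ_succ, Nat.choose_one_right, pow_add, word_cons]

/-- letters of a chain do not see the passage to increasing lists, up to sign -/
theorem mp_Nr {α : Type*} (T : Q → α) {k : ℕ} {y : FL Q} (hy : y ∈ supported ℤ ℤ {L : List Q |
    L.length = k ∧ L.Pairwise (· ≥ ·)}) :
    mkE (mp T (Nr y)) = (-1 : ℤ) ^ (k.choose 2) • mkE (mp T y) := by
  refine supp_congr (mkE ∘ₗ mp T ∘ₗ Nr) ((-1 : ℤ) ^ (k.choose 2) • (mkE ∘ₗ mp T)) ?_ hy
  rintro L ⟨rfl, hL⟩
  rw [LinearMap.comp_apply, LinearMap.comp_apply, LinearMap.smul_apply, LinearMap.comp_apply,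
    Nr, LinearMap.comp_apply, mp_single]
  by_cases h : L.Pairwise (· > ·)
  · rw [Nn_pos h, rv_single, mp_single]
    have h1 := word_reverse (L.map T)
    rw [← List.map_reverse, List.length_map] at h1
    exact h1
  · rw [Nn_neg h, map_zero, map_zero, map_zero]
    have h1 : ¬(L.map T).Nodup := by
      intro hnd
      apply h
      have h2 : L.Nodup := hnd.of_map
      rw [List.Nodup] at h2
      refine (hL.and h2).imp ?_
      rintro a b ⟨h3, h4⟩
      exact lt_of_le_of_ne h3 h4.symm
    have h2 : mkE (single (L.map T) (1 : ℤ)) = 0 := word_dup h1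
    rw [h2, smul_zero]

end

end Pool.Agent.KS6_98.Bdd
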