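import Pool.Agent.KS6_98.Bdd.Detect
import Pool.Agent.KS6_98.Bdd.Perms
import Pool.Agent.KS6_98.Bdd.Rev

/-!
# Elements of prime order in the homology of partitions with bounded block sizes
-/

set_option autoImplicit false

namespace Pool.Agent.KS6_98.Bdd

open Pool.Agent.KS6_98.Orb Finsupp

section

variable {V : Type}

theorem pth_range (x : ℕ → V) (a k : ℕ) :
    pth ((List.range (k + 1)).map fun i => x (a + i)) = pE x a k := by
  induction k with
  | zero => rfl
  | succ k ih =>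
    have h1 : ((List.range (k + 1 + 1)).map fun i => x (a + i)) =
        ((List.range k).map fun i => x (a + i)) ++ [x (a + k), x (a + k + 1)] := by
      rw [List.range_succ, List.range_succ]
      simp [add_assoc]
    have h2 : ((List.range (k + 1)).map fun i => x (a + i)) =
        ((List.range k).map fun i => x (a + i)) ++ [x (a + k)] := by
      rw [List.range_succ]
      simp
    have h3 : pE x a (k + 1) = pE x a k ++ [s(x (a + k), x (a + k + 1))] := by
      rw [pE, pE, List.range_succ]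
      simp
    rw [h1, pth_snoc, ← h2, ih, h3]

/-- the two vertex lists -/
def wl (x : ℕ → V) (a k : ℕ) : List V := (List.range (k + 1)).map fun i => x (a + i)

theorem wl_length (x : ℕ → V) (a k : ℕ) : (wl x a k).length = k + 1 := by simp [wl]

theorem wl_nodup {x : ℕ → V} {k : ℕ} (hx : Inj x (2 * k + 2)) :
    (wl x 0 k ++ wl x (k + 1) k).Nodup := by
  rw [List.nodup_append]
  refine ⟨?_, ?_, ?_⟩
  · rw [wl, List.nodup_map_iff_inj_on List.nodup_range]
    intro i hi j hj hij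
    rw [List.mem_range] at hi hj
    have := hx _ (by omega) _ (by omega) hij
    omega
  · rw [wl, List.nodup_map_iff_inj_on List.nodup_range]
    intro i hi j hj hij
    rw [List.mem_range] at hi hj
    have := hx _ (by omega) _ (by omega) hij
    omega
  · intro a ha b hb hab
    obtain ⟨i, hi, rfl⟩ := List.mem_map.1 ha
    obtain ⟨j, hj, rfl⟩ := List.mem_map.1 hb
    rw [List.mem_range] at hi hj
    have := hx _ (by omega) _ (by omega) hab
    omega

variable [Fintype V]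

theorem qB_T0 (x : ℕ → V) (k : ℕ) :
    qB k (bdE (T0 x k)) = Cw k (wl x 0 k) (wl x (k + 1) k) := by
  rw [Cw, gam, wl, wl, pth_range, pth_range]
  rfl

/-- the class has finite order -/
theorem tors {p j k : ℕ} (hp : p.Prime) (hk : 2 ≤ k) (hkp : k + 1 = p ^ j) {x : ℕ → V}
    (hx : Inj x (2 * k + 2)) : ((p ^ j : ℕ) : ℤ) • qB k (bdE (T0 x k)) = 0 := by
  have hG : Gd k (x (2 * k + 2) :: wl x 0 k) (wl x (k + 1) k) := by
    refine ⟨by simp [wl_length], wl_length _ _ _, ?_⟩
    rw [List.cons_append, List.nodup_cons]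
    refine ⟨?_, wl_nodup hx⟩
    rw [List.mem_append, wl, wl, List.mem_map, List.mem_map]
    rintro (⟨i, hi, h⟩ | ⟨i, hi, h⟩)
    · rw [List.mem_range] at hi
      have := hx _ (by omega) _ (by omega) h
      omega
    · rw [List.mem_range] at hi
      have := hx _ (by omega) _ (by omega) h
      omega
  rw [qB_T0]
  rcases hp.eq_two_or_odd' with rfl | hodd
  · have hj : 2 ≤ j := by
      by_contra hc
      have h1 : j = 0 ∨ j = 1 := by omega
      rcases h1 with rfl | rfl <;> omega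
    obtain ⟨i, rfl⟩ : ∃ i, j = i + 2 := ⟨j - 2, by omega⟩
    have h4 : k % 4 = 3 := by
      have : 2 ^ (i + 2) = 4 * 2 ^ i := by ring
      omega
    have h5 := two_torsion h4 hG
    have h6 : ((2 ^ (i + 2) : ℕ) : ℤ) = (2 ^ (i + 1) : ℤ) * 2 := by push_cast; ring
    rw [h6, mul_smul, h5, smul_zero]
  · have hke : Even k := by
      have h1 : Odd (k + 1) := by rw [hkp]; exact hodd.pow
      obtain ⟨t, ht⟩ := h1
      exact ⟨t, by omega⟩
    have h1 : wl x 0 k = x 0 :: (List.range k).map fun i => x (0 + (i + 1)) := by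
      rw [wl, List.range_succ_eq_map]
      simp [Function.comp_def]
    rw [h1] at hG ⊢
    have h2 := odd_torsion (by omega) hke hG
    have h3 : ((p ^ j : ℕ) : ℤ) = (k : ℤ) + 1 := by rw [← hkp]; push_cast; ring
    rw [h3]
    exact h2

/-- the proper partitions with small blocks -/
def PrP (k : ℕ) (s : Setoid V) : Prop := s ≠ ⊥ ∧ ∀ v, {u | s v u}.ncard ≤ k

theorem PrP_bs {k : ℕ} {l l₁ : List (Sym2 V)} (hl : Sm k l) (h : l₁.Sublist l) (hne : l₁ ≠ []) :
    PrP k (bs l₁) := by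
  have h1 := Sm_iff.1 (Sm_sublist h hl)
  refine ⟨fun hbot => ?_, h1.2⟩
  obtain ⟨e, l', rfl⟩ := List.exists_cons_of_ne_nil hne
  have h2 := h1.1 e List.mem_cons_self
  induction e with
  | h a b =>
    have h3 : bs (s(a, b) :: l') a b := bs_mem List.mem_cons_self
    rw [hbot] at h3
    rw [Sym2.mk_isDiag_iff] at h2
    exact h2 h3

/-- subdivision of words -/
noncomputable def SD (k : ℕ) : EE (Sym2 V) →ₗ[ℤ] FL (Setoid V) :=
  SdE bs (fun _ _ h => bs_perm h) k

theorem SD_supp {k L : ℕ} {y : EE (Sym2 V)}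
    (hy : y ∈ Sp {l : List (Sym2 V) | Sm k l ∧ l.length = L}) :
    SD L y ∈ supported ℤ ℤ {C : List (Setoid V) | C.length = L ∧ C.Pairwise (· ≥ ·) ∧
      ∀ s ∈ C, PrP k s} := by
  refine Sp_map (SD L) ?_ hy
  rintro l ⟨hl, hL⟩
  show SdE bs (fun _ _ h => bs_perm h) L (mkE (single l 1)) ∈ _
  rw [SdE_mkE]
  have h0 := SdF_supp bs (R := (· ≥ ·)) (A := PrP k) L l hL
    (fun l₁ l₂ h1 _ _ _ => fun {x y} hxy => bs_mono (fun e he => h1.subset he) hxy)
    (fun l₁ h1 h2 => PrP_bs hl h1 h2)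
  refine Finsupp.supported_mono ?_ h0
  rintro C ⟨h1, h2, h3⟩
  exact ⟨h1, h2, fun s hs => (h3 s hs).1⟩

theorem exists_top {Q : Type*} [PartialOrder Q] {L : List Q} (hL : L.Pairwise (· < ·))
    (hne : L ≠ []) : ∃ t ∈ L, ∀ s ∈ L, s ≤ t := by
  induction L with
  | nil => exact absurd rfl hne
  | cons a L ih =>
    rw [List.pairwise_cons] at hL
    by_cases h : L = []
    · subst h
      exact ⟨a, by simp, by simp⟩
    · obtain ⟨t, ht, h1⟩ := ih hL.2 h
      refine ⟨t, List.mem_cons_of_mem _ ht, fun s hs => ?_⟩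
      rcases List.mem_cons.1 hs with rfl | hs
      · exact (hL.1 t ht).le
      · exact h1 s hs

/-- the words of the cycle -/
theorem cyc_mem {x : ℕ → V} {k : ℕ} (hk : 1 ≤ k) (hx : Inj x (2 * k + 2)) :
    bdE (T0 x k) ∈ Sp {l : List (Sym2 V) | l.Sublist (pE x 0 k ++ pE x (k + 1) k) ∧ Sm k l ∧
      l.length + 2 = 2 * k} := by
  rw [T0, bdE_lm, bdE_bdE, map_zero, smul_zero, add_zero]
  refine mulE_mem ?_ (Dc_mem_Sp _ (pE x 0 k)) (Dc_mem_Sp _ (pE x (k + 1) k))
  rintro l₁ ⟨h1, h2⟩ l₂ ⟨h3, h4⟩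
  have h5 : l₁ ∈ S1 (wl x 0 k) := by
    refine pth_sub ?_ ?_
    · rw [wl, pth_range]; exact h1
    · rw [wl, pth_range]; exact h2
  have h6 : l₂ ∈ S1 (wl x (k + 1) k) := by
    refine pth_sub ?_ ?_
    · rw [wl, pth_range]; exact h3
    · rw [wl, pth_range]; exact h4
  rw [pE_length] at h2 h4
  refine ⟨h1.append h3, ?_, by rw [List.length_append]; omega⟩
  obtain ⟨p, q, hp, hq, hpq, rfl⟩ := h5
  obtain ⟨p', q', hp', hq', hpq', rfl⟩ := h6
  have e1 := List.length_pos_iff.2 hp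
  have e2 := List.length_pos_iff.2 hq
  have e3 := List.length_pos_iff.2 hp'
  have e4 := List.length_pos_iff.2 hq'
  have e5 : p.length + q.length = k + 1 := by
    rw [← List.length_append, ← hpq, wl_length]
  have e6 : p'.length + q'.length = k + 1 := by
    rw [← List.length_append, ← hpq', wl_length]
  have hnd := wl_nodup hx
  rw [hpq, hpq'] at hnd
  have hnd' : ([p, q, p', q'] : List (List V)).flatten.Nodup := by simpa using hnd
  refine Sm_pieces [p, q, p', q'] hnd' ?_ hk ?_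
  · intro P hP
    simp only [List.mem_cons, List.not_mem_nil, or_false] at hP
    rcases hP with rfl | rfl | rfl | rfl <;> omega
  · intro e he
    simp only [List.mem_append] at he
    rcases he with (he | he) | (he | he)
    · exact pieces_pth hnd' (by simp) he
    · exact pieces_pth hnd' (by simp) he
    · exact pieces_pth hnd' (by simp) he
    · exact pieces_pth hnd' (by simp) he

omit [Fintype V] in
/-- a path edge in the set partition of path edges is one of them -/
theorem path_closed {x : ℕ → V} {k : ℕ} (hx : Inj x (2 * k + 2)) {l : List (Sym2 V)}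
    (hl : ∀ e ∈ l, e ∈ pE x 0 k ++ pE x (k + 1) k) {e : Sym2 V}
    (he : e ∈ pE x 0 k ++ pE x (k + 1) k) (hin : ∀ a b, e = s(a, b) → bs l a b) : e ∈ l := by
  have hform : ∀ e ∈ pE x 0 k ++ pE x (k + 1) k, ∃ q < 2 * k + 1, e = s(x q, x (q + 1)) := by
    intro e he
    rcases List.mem_append.1 he with h | h
    · obtain ⟨q, hq, e1⟩ := mem_pE.1 h
      exact ⟨0 + q, by omega, e1⟩
    · obtain ⟨q, hq, e1⟩ := mem_pE.1 h
      exact ⟨k + 1 + q, by omega, e1⟩
  obtain ⟨q, hq, rfl⟩ := hform e he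
  by_contra hne
  have h1 := hin _ _ rfl
  have hq' : ∀ i ≤ 2 * k + 2, (∃ q' ≤ q, x i = x q') ↔ i ≤ q := by
    intro i hi
    constructor
    · rintro ⟨q', h2, h3⟩
      have := hx _ hi _ (by omega) h3
      omega
    · intro h
      exact ⟨i, h, rfl⟩
  have h2 : (Setoid.ker fun v => ∃ q' ≤ q, v = x q') (x q) (x (q + 1)) := by
    refine bs_le (fun a b hab => ?_) h1
    obtain ⟨r, hr, e1⟩ := hform _ (hl _ hab)
    have hrq : r ≠ q := by
      rintro rfl
      rw [e1] at hab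
      exact hne hab
    show (∃ q' ≤ q, a = x q') = (∃ q' ≤ q, b = x q')
    rw [Sym2.eq_iff] at e1
    rcases e1 with ⟨rfl, rfl⟩ | ⟨rfl, rfl⟩
    · rw [propext (hq' r (by omega)), propext (hq' (r + 1) (by omega))]
      apply propext
      omega
    · rw [propext (hq' r (by omega)), propext (hq' (r + 1) (by omega))]
      apply propext
      omega
  have h3 : (∃ q' ≤ q, x q = x q') = (∃ q' ≤ q, x (q + 1) = x q') := h2
  rw [propext (hq' q (by omega)), propext (hq' (q + 1) (by omega))] at h3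
  have h4 : q + 1 ≤ q := by rw [← h3]
  omega

open Classical in
/-- **Main theorem.** -/
theorem main {p j k i : ℕ} (hp : p.Prime) (hk : 2 ≤ k) (hkp : k + 1 = p ^ j) (hi : i + 3 = 2 * k)
    (hV : Fintype.card V = 2 * k + 3) {x : ℕ → V} (hx : Inj x (2 * k + 2)) :
    ElementOfOrder {s : Setoid V // PrP k s} i p := by
  set z := bdE (T0 x k) with hz
  set PE := pE x 0 k ++ pE x (k + 1) k with hPE
  -- a suitable multiple
  have hex : ∃ t : ℕ, ((p ^ t : ℕ) : ℤ) • qB k z = 0 := ⟨j, tors hp hk hkp hx⟩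
  have h0 : ¬((p ^ 0 : ℕ) : ℤ) • qB k z = 0 := by
    intro h
    rw [pow_zero, Nat.cast_one, one_smul] at h
    obtain ⟨C, hC, hCz⟩ := qB_eq_zero h
    have h1 := detect hp hkp (by omega) hV hx (N := 1) hC (by rw [hCz, one_smul])
    have h2 : (p : ℤ) ∣ 1 := h1
    have := Int.natCast_dvd_natCast.1 (by exact_mod_cast h2 : ((p : ℕ) : ℤ) ∣ ((1 : ℕ) : ℤ))
    exact hp.one_lt.ne' (Nat.dvd_one.1 this)
  obtain ⟨t, ht⟩ : ∃ t, Nat.find hex = t + 1 := by
    refine ⟨Nat.find hex - 1, ?_⟩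
    have : Nat.find hex ≠ 0 := by
      intro h
      have := Nat.find_spec hex
      rw [h] at this
      exact h0 this
    omega
  have ht1 : ((p ^ (t + 1) : ℕ) : ℤ) • qB k z = 0 := by
    rw [← ht]
    exact Nat.find_spec hex
  have ht2 : ¬((p ^ t : ℕ) : ℤ) • qB k z = 0 := Nat.find_min hex (by omega)
  set zt := ((p ^ t : ℕ) : ℤ) • z with hzt
  have hq1 : (p : ℤ) • qB k zt = 0 := by
    rw [hzt, map_smul, smul_smul]
    have : (p : ℤ) * ((p ^ t : ℕ) : ℤ) = ((p ^ (t + 1) : ℕ) : ℤ) := by push_cast; ring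
    rw [this]
    exact ht1
  have hq2 : qB k zt ≠ 0 := by
    rw [hzt, map_smul]
    exact ht2
  obtain ⟨Y, hY, hYz⟩ := qB_eq_zero (k := k) (Y := (p : ℤ) • zt) (by rw [map_smul]; exact hq1)
  have hzt0 : bdE zt = 0 := by rw [hzt, map_smul, hz, bdE_bdE, smul_zero]
  have hztm : zt ∈ Sp {l : List (Sym2 V) | l.Sublist PE ∧ Sm k l ∧ l.length + 2 = 2 * k} :=
    Submodule.smul_mem _ _ (cyc_mem (by omega) hx)
  have hztm' : zt ∈ Sp {l : List (Sym2 V) | Sm k l ∧ l.length = i + 1} := by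
    refine Sp_mono ?_ hztm
    rintro l ⟨_, h1, h2⟩
    exact ⟨h1, by omega⟩
  have hYm : Y ∈ Sp {l : List (Sym2 V) | Sm k l ∧ l.length = i + 2} := by
    refine Sp_mono ?_ hY
    rintro l ⟨h1, h2⟩
    exact ⟨h1, by omega⟩
  -- the letter of a set partition
  have hex2 : ∀ s : Setoid V, s ≠ ⊥ → ∃ e : Sym2 V, ¬e.IsDiag ∧ ∀ a b, e = s(a, b) → s a b := by
    intro s hs
    by_contra hc
    push Not at hc
    apply hs
    refine Setoid.ext fun a b => ⟨fun h => ?_, fun h => ?_⟩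
    · by_contra hab
      obtain ⟨a', b', e1, e2⟩ := hc s(a, b) (by rw [Sym2.mk_isDiag_iff]; exact hab)
      rw [Sym2.eq_iff] at e1
      rcases e1 with ⟨rfl, rfl⟩ | ⟨rfl, rfl⟩
      · exact e2 h
      · exact e2 (s.symm' h)
    · have : a = b := h
      rw [this]
  have hT : ∀ s : Setoid V, ∃ e : Sym2 V,
      ((∃ e' ∈ PE, ∀ a b, e' = s(a, b) → s a b) → e ∈ PE ∧ ∀ a b, e = s(a, b) → s a b) ∧
      (s ≠ ⊥ → ¬e.IsDiag ∧ ∀ a b, e = s(a, b) → s a b) := by
    intro s
    by_cases h1 : ∃ e' ∈ PE, ∀ a b, e' = s(a, b) → s a b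
    · obtain ⟨e', he', h2⟩ := h1
      refine ⟨e', fun _ => ⟨he', h2⟩, fun _ => ⟨?_, h2⟩⟩
      have h3 : ∃ q < 2 * k + 1, e' = s(x q, x (q + 1)) := by
        rcases List.mem_append.1 he' with h | h
        · obtain ⟨q, hq, e1⟩ := mem_pE.1 h
          exact ⟨0 + q, by omega, e1⟩
        · obtain ⟨q, hq, e1⟩ := mem_pE.1 h
          exact ⟨k + 1 + q, by omega, e1⟩
      obtain ⟨q, hq, rfl⟩ := h3
      rw [Sym2.mk_isDiag_iff]
      intro e
      have := hx _ (by omega) _ (by omega) e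
      omega
    · by_cases h2 : s = ⊥
      · exact ⟨s(x 0, x 0), fun h => absurd h h1, fun h => absurd h2 h⟩
      · obtain ⟨e, he⟩ := hex2 s h2
        exact ⟨e, fun h => absurd h h1, fun _ => he⟩
  choose T hT1 hT2 using hT
  have hTb : ∀ l₁ : List (Sym2 V), l₁.Sublist PE → l₁ ≠ [] → T (bs l₁) ∈ l₁ := by
    intro l₁ h1 h2
    obtain ⟨e, he⟩ := List.exists_mem_of_ne_nil l₁ h2
    have h3 := hT1 (bs l₁) ⟨e, h1.subset he, fun a b hab => bs_mem (hab ▸ he)⟩
    exact path_closed hx (fun e he => h1.subset he) h3.1 h3.2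
  have hmp : mkE (mp T (SD (i + 1) zt)) = zt := by
    refine Sp_congr (mkE ∘ₗ mp T ∘ₗ SD (i + 1)) LinearMap.id ?_ hztm
    rintro l ⟨h1, h2, h3⟩
    have h4 := mp_SdF bs T id (i + 1) l (by omega)
      (fun l₁ h5 h6 => ⟨T (bs l₁), hTb l₁ (h5.trans h1) h6, rfl⟩)
    rw [List.map_id] at h4
    exact h4
  have hs1 := SD_supp hztm'
  have hs2 := SD_supp hYm
  have hs1' : SD (i + 1) zt ∈ supported ℤ ℤ {C : List (Setoid V) | C.length = i + 1 ∧
      C.Pairwise (· ≥ ·)} := by
    refine Finsupp.supported_mono ?_ hs1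
    rintro C ⟨h1, h2, _⟩
    exact ⟨h1, h2⟩
  have hs2' : SD (i + 2) Y ∈ supported ℤ ℤ {C : List (Setoid V) | C.length = i + 2 ∧
      C.Pairwise (· ≥ ·)} := by
    refine Finsupp.supported_mono ?_ hs2
    rintro C ⟨h1, h2, _⟩
    exact ⟨h1, h2⟩
  have hbd : ∀ (L : ℕ) (y : EE (Sym2 V)), bdF (SD (L + 1) y) = SD L (bdE y) :=
    fun L y => bdF_SdE bs _ L y
  refine exists_order (PrP k) (i := i) (m := p) (Z := Nr (SD (i + 1) zt))
    (W := (-1 : ℤ) ^ (i + 3) • Nr (SD (i + 2) Y)) (Nr_supp hs1)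
    (Submodule.smul_mem _ _ (Nr_supp hs2)) ?_ ?_ ?_
  · rw [bdF_Nr hs1', hbd, hzt0, map_zero, map_zero, smul_zero]
  · rw [map_smul, bdF_Nr hs2', hbd, hYz, map_smul, map_smul, smul_smul, ← mul_pow]
    norm_num
  · intro N W hW hbdW
    have hE : mkE (mp T W) ∈ Sp {l : List (Sym2 V) | Sm k l ∧ l.length + 1 = 2 * k} := by
      refine supp_ind (mkE ∘ₗ mp T) _ ?_ hW
      rintro L ⟨h1, h2, h3⟩
      rw [LinearMap.comp_apply, mp_single]
      have hne : L ≠ [] := by
        rintro rfl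
        simp at h1
      obtain ⟨tp, htp, h4⟩ := exists_top h2 hne
      refine Sp_word ⟨⟨?_, tp, ?_, (h3 tp htp).2⟩, ?_⟩
      · intro e he
        obtain ⟨s, hs, rfl⟩ := List.mem_map.1 he
        exact (hT2 s (h3 s hs).1).1
      · intro a b hab
        obtain ⟨s, hs, e1⟩ := List.mem_map.1 hab
        exact h4 s hs ((hT2 s (h3 s hs).1).2 a b e1)
      · rw [List.length_map, h1]
        omega
    have hb : bdE (mkE (mp T W)) = N • (-1 : ℤ) ^ ((i + 1).choose 2) • zt := by
      rw [bdE_mkE, bdF_mp, hbdW, map_smul, map_smul, mp_Nr T hs1', hmp]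
    have hq3 := qB_bdE hE
    rw [hb, map_smul, map_smul] at hq3
    have hq4 : N • qB k zt = 0 := by
      have h5 := congrArg (fun y => (-1 : ℤ) ^ ((i + 1).choose 2) • y) hq3
      simp only [smul_zero, smul_smul] at h5
      rw [← mul_assoc, mul_comm _ N, mul_assoc, ← mul_pow] at h5
      norm_num at h5
      exact h5
    by_contra hnd
    have hcop : IsCoprime (p : ℤ) N :=
      (Int.prime_iff_natAbs_prime.2 (by simpa using hp)).coprime_iff_not_dvd.2 hnd
    obtain ⟨a, b, hab⟩ := hcop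
    apply hq2
    calc qB k zt = (a * p + b * N) • qB k zt := by rw [hab, one_smul]
      _ = 0 := by rw [add_smul, mul_smul, mul_smul, hq1, hq4, smul_zero, smul_zero, add_zero]

end

end Pool.Agent.KS6_98.Bdd
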