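import Mathlib

/-!
# Increasing rooted forests with commuting weights
-/

set_option autoImplicit false

namespace Pool.Agent.KS6_98.Bdd

open Finset

section Forest

variable {A : Type*} [Ring A] {V : Type*} [DecidableEq V] (z : V → V → A)

/-- attaching `v` to one of the vertices of `R` -/
def Zs (v : V) (R : Finset V) : A := ∑ u ∈ R, z v u

/-- auxiliary recursion -/
def GG (r : V) : ℕ → Finset V → A
  | 0, _ => 1
  | k + 1, U => ∑ l ∈ U, Zs z l (insert r (U.erase l)) * GG r k (U.erase l)

/-- the sum over all increasing trees on `U ∪ {r}` with root `r` -/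
def G (r : V) (U : Finset V) : A := GG z r U.card U

theorem G_empty (r : V) : G z r ∅ = 1 := rfl

theorem G_rec (r : V) {U : Finset V} (h : U.Nonempty) :
    G z r U = ∑ l ∈ U, Zs z l (insert r (U.erase l)) * G z r (U.erase l) := by
  obtain ⟨k, hk⟩ : ∃ k, U.card = k + 1 := ⟨U.card - 1, by have := h.card_pos; omega⟩
  rw [G, hk, GG]
  refine sum_congr rfl fun l hl => ?_
  rw [G, card_erase_of_mem hl, hk, Nat.add_sub_cancel]

/-- the sum over all increasing trees on `W ∪ {r}` with root `r`, where `r` has one child -/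
def Cc (r : V) (W : Finset V) : A := ∑ u ∈ W, z u r * G z u (W.erase u)

theorem Cc_single (r l : V) : Cc z r {l} = z l r := by
  simp [Cc, G_empty]

variable {z}

omit [DecidableEq V] in
theorem comm_Zs {x : A} (hx : ∀ a b, x * z a b = z a b * x) (v : V) (R : Finset V) :
    x * Zs z v R = Zs z v R * x := by
  rw [Zs, mul_sum, sum_mul]
  exact sum_congr rfl fun u _ => hx v u

theorem comm_G {x : A} (hx : ∀ a b, x * z a b = z a b * x) (r : V) (U : Finset V) :
    x * G z r U = G z r U * x := by
  induction U using Finset.strongInduction with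
  | H U ih =>
    rcases U.eq_empty_or_nonempty with rfl | h
    · rw [G_empty, mul_one, one_mul]
    · rw [G_rec z r h, mul_sum, sum_mul]
      refine sum_congr rfl fun l hl => ?_
      rw [← mul_assoc, comm_Zs hx, mul_assoc, ih _ (erase_ssubset hl), mul_assoc]

theorem comm_Cc {x : A} (hx : ∀ a b, x * z a b = z a b * x) (r : V) (U : Finset V) :
    x * Cc z r U = Cc z r U * x := by
  rw [Cc, mul_sum, sum_mul]
  refine sum_congr rfl fun l _ => ?_
  rw [← mul_assoc, hx, mul_assoc, comm_G hx, mul_assoc]

theorem Cc_rec (hz : ∀ a b c d, z a b * z c d = z c d * z a b) (r : V) {W : Finset V}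
    (hW : 2 ≤ W.card) :
    Cc z r W = ∑ l ∈ W, Zs z l (W.erase l) * Cc z r (W.erase l) := by
  have h1 : Cc z r W = ∑ u ∈ W, ∑ l ∈ W.erase u,
      Zs z l (W.erase l) * (z u r * G z u ((W.erase l).erase u)) := by
    rw [Cc]
    refine sum_congr rfl fun u hu => ?_
    have hne : (W.erase u).Nonempty := by
      rw [← card_pos, card_erase_of_mem hu]
      omega
    rw [G_rec z u hne, mul_sum]
    refine sum_congr rfl fun l hl => ?_
    have hlu : l ≠ u := ne_of_mem_erase hl
    have h2 : insert u ((W.erase u).erase l) = W.erase l := by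
      rw [erase_right_comm, insert_erase]
      exact mem_erase.2 ⟨hlu.symm, hu⟩
    rw [h2, erase_right_comm, ← mul_assoc, comm_Zs (hz u r), mul_assoc]
  rw [h1, sum_comm' (t' := W) (s' := fun l => W.erase l)]
  · refine sum_congr rfl fun l _ => ?_
    rw [Cc, mul_sum]
  · intro u l
    simp only [mem_erase]
    tauto

/-- splitting off the branch containing `u0` -/
theorem G_split (hz : ∀ a b c d, z a b * z c d = z c d * z a b) (r : V) : ∀ (N : ℕ)
    (U : Finset V), U.card = N → r ∉ U → ∀ u0 ∈ U,
    G z r U = ∑ U2 ∈ U.powerset with u0 ∈ U2,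
      N.choose U2.card • (Cc z r U2 * G z r (U \ U2)) := by
  intro N
  induction N with
  | zero =>
    intro U hU _ u0 hu0
    rw [card_eq_zero.1 hU] at hu0
    simp at hu0
  | succ N ih =>
    intro U hU hr u0 hu0
    have hcard : ∀ l ∈ U, (U.erase l).card = N := by
      intro l hl
      rw [card_erase_of_mem hl, hU, Nat.add_sub_cancel]
    have hr' : ∀ l, r ∉ U.erase l := fun l h => hr (mem_of_mem_erase h)
    -- the term of `u0`
    have h1 : Zs z u0 (insert r (U.erase u0)) * G z r (U.erase u0) =
        z u0 r * G z r (U.erase u0) + ∑ W ∈ (U.erase u0).powerset,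
          N.choose W.card • ((Zs z u0 W * Cc z r W) * G z r (U.erase u0 \ W)) := by
      rw [Zs, sum_insert (hr' u0), add_mul, sum_mul]
      congr 1
      have h2 : ∀ u ∈ U.erase u0, z u0 u * G z r (U.erase u0) =
          ∑ W ∈ (U.erase u0).powerset with u ∈ W,
            N.choose W.card • (z u0 u * (Cc z r W * G z r (U.erase u0 \ W))) := by
        intro u hu
        rw [ih (U.erase u0) (hcard u0 hu0) (hr' u0) u hu, mul_sum]
        refine sum_congr rfl fun W _ => ?_
        rw [mul_smul_comm]
      rw [sum_congr rfl h2, sum_comm' (t' := (U.erase u0).powerset) (s' := fun W => W)]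
      · refine sum_congr rfl fun W _ => ?_
        rw [← smul_sum, Zs, sum_mul, sum_mul]
        simp only [mul_assoc]
      · intro u W
        simp only [mem_filter, mem_powerset]
        constructor
        · rintro ⟨_, h, h'⟩
          exact ⟨h', h⟩
        · rintro ⟨h, h'⟩
          exact ⟨h' h, h', h⟩
    -- the other terms
    have h3 : ∀ l ∈ U.erase u0, Zs z l (insert r (U.erase l)) * G z r (U.erase l) =
        (∑ W ∈ (U.erase l).powerset with u0 ∈ W,
          N.choose W.card • ((Zs z l W * Cc z r W) * G z r (U.erase l \ W))) +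
        ∑ W ∈ (U.erase l).powerset with u0 ∈ W,
          N.choose W.card • (Cc z r W * (Zs z l (insert r (U.erase l \ W)) *
            G z r (U.erase l \ W))) := by
      intro l hl
      have hlU := mem_of_mem_erase hl
      have hl0 : l ≠ u0 := ne_of_mem_erase hl
      rw [ih (U.erase l) (hcard l hlU) (hr' l) u0 (mem_erase.2 ⟨hl0.symm, hu0⟩), mul_sum,
        ← sum_add_distrib]
      refine sum_congr rfl fun W hW => ?_
      rw [mem_filter, mem_powerset] at hW
      have h4 : Zs z l (insert r (U.erase l)) = Zs z l W + Zs z l (insert r (U.erase l \ W)) := by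
        have h5 : insert r (U.erase l) = W ∪ insert r (U.erase l \ W) := by
          ext y
          simp only [mem_insert, mem_union, mem_sdiff]
          constructor
          · rintro (h | h)
            · exact Or.inr (Or.inl h)
            · by_cases hy : y ∈ W
              · exact Or.inl hy
              · exact Or.inr (Or.inr ⟨h, hy⟩)
          · rintro (h | h | h)
            · exact Or.inr (hW.1 h)
            · exact Or.inl h
            · exact Or.inr h.1
        rw [h5, Zs, sum_union]
        · rfl
        · rw [disjoint_left]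
          intro y hy hy'
          rcases mem_insert.1 hy' with rfl | h
          · exact hr' l (hW.1 hy)
          · exact (mem_sdiff.1 h).2 hy
      rw [h4, mul_smul_comm, add_mul, smul_add]
      congr 2
      · rw [mul_assoc]
      · rw [← mul_assoc, ← comm_Zs (fun a b => comm_Cc (fun c d => hz a b c d) r W |>.symm) l,
          mul_assoc]
    -- reindexing
    have h6 : ∀ l ∈ U, ∀ f : Finset V → A, ∑ W ∈ (U.erase l).powerset, f W =
        ∑ U3 ∈ U.powerset with l ∈ U3, f (U3.erase l) := by
      intro l hl f
      refine sum_bij' (fun W _ => insert l W) (fun U3 _ => U3.erase l) ?_ ?_ ?_ ?_ ?_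
      · intro W hW
        rw [mem_powerset] at hW
        rw [mem_filter, mem_powerset]
        refine ⟨?_, mem_insert_self _ _⟩
        intro y hy
        rcases mem_insert.1 hy with rfl | hy
        · exact hl
        · exact mem_of_mem_erase (hW hy)
      · intro U3 hU3
        rw [mem_filter, mem_powerset] at hU3
        rw [mem_powerset]
        exact erase_subset_erase _ hU3.1
      · intro W hW
        rw [mem_powerset] at hW
        exact erase_insert fun h => (notMem_erase l U) (hW h)
      · intro U3 hU3
        rw [mem_filter, mem_powerset] at hU3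
        exact insert_erase hU3.2
      · intro W hW
        rw [mem_powerset] at hW
        rw [erase_insert fun h => (notMem_erase l U) (hW h)]
    have h7 : ∀ l ∈ U, ∀ U3 : Finset V, l ∈ U3 → U.erase l \ U3.erase l = U \ U3 := by
      intro l hl U3 hl3
      ext y
      simp only [mem_sdiff, mem_erase]
      constructor
      · rintro ⟨⟨h1, h2⟩, h3⟩
        exact ⟨h2, fun h => h3 ⟨h1, h⟩⟩
      · rintro ⟨h1, h2⟩
        refine ⟨⟨?_, h1⟩, fun h => h2 h.2⟩
        rintro rfl
        exact h2 hl3
    rw [G_rec z r ⟨u0, hu0⟩, ← add_sum_erase U _ hu0, h1, sum_congr rfl h3, sum_add_distrib]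
    -- first part for the other letters
    have h8 : (∑ l ∈ U.erase u0, ∑ W ∈ (U.erase l).powerset with u0 ∈ W,
          N.choose W.card • ((Zs z l W * Cc z r W) * G z r (U.erase l \ W))) =
        ∑ U3 ∈ U.powerset with u0 ∈ U3, N.choose (U3.card - 1) •
          ((∑ l ∈ U3.erase u0, Zs z l (U3.erase l) * Cc z r (U3.erase l)) * G z r (U \ U3)) := by
      have h9 : ∀ l ∈ U.erase u0, (∑ W ∈ (U.erase l).powerset with u0 ∈ W,
          N.choose W.card • ((Zs z l W * Cc z r W) * G z r (U.erase l \ W))) =
          ∑ U3 ∈ U.powerset with (l ∈ U3 ∧ u0 ∈ U3), N.choose (U3.card - 1) •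
            ((Zs z l (U3.erase l) * Cc z r (U3.erase l)) * G z r (U \ U3)) := by
        intro l hl
        have hlU := mem_of_mem_erase hl
        have hl0 : l ≠ u0 := ne_of_mem_erase hl
        rw [sum_filter, h6 l hlU, ← filter_filter, sum_filter (fun U3 => u0 ∈ U3)]
        refine sum_congr rfl fun U3 hU3 => ?_
        rw [mem_filter] at hU3
        rw [h7 l hlU U3 hU3.2, card_erase_of_mem hU3.2]
        by_cases h : u0 ∈ U3
        · rw [if_pos h, if_pos (mem_erase.2 ⟨hl0.symm, h⟩)]
        · rw [if_neg h, if_neg fun h' => h (mem_of_mem_erase h')]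
      rw [sum_congr rfl h9, sum_comm' (t' := U.powerset.filter (u0 ∈ ·))
        (s' := fun U3 => U3.erase u0)]
      · refine sum_congr rfl fun U3 _ => ?_
        rw [← smul_sum, sum_mul]
      · intro l U3
        simp only [mem_filter, mem_powerset, mem_erase]
        constructor
        · rintro ⟨⟨h1, h2⟩, h3, h4, h5⟩
          exact ⟨⟨h1, h4⟩, h3, h5⟩
        · rintro ⟨⟨h1, h2⟩, h3, h4⟩
          exact ⟨⟨h1, h3 h2⟩, h3, h2, h4⟩
    have h10 : (∑ l ∈ U.erase u0, ∑ W ∈ (U.erase l).powerset with u0 ∈ W,
          N.choose W.card • (Cc z r W * (Zs z l (insert r (U.erase l \ W)) *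
            G z r (U.erase l \ W)))) =
        ∑ U2 ∈ U.powerset with u0 ∈ U2, N.choose U2.card • (Cc z r U2 * G z r (U \ U2)) := by
      rw [sum_comm' (t' := U.powerset.filter (u0 ∈ ·)) (s' := fun U2 => U \ U2)]
      · refine sum_congr rfl fun U2 hU2 => ?_
        rw [mem_filter, mem_powerset] at hU2
        rcases (U \ U2).eq_empty_or_nonempty with h | h
        · have : U2 = U := subset_antisymm hU2.1 (sdiff_eq_empty_iff_subset.1 h)
          rw [h, sum_empty, this, hU, Nat.choose_succ_self, zero_smul]
        · rw [G_rec z r h, ← smul_sum, mul_sum]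
          congr 1
          refine sum_congr rfl fun l _ => ?_
          have : U.erase l \ U2 = (U \ U2).erase l := by
            ext y
            simp only [mem_sdiff, mem_erase]
            tauto
          rw [this]
      · intro l W
        simp only [mem_filter, mem_powerset, mem_erase, mem_sdiff]
        constructor
        · rintro ⟨⟨h1, h2⟩, h3, h4⟩
          exact ⟨⟨h2, fun h => (mem_erase.1 (h3 h)).1 rfl⟩,
            h3.trans (erase_subset _ _), h4⟩
        · rintro ⟨⟨h1, h2⟩, h3, h4⟩
          refine ⟨⟨?_, h1⟩, fun y hy => mem_erase.2 ⟨?_, h3 hy⟩, h4⟩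
          · rintro rfl
            exact h2 h4
          · rintro rfl
            exact h2 hy
    have h11 : z u0 r * G z r (U.erase u0) + ∑ W ∈ (U.erase u0).powerset,
          N.choose W.card • ((Zs z u0 W * Cc z r W) * G z r (U.erase u0 \ W)) =
        ∑ U3 ∈ U.powerset with u0 ∈ U3, N.choose (U3.card - 1) •
          ((if U3 = {u0} then z u0 r else Zs z u0 (U3.erase u0) * Cc z r (U3.erase u0)) *
            G z r (U \ U3)) := by
      have hmem : ({u0} : Finset V) ∈ U.powerset.filter (u0 ∈ ·) := by
        rw [mem_filter, mem_powerset]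
        exact ⟨singleton_subset_iff.2 hu0, mem_singleton_self _⟩
      rw [h6 u0 hu0, ← add_sum_erase _ _ hmem, ← add_sum_erase _ (fun U3 => N.choose (U3.card - 1) •
          ((if U3 = {u0} then z u0 r else Zs z u0 (U3.erase u0) * Cc z r (U3.erase u0)) *
            G z r (U \ U3))) hmem]
      have h12 : (U.erase u0) \ (({u0} : Finset V).erase u0) = U \ {u0} :=
        h7 u0 hu0 {u0} (mem_singleton_self _)
      have h13 : (U.erase u0) = U \ {u0} := by rw [sdiff_singleton_eq_erase]
      have h14 : (({u0} : Finset V).erase u0) = ∅ := by simp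
      rw [if_pos rfl]
      simp only [h14, card_singleton, Nat.sub_self, Nat.choose_zero_right, one_smul, card_empty,
        Zs, sum_empty, zero_mul, zero_add, h13]
      congr 1
      refine sum_congr rfl fun U3 hU3 => ?_
      rw [mem_erase, mem_filter, mem_powerset] at hU3
      rw [if_neg hU3.1, card_erase_of_mem hU3.2.2, ← h13, h7 u0 hu0 U3 hU3.2.2]
    rw [h8, h10, h11, ← add_assoc, ← sum_add_distrib, ← sum_add_distrib]
    refine sum_congr rfl fun U3 hU3 => ?_
    rw [mem_filter, mem_powerset] at hU3
    have hpos : 0 < U3.card := card_pos.2 ⟨u0, hU3.2⟩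
    have h15 : (if U3 = {u0} then z u0 r else Zs z u0 (U3.erase u0) * Cc z r (U3.erase u0)) +
        (∑ l ∈ U3.erase u0, Zs z l (U3.erase l) * Cc z r (U3.erase l)) = Cc z r U3 := by
      by_cases h : U3 = {u0}
      · subst h
        rw [if_pos rfl, Cc_single]
        simp
      · rw [if_neg h, add_sum_erase U3 (fun l => Zs z l (U3.erase l) * Cc z r (U3.erase l)) hU3.2,
          ← Cc_rec hz]
        by_contra hc
        have : U3.card = 1 := by omega
        obtain ⟨a, ha⟩ := card_eq_one.1 this
        rw [ha, mem_singleton] at hU3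
        rw [ha, hU3.2] at h
        exact h rfl
    rw [← smul_add, ← add_mul, h15, ← add_smul]
    congr 1
    obtain ⟨k, hk⟩ : ∃ k, U3.card = k + 1 := ⟨U3.card - 1, by omega⟩
    rw [hk, Nat.add_sub_cancel, Nat.choose_succ_succ]

/-- For `|U|` a power of `p` only the trees whose root has one child count modulo `p`. -/
theorem G_mod (hz : ∀ a b c d, z a b * z c d = z c d * z a b) {p j : ℕ} (hp : p.Prime)
    (r : V) {U : Finset V} (hU : U.card = p ^ j) (hr : r ∉ U) :
    ∃ w : A, G z r U = Cc z r U + (p : ℤ) • w := by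
  have hne : U.Nonempty := by
    rw [← card_pos, hU]
    exact pow_pos hp.pos _
  obtain ⟨u0, hu0⟩ := hne
  have h1 := G_split hz r (p ^ j) U hU hr u0 hu0
  have hmem : U ∈ U.powerset.filter (u0 ∈ ·) := by
    rw [mem_filter, mem_powerset]
    exact ⟨subset_rfl, hu0⟩
  rw [← add_sum_erase _ _ hmem, hU, Nat.choose_self, one_smul, sdiff_self] at h1
  have h2 : ∀ U2 ∈ (U.powerset.filter (u0 ∈ ·)).erase U,
      ∃ w : A, (p ^ j).choose U2.card • (Cc z r U2 * G z r (U \ U2)) = (p : ℤ) • w := by
    intro U2 hU2
    rw [mem_erase, mem_filter, mem_powerset] at hU2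
    have h3 : U2.card < p ^ j := by
      rw [← hU]
      exact card_lt_card (Finset.ssubset_iff_subset_ne.2 ⟨hU2.2.1, hU2.1⟩)
    have h4 : U2.card ≠ 0 := (card_pos.2 ⟨u0, hU2.2.2⟩).ne'
    obtain ⟨c, hc⟩ := hp.dvd_choose_pow h4 h3.ne
    refine ⟨c • (Cc z r U2 * G z r (U \ U2)), ?_⟩
    rw [hc, mul_smul]
    simp
  rw [h1, show G z r (⊥ : Finset V) = 1 from G_empty z r, mul_one]
  choose! w hw using h2
  refine ⟨∑ U2 ∈ (U.powerset.filter (u0 ∈ ·)).erase U, w U2, ?_⟩
  rw [smul_sum]
  congr 1
  exact sum_congr rfl hw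

end Forest

end Pool.Agent.KS6_98.Bdd
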