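import Pool.Agent.KS6_98.Bdd.Core

/-!
# Graphs with small components
-/

set_option autoImplicit false

namespace Pool.Agent.KS6_98.Bdd

open Pool.Agent.KS6_98.Orb Finset

section

variable {V : Type*}

/-- the set partition generated by a list of edges -/
def bs (l : List (Sym2 V)) : Setoid V := sInf {s | ∀ x y, s(x, y) ∈ l → s x y}

theorem bs_mem {l : List (Sym2 V)} {x y : V} (h : s(x, y) ∈ l) : bs l x y := by
  rw [bs, Setoid.sInf_def, sInf_apply, iInf_apply, iInf_Prop_eq]
  rintro ⟨r, s, hs, rfl⟩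
  exact hs x y h

theorem bs_le {l : List (Sym2 V)} {s : Setoid V} (h : ∀ x y, s(x, y) ∈ l → s x y) {x y : V}
    (hxy : bs l x y) : s x y := by
  have : bs l ≤ s := sInf_le h
  exact this hxy

theorem bs_mono {l l' : List (Sym2 V)} (h : ∀ e ∈ l, e ∈ l') {x y : V} (hxy : bs l x y) :
    bs l' x y := bs_le (fun _ _ hab => bs_mem (h _ hab)) hxy

theorem bs_perm {l l' : List (Sym2 V)} (h : l.Perm l') : bs l = bs l' := by
  refine Setoid.ext fun x y => ⟨bs_mono fun e he => h.mem_iff.1 he, bs_mono fun e he =>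
    h.mem_iff.2 he⟩

theorem bs_cons {l : List (Sym2 V)} {x y u v : V} (h : bs (s(x, y) :: l) u v) :
    bs l u v ∨ (bs l u x ∧ bs l y v) ∨ (bs l u y ∧ bs l x v) := by
  let s : Setoid V := ⟨fun u v => bs l u v ∨ (bs l u x ∧ bs l y v) ∨ (bs l u y ∧ bs l x v), by
    refine ⟨fun u => Or.inl ((bs l).refl' u), fun {u v} h => ?_, fun {u v w} h h' => ?_⟩
    · rcases h with h | ⟨h1, h2⟩ | ⟨h1, h2⟩
      · exact Or.inl ((bs l).symm' h)
      · exact Or.inr (Or.inr ⟨(bs l).symm' h2, (bs l).symm' h1⟩)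
      · exact Or.inr (Or.inl ⟨(bs l).symm' h2, (bs l).symm' h1⟩)
    · rcases h with h | ⟨h1, h2⟩ | ⟨h1, h2⟩ <;> rcases h' with h' | ⟨h3, h4⟩ | ⟨h3, h4⟩
      · exact Or.inl ((bs l).trans' h h')
      · exact Or.inr (Or.inl ⟨(bs l).trans' h h3, h4⟩)
      · exact Or.inr (Or.inr ⟨(bs l).trans' h h3, h4⟩)
      · exact Or.inr (Or.inl ⟨h1, (bs l).trans' h2 h'⟩)
      · exact Or.inr (Or.inl ⟨h1, h4⟩)
      · exact Or.inl ((bs l).trans' h1 h4)
      · exact Or.inr (Or.inr ⟨h1, (bs l).trans' h2 h'⟩)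
      · exact Or.inl ((bs l).trans' h1 h4)
      · exact Or.inr (Or.inr ⟨h1, h4⟩)⟩
  have h1 : ∀ a b, s(a, b) ∈ s(x, y) :: l → s a b := by
    intro a b hab
    rcases List.mem_cons.1 hab with e | hab
    · rw [Sym2.eq_iff] at e
      rcases e with ⟨rfl, rfl⟩ | ⟨rfl, rfl⟩
      · exact Or.inr (Or.inl ⟨(bs l).refl' _, (bs l).refl' _⟩)
      · exact Or.inr (Or.inr ⟨(bs l).refl' _, (bs l).refl' _⟩)
    · exact Or.inl (bs_mem hab)
  exact bs_le h1 h

end

section

variable {V : Type*} [Fintype V]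

open Classical in
/-- a graph with few edges has many components -/
theorem exists_reps (l : List (Sym2 V)) : ∃ R : Finset V, Fintype.card V ≤ R.card + l.length ∧
    ∀ u ∈ R, ∀ v ∈ R, bs l u v → u = v := by
  induction l with
  | nil =>
    refine ⟨univ, by simp, fun u _ v _ h => ?_⟩
    have h1 : ∀ x y, s(x, y) ∈ ([] : List (Sym2 V)) → (⊥ : Setoid V) x y := by simp
    exact bs_le h1 h
  | cons e l ih =>
    obtain ⟨R, h1, h2⟩ := ih
    induction e with
    | h x y =>
      refine ⟨R.filter fun u => ¬bs l u y, ?_, ?_⟩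
      · have h3 : (R.filter fun u => bs l u y).card ≤ 1 := by
          rw [card_le_one]
          intro u hu v hv
          rw [mem_filter] at hu hv
          exact h2 u hu.1 v hv.1 ((bs l).trans' hu.2 ((bs l).symm' hv.2))
        have h4 := card_filter_add_card_filter_not (s := R) (fun u => bs l u y)
        rw [List.length_cons]
        omega
      · intro u hu v hv h
        rw [mem_filter] at hu hv
        rcases bs_cons h with h | ⟨_, h⟩ | ⟨h, _⟩
        · exact h2 u hu.1 v hv.1 h
        · exact absurd ((bs l).symm' h) hv.2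
        · exact absurd h hu.2

open Classical in
theorem class_le (l : List (Sym2 V)) (v : V) : {u | bs l v u}.ncard ≤ l.length + 1 := by
  obtain ⟨R, h1, h2⟩ := exists_reps l
  have h3 : {u | bs l v u}.ncard = (univ.filter fun u => bs l v u).card := by
    rw [← Set.ncard_coe_finset]
    congr 1
    ext u
    simp
  have h4 : (R.filter fun u => bs l v u).card ≤ 1 := by
    rw [card_le_one]
    intro u hu w hw
    rw [mem_filter] at hu hw
    exact h2 u hu.1 w hw.1 ((bs l).trans' ((bs l).symm' hu.2) hw.2)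
  have h5 := card_filter_add_card_filter_not (s := R) (fun u => bs l v u)
  have h6 := card_filter_add_card_filter_not (s := (univ : Finset V)) (fun u => bs l v u)
  have h7 : (R.filter fun u => ¬bs l v u).card ≤ (univ.filter fun u => ¬bs l v u).card :=
    card_le_card (filter_subset_filter _ (subset_univ _))
  rw [card_univ] at h6
  rw [h3]
  omega

theorem Sm_iff {c : ℕ} {l : List (Sym2 V)} :
    Sm c l ↔ (∀ e ∈ l, ¬e.IsDiag) ∧ ∀ v, {u | bs l v u}.ncard ≤ c := by
  constructor
  · rintro ⟨h1, s, h2, h3⟩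
    exact ⟨h1, fun v => (Set.ncard_le_ncard (fun u hu => bs_le h2 hu) (Set.toFinite _)).trans
      (h3 v)⟩
  · rintro ⟨h1, h2⟩
    exact ⟨h1, bs l, fun x y h => bs_mem h, h2⟩

omit [Fintype V] in
theorem Sm_sublist {c : ℕ} {l l' : List (Sym2 V)} (h : l'.Sublist l) (hl : Sm c l) : Sm c l' := by
  obtain ⟨h1, s, h2, h3⟩ := hl
  exact ⟨fun e he => h1 e (h.subset he), s, fun x y hxy => h2 x y (h.subset hxy), h3⟩

omit [Fintype V] in
theorem Sm_mono {c c' : ℕ} (hc : c ≤ c') {l : List (Sym2 V)} (hl : Sm c l) : Sm c' l := by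
  obtain ⟨h1, s, h2, h3⟩ := hl
  exact ⟨h1, s, h2, fun v => (h3 v).trans hc⟩

/-! ### A homotopy -/

/-- a linear map given on words, depending on the set partition of the word -/
noncomputable def twist (g : Setoid V → (EE (Sym2 V) →ₗ[ℤ] EE (Sym2 V))) :
    EE (Sym2 V) →ₗ[ℤ] EE (Sym2 V) :=
  (Orb.Rel (Sym2 V)).liftQ (Finsupp.linearCombination ℤ fun l => g (bs l) (word l)) (by
    refine Submodule.span_le.2 fun x hx => ?_
    show Finsupp.linearCombination ℤ (fun l => g (bs l) (word l)) x = 0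
    have h0 : mkE x = 0 := (Submodule.Quotient.mk_eq_zero _).2 (Submodule.subset_span hx)
    rcases gen_cases hx with ⟨l₁, l₂, rfl, hp, hn⟩ | ⟨l, rfl, hn⟩
    · rw [map_add] at h0
      rw [map_add, Finsupp.linearCombination_single, Finsupp.linearCombination_single, one_smul,
        one_smul, bs_perm hp, ← map_add]
      show g (bs l₂) (mkE _ + mkE _) = 0
      rw [h0, map_zero]
    · rw [Finsupp.linearCombination_single, one_smul]
      show g (bs l) (mkE _) = 0
      rw [h0, map_zero])

omit [Fintype V] in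
theorem twist_word (g : Setoid V → (EE (Sym2 V) →ₗ[ℤ] EE (Sym2 V))) (l : List (Sym2 V)) :
    twist g (word l) = g (bs l) (word l) := by
  show Finsupp.linearCombination ℤ (fun l => g (bs l) (word l)) (Finsupp.single l 1) = _
  rw [Finsupp.linearCombination_single, one_smul]

open Classical in
theorem step {m c : ℕ} (hV : Fintype.card V = 2 * m + 1) (h1 : m + 1 ≤ c) (h2 : c ≤ 2 * m - 1)
    {D : EE (Sym2 V)} (hD : D ∈ Sp {l : List (Sym2 V) | Sm c l})
    (hbd : bdE D ∈ Sp {l : List (Sym2 V) | Sm m l}) :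
    ∃ D' ∈ Sp {l : List (Sym2 V) | Sm (c - 1) l}, bdE D' = bdE D := by
  have hfin : ∀ X : Set V, X.ncard + Xᶜ.ncard = 2 * m + 1 := by
    intro X
    rw [Set.ncard_add_ncard_compl, Nat.card_eq_fintype_card, hV]
  -- an edge outside
  have heo : ∀ X : Set V, ∃ e : Sym2 V, X.ncard ≤ 2 * m - 1 → ¬e.IsDiag ∧ ∀ x ∈ e, x ∉ X := by
    intro X
    by_cases h : X.ncard ≤ 2 * m - 1
    · have h3 := hfin X
      have h4 : 1 < Xᶜ.ncard := by omega
      obtain ⟨a, b, ha, hb, hab⟩ := (Set.one_lt_ncard_iff (Set.toFinite _)).1 h4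
      refine ⟨s(a, b), fun _ => ⟨by rwa [Sym2.mk_isDiag_iff], ?_⟩⟩
      intro x hx
      rcases Sym2.mem_iff.1 hx with rfl | rfl
      · exact ha
      · exact hb
    · have : Nonempty V := Fintype.card_pos_iff.1 (by omega)
      exact ⟨s(Classical.arbitrary V, Classical.arbitrary V), fun h' => absurd h' h⟩
  choose eo heo using heo
  let g : Setoid V → (EE (Sym2 V) →ₗ[ℤ] EE (Sym2 V)) := fun s =>
    if h : ∃ X : Set V, (∃ v, X = {u | s v u}) ∧ X.ncard = c then ins (eo h.choose) else 0
  have g0 : ∀ s : Setoid V, (∀ v, {u | s v u}.ncard ≠ c) → g s = 0 := by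
    intro s hs
    refine dif_neg ?_
    rintro ⟨X, ⟨v, rfl⟩, hX⟩
    exact hs v hX
  have g1 : ∀ (s : Setoid V) (v : V), {u | s v u}.ncard = c → g s = ins (eo {u | s v u}) := by
    intro s v hv
    have h : ∃ X : Set V, (∃ v, X = {u | s v u}) ∧ X.ncard = c := ⟨_, ⟨v, rfl⟩, hv⟩
    have hg : g s = ins (eo h.choose) := dif_pos h
    rw [hg]
    obtain ⟨⟨w, hw⟩, hc⟩ := h.choose_spec
    rw [hw] at hc ⊢
    congr 2
    by_cases hwv : s w v
    · ext u
      exact ⟨fun hu => s.trans' (s.symm' hwv) hu, fun hu => s.trans' hwv hu⟩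
    · exfalso
      have hdis : Disjoint {u | s w u} {u | s v u} := by
        rw [Set.disjoint_left]
        intro u hu hu'
        exact hwv (s.trans' hu (s.symm' hu'))
      have h3 := Set.ncard_union_eq hdis (Set.toFinite _) (Set.toFinite _)
      have h4 := hfin ({u | s w u} ∪ {u | s v u})
      omega
  set H := twist g with hH
  -- the homotopy on words
  have key : ∀ l : List (Sym2 V), Sm c l →
      word l - bdE (H (word l)) - H (bdE (word l)) ∈ Sp {l : List (Sym2 V) | Sm (c - 1) l} := by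
    intro l hl
    have hl' := Sm_iff.1 hl
    by_cases hex : ∃ v, {u | bs l v u}.ncard = c
    · obtain ⟨v, hv⟩ := hex
      set X : Set V := {u | bs l v u} with hX
      have he := heo X (by omega)
      have e1 : H (word l) = ins (eo X) (word l) := by rw [hH, twist_word, g1 _ v hv]
      have e2 : word l - bdE (H (word l)) - H (bdE (word l)) =
          (ins (eo X) - H) (bdE (word l)) := by
        rw [e1, bdE_ins, LinearMap.sub_apply]
        abel
      rw [e2]
      refine Sp_map (ins (eo X) - H) ?_ (Dc_mem_Sp _ l)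
      rintro l' ⟨hs, _⟩
      rw [LinearMap.sub_apply, hH, twist_word]
      have hle : ∀ {x y : V}, bs l' x y → bs l x y := bs_mono fun e he => hs.subset he
      by_cases hex' : ∃ v', {u | bs l' v' u}.ncard = c
      · obtain ⟨v', hv'⟩ := hex'
        have h3 : {u | bs l' v' u} ⊆ {u | bs l v' u} := fun u hu => hle hu
        have h4 : {u | bs l' v' u} = {u | bs l v' u} :=
          Set.eq_of_subset_of_ncard_le h3 (by rw [hv']; exact hl'.2 v') (Set.toFinite _)
        have h5 : {u | bs l v' u}.ncard = c := by rw [← h4, hv']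
        have h6 : (ins (eo {u | bs l v' u}) : EE (Sym2 V) →ₗ[ℤ] EE (Sym2 V)) = ins (eo X) := by
          rw [← g1 _ v' h5, g1 _ v hv]
        rw [g1 _ v' hv', h4, h6, sub_self]
        exact Submodule.zero_mem _
      · push Not at hex'
        rw [g0 _ hex', LinearMap.zero_apply, sub_zero, ← word_cons]
        refine Sp_word ⟨?_, ?_⟩
        · intro e hee
          rcases List.mem_cons.1 hee with rfl | hee
          · exact he.1
          · exact hl'.1 e (hs.subset hee)
        · have hXiff : ∀ {x y : V}, bs l x y → (x ∈ X ↔ y ∈ X) := by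
            intro x y hxy
            exact ⟨fun h => (bs l).trans' h hxy, fun h => (bs l).trans' h ((bs l).symm' hxy)⟩
          let s' : Setoid V := ⟨fun x y => (x ∈ X ∧ y ∈ X ∧ bs l' x y) ∨ (x ∉ X ∧ y ∉ X), by
            refine ⟨fun x => ?_, fun {x y} h => ?_, fun {x y w} h h' => ?_⟩
            · by_cases hx : x ∈ X
              · exact Or.inl ⟨hx, hx, (bs l').refl' x⟩
              · exact Or.inr ⟨hx, hx⟩
            · rcases h with ⟨h1, h2, h3⟩ | ⟨h1, h2⟩
              · exact Or.inl ⟨h2, h1, (bs l').symm' h3⟩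
              · exact Or.inr ⟨h2, h1⟩
            · rcases h with ⟨h1, h2, h3⟩ | ⟨h1, h2⟩ <;> rcases h' with ⟨h4, h5, h6⟩ | ⟨h4, h5⟩
              · exact Or.inl ⟨h1, h5, (bs l').trans' h3 h6⟩
              · exact absurd h2 h4
              · exact absurd h4 h2
              · exact Or.inr ⟨h1, h5⟩⟩
          refine ⟨s', ?_, ?_⟩
          · intro x y hxy
            rcases List.mem_cons.1 hxy with e | hxy
            · refine Or.inr ⟨he.2 x ?_, he.2 y ?_⟩
              · rw [← e]; exact Sym2.mem_mk_left x y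
              · rw [← e]; exact Sym2.mem_mk_right x y
            · have h3 := bs_mem hxy
              by_cases hx : x ∈ X
              · exact Or.inl ⟨hx, (hXiff (hle h3)).1 hx, h3⟩
              · exact Or.inr ⟨hx, fun hy => hx ((hXiff (hle h3)).2 hy)⟩
          · intro x
            by_cases hx : x ∈ X
            · have h3 : {u | s' x u} ⊆ {u | bs l' x u} := by
                rintro u (⟨_, _, h⟩ | ⟨h, _⟩)
                · exact h
                · exact absurd hx h
              have h4 := Set.ncard_le_ncard h3 (Set.toFinite _)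
              have h5 : {u | bs l' x u}.ncard ≤ c :=
                (Set.ncard_le_ncard (fun u hu => hle hu) (Set.toFinite _)).trans (hl'.2 x)
              have h6 := hex' x
              omega
            · have h3 : {u | s' x u} ⊆ Xᶜ := by
                rintro u (⟨h, _, _⟩ | ⟨_, h⟩)
                · exact absurd h hx
                · exact h
              have h4 := Set.ncard_le_ncard h3 (Set.toFinite _)
              have h5 := hfin X
              omega
    · push Not at hex
      have hlt : ∀ v, {u | bs l v u}.ncard < c := fun v => lt_of_le_of_ne (hl'.2 v) (hex v)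
      have e1 : H (word l) = 0 := by rw [hH, twist_word, g0 _ hex, LinearMap.zero_apply]
      have e2 : H (bdE (word l)) = 0 := by
        refine Sp_congr H 0 ?_ (Dc_mem_Sp _ l)
        rintro l' ⟨hs, _⟩
        rw [hH, twist_word, LinearMap.zero_apply, g0 _ ?_, LinearMap.zero_apply]
        intro v
        have h3 : {u | bs l' v u} ⊆ {u | bs l v u} :=
          fun u hu => bs_mono (fun e he => hs.subset he) hu
        have h4 := Set.ncard_le_ncard h3 (Set.toFinite _)
        have h5 := hlt v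
        omega
      rw [e1, e2, map_zero, sub_zero, sub_zero]
      refine Sp_word (Sm_iff.2 ⟨hl'.1, fun v => ?_⟩)
      have h5 := hlt v
      omega
  have hHz : H (bdE D) = 0 := by
    refine Sp_congr H 0 (fun l hl => ?_) hbd
    have hl' := Sm_iff.1 hl
    rw [hH, twist_word, LinearMap.zero_apply, g0 _ ?_, LinearMap.zero_apply]
    intro v
    have h5 := hl'.2 v
    omega
  refine ⟨D - bdE (H D), ?_, ?_⟩
  · have h3 := Sp_map ((LinearMap.id : EE (Sym2 V) →ₗ[ℤ] EE (Sym2 V)) - bdE ∘ₗ H - H ∘ₗ bdE)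
      (fun l hl => key l hl) hD
    have h4 : ((LinearMap.id : EE (Sym2 V) →ₗ[ℤ] EE (Sym2 V)) - bdE ∘ₗ H - H ∘ₗ bdE) D =
      D - bdE (H D) - H (bdE D) := rfl
    rw [h4, hHz, sub_zero] at h3
    exact h3
  · rw [map_sub, bdE_bdE, sub_zero]

theorem steps {m : ℕ} (hV : Fintype.card V = 2 * m + 1) (k : ℕ) (hk : m + k ≤ 2 * m - 1)
    {D : EE (Sym2 V)} (hD : D ∈ Sp {l : List (Sym2 V) | Sm (m + k) l})
    (hbd : bdE D ∈ Sp {l : List (Sym2 V) | Sm m l}) :
    ∃ D' ∈ Sp {l : List (Sym2 V) | Sm m l}, bdE D' = bdE D := by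
  induction k generalizing D with
  | zero => exact ⟨D, hD, rfl⟩
  | succ k ih =>
    obtain ⟨D', h1, h2⟩ := step hV (c := m + (k + 1)) (by omega) hk hD hbd
    obtain ⟨D'', h3, h4⟩ := ih (by omega) h1 (by rw [h2]; exact hbd)
    exact ⟨D'', h3, h4.trans h2⟩

/-- Cycles with few edges are boundaries. -/
theorem fill {m : ℕ} (hm : 2 ≤ m) (hV : Fintype.card V = 2 * m + 1) {c : EE (Sym2 V)}
    (hc : c ∈ Sp {l : List (Sym2 V) | Sm m l ∧ l.length + 3 = 2 * m}) (hbd : bdE c = 0) :
    ∃ D ∈ Sp {l : List (Sym2 V) | Sm m l}, bdE D = c := by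
  have : Nontrivial V := Fintype.one_lt_card_iff_nontrivial.1 (by omega)
  obtain ⟨a, b, hab⟩ := exists_pair_ne V
  have h1 : bdE (ins s(a, b) c) = c := by rw [bdE_ins, hbd, map_zero, sub_zero]
  have h2 : ins s(a, b) c ∈ Sp {l : List (Sym2 V) | Sm (m + (m - 1)) l} := by
    refine Sp_map (ins s(a, b)) ?_ hc
    rintro l ⟨hl, hlen⟩
    rw [← word_cons]
    refine Sp_word (Sm_iff.2 ⟨?_, fun v => ?_⟩)
    · intro e he
      rcases List.mem_cons.1 he with rfl | he
      · rwa [Sym2.mk_isDiag_iff]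
      · exact hl.1 e he
    · have := class_le (s(a, b) :: l) v
      rw [List.length_cons] at this
      omega
  obtain ⟨D, h3, h4⟩ := steps hV (m - 1) (by omega) h2 (by
    rw [h1]; exact Sp_mono (fun l hl => hl.1) hc)
  exact ⟨D, h3, h4.trans h1⟩

end

end Pool.Agent.KS6_98.Bdd
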