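import Pool.Agent.KS6_98.Bdd.Graph

/-!
# Relations between the cycles
-/

set_option autoImplicit false

namespace Pool.Agent.KS6_98.Bdd

open Pool.Agent.KS6_98.Orb

section

variable {V : Type*}

/-- the edges of a path -/
def pth : List V → List (Sym2 V)
  | [] => []
  | [_] => []
  | a :: b :: l => s(a, b) :: pth (b :: l)

theorem pth_cons (a b : V) (l : List V) : pth (a :: b :: l) = s(a, b) :: pth (b :: l) := rfl

theorem pth_append (p q : List V) (a b : V) :
    pth (p ++ a :: b :: q) = pth (p ++ [a]) ++ s(a, b) :: pth (b :: q) := by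
  induction p with
  | nil => rfl
  | cons c p ih =>
    cases p with
    | nil => rfl
    | cons d p =>
      show s(c, d) :: pth (d :: p ++ a :: b :: q) = s(c, d) :: pth (d :: p ++ [a]) ++ _
      rw [ih]
      rfl

theorem pth_snoc (p : List V) (a b : V) : pth (p ++ [a, b]) = pth (p ++ [a]) ++ [s(a, b)] :=
  pth_append p [] a b

theorem pth_length (a : V) (l : List V) : (pth (a :: l)).length = l.length := by
  induction l generalizing a with
  | nil => rfl
  | cons b l ih => rw [pth_cons, List.length_cons, ih, List.length_cons]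

theorem pth_length' {l : List V} (h : l ≠ []) : (pth l).length + 1 = l.length := by
  cases l with
  | nil => exact absurd rfl h
  | cons a l => rw [pth_length, List.length_cons]

theorem mem_pth {l : List V} (hl : l.Nodup) {e : Sym2 V} (he : e ∈ pth l) :
    ∃ a b, e = s(a, b) ∧ a ≠ b ∧ a ∈ l ∧ b ∈ l := by
  induction l with
  | nil => simp [pth] at he
  | cons a l ih =>
    cases l with
    | nil => simp [pth] at he
    | cons b l =>
      rw [List.nodup_cons] at hl
      rw [pth_cons, List.mem_cons] at he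
      rcases he with rfl | he
      · refine ⟨a, b, rfl, fun h => hl.1 (h ▸ List.mem_cons_self), List.mem_cons_self, ?_⟩
        exact List.mem_cons_of_mem _ List.mem_cons_self
      · obtain ⟨c, d, rfl, h1, h2, h3⟩ := ih hl.2 he
        exact ⟨c, d, rfl, h1, List.mem_cons_of_mem _ h2, List.mem_cons_of_mem _ h3⟩

/-- two paths obtained by cutting a path -/
def S1 (w : List V) : Set (List (Sym2 V)) :=
  {l | ∃ p q, p ≠ [] ∧ q ≠ [] ∧ w = p ++ q ∧ l = pth p ++ pth q}

/-- two paths with at least one edge obtained by cutting a path -/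
def S2 (w : List V) : Set (List (Sym2 V)) :=
  {l | ∃ p q, 2 ≤ p.length ∧ 2 ≤ q.length ∧ w = p ++ q ∧ l = pth p ++ pth q}

theorem pth_sub {w : List V} {l' : List (Sym2 V)} (h1 : l'.Sublist (pth w))
    (h2 : l'.length + 1 = (pth w).length) : l' ∈ S1 w := by
  induction w generalizing l' with
  | nil => simp [pth] at h2
  | cons a w ih =>
    cases w with
    | nil => simp [pth] at h2
    | cons b w =>
      rw [pth_cons] at h1 h2
      rw [List.sublist_cons_iff] at h1
      rcases h1 with h1 | ⟨r, rfl, h1⟩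
      · refine ⟨[a], b :: w, by simp, by simp, rfl, ?_⟩
        rw [h1.eq_of_length (by rw [List.length_cons] at h2; omega)]
        rfl
      · rw [List.length_cons, List.length_cons] at h2
        obtain ⟨p, q, hp, hq, hpq, hr⟩ := ih h1 (by omega)
        obtain ⟨c, p', rfl⟩ := List.exists_cons_of_ne_nil hp
        rw [List.cons_append, List.cons.injEq] at hpq
        obtain ⟨rfl, rfl⟩ := hpq
        exact ⟨a :: b :: p', q, by simp, hq, rfl, by rw [hr, pth_cons]; rfl⟩

theorem bd_pth (w : List V) : bdE (word (pth w)) ∈ Sp (S1 w) :=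
  Sp_mono (fun _ hl => pth_sub hl.1 hl.2) (Dc_mem_Sp _ (pth w))

theorem bdE_word_single {α : Type*} (g : α) : bdE (word [g]) = word [] := by
  have h : bdE (word ([] : List α)) = 0 := Dc_nil _
  rw [word_cons, bdE_ins, h, map_zero, sub_zero]

theorem bd_long {a y : V} {t : List V} (ht : t ≠ []) :
    ∃ mid ∈ Sp (S2 (a :: t ++ [y])), bdE (word (pth (a :: t ++ [y]))) =
      word (pth (t ++ [y])) + (-1 : ℤ) ^ t.length • word (pth (a :: t)) + mid := by
  obtain ⟨b, t0, hb⟩ := List.exists_cons_of_ne_nil ht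
  obtain ⟨t1, c, hc⟩ : ∃ t1 c, t = t1 ++ [c] :=
    ⟨t.dropLast, t.getLast ht, (List.dropLast_append_getLast ht).symm⟩
  have e1 : pth (a :: t ++ [y]) = s(a, b) :: pth (t ++ [y]) := by rw [hb]; rfl
  have e2 : pth (t ++ [y]) = pth t ++ [s(c, y)] := by
    rw [hc, List.append_assoc]
    exact pth_snoc t1 c y
  have e3 : pth (a :: t) = s(a, b) :: pth t := by rw [hb]; rfl
  refine ⟨-ins s(a, b) (mulE (word [s(c, y)]) (bdE (word (pth t)))), ?_, ?_⟩
  · refine Submodule.neg_mem _ ?_
    refine Sp_map (ins s(a, b) ∘ₗ mulE (word [s(c, y)])) ?_ (bd_pth t)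
    rintro l ⟨p, q, hp, hq, hpq, rfl⟩
    rw [LinearMap.comp_apply, mulE_word_word, ← word_cons]
    obtain ⟨b', p', rfl⟩ := List.exists_cons_of_ne_nil hp
    obtain ⟨q', c', rfl⟩ : ∃ t1 c, q = t1 ++ [c] :=
      ⟨q.dropLast, q.getLast hq, (List.dropLast_append_getLast hq).symm⟩
    have h1 : b = b' := by
      rw [hb] at hpq
      exact (List.cons.inj hpq).1
    have h2 : c = c' := by
      rw [hc, ← List.append_assoc] at hpq
      exact (List.append_inj' hpq rfl).2 |> fun h => (List.cons.inj h).1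
    subst h1 h2
    refine Sp_word ⟨a :: b :: p', q' ++ [c, y], by simp, by simp, ?_, ?_⟩
    · rw [hpq]
      simp
    · rw [pth_snoc, pth_cons]
      simp
  · have hlen : (pth t).length + 1 = t.length := pth_length' ht
    rw [e1, e2, e3, word_cons s(a, b) (pth t ++ [s(c, y)]), word_cons s(a, b) (pth t), bdE_ins,
      bdE_word_append, bdE_word_single, lm_word, List.append_nil, map_add, map_smul, ← hlen,
      pow_succ, mul_neg_one, neg_smul]
    abel

end

section

variable {V : Type*} [Fintype V]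

theorem Sm_pieces {c : ℕ} {l : List (Sym2 V)} (Q : List (List V)) (hnd : Q.flatten.Nodup)
    (hlen : ∀ P ∈ Q, P.length ≤ c) (hc : 1 ≤ c)
    (hl : ∀ e ∈ l, ∃ P ∈ Q, ∃ a b, e = s(a, b) ∧ a ≠ b ∧ a ∈ P ∧ b ∈ P) : Sm c l := by
  classical
  rw [List.nodup_flatten] at hnd
  have huniq : ∀ P ∈ Q, ∀ P' ∈ Q, ∀ v, v ∈ P → v ∈ P' → P = P' := by
    intro P hP P' hP' v hv hv'
    by_contra hne
    have hsymm : Std.Symm (List.Disjoint (α := V)) := ⟨fun _ _ h => h.symm⟩
    have := hnd.2.forall hP hP' hne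
    exact this hv hv'
  let s : Setoid V := ⟨fun a b => a = b ∨ ∃ P ∈ Q, a ∈ P ∧ b ∈ P, by
    refine ⟨fun a => Or.inl rfl, fun {a b} h => ?_, fun {a b c} h h' => ?_⟩
    · rcases h with rfl | ⟨P, hP, h1, h2⟩
      · exact Or.inl rfl
      · exact Or.inr ⟨P, hP, h2, h1⟩
    · rcases h with rfl | ⟨P, hP, h1, h2⟩
      · exact h'
      · rcases h' with rfl | ⟨P', hP', h3, h4⟩
        · exact Or.inr ⟨P, hP, h1, h2⟩
        · have := huniq P hP P' hP' b h2 h3
          subst this
          exact Or.inr ⟨P, hP, h1, h4⟩⟩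
  refine ⟨?_, s, ?_, ?_⟩
  · intro e he
    obtain ⟨P, _, a, b, rfl, hab, _, _⟩ := hl e he
    rwa [Sym2.mk_isDiag_iff]
  · intro x y hxy
    obtain ⟨P, hP, a, b, e, _, ha, hb⟩ := hl _ hxy
    rw [Sym2.eq_iff] at e
    rcases e with ⟨rfl, rfl⟩ | ⟨rfl, rfl⟩
    · exact Or.inr ⟨P, hP, ha, hb⟩
    · exact Or.inr ⟨P, hP, hb, ha⟩
  · intro v
    by_cases h : ∃ P ∈ Q, v ∈ P
    · obtain ⟨P, hP, hv⟩ := h
      have h1 : {u | s v u} ⊆ (P.toFinset : Set V) := by
        rintro u (rfl | ⟨P', hP', h1, h2⟩)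
        · simpa using hv
        · have := huniq P hP P' hP' v hv h1
          subst this
          simpa using h2
      have h2 := Set.ncard_le_ncard h1 (Set.toFinite _)
      rw [Set.ncard_coe_finset] at h2
      exact h2.trans ((List.toFinset_card_le P).trans (hlen P hP))
    · have h1 : {u | s v u} ⊆ {v} := by
        rintro u (rfl | ⟨P', hP', h1, h2⟩)
        · rfl
        · exact absurd ⟨P', hP', h1⟩ h
      have h2 := Set.ncard_le_ncard h1 (Set.toFinite _)
      rw [Set.ncard_singleton] at h2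
      omega

omit [Fintype V] in
theorem pieces_pth {P : List V} {Q : List (List V)} (hnd : Q.flatten.Nodup) (hP : P ∈ Q)
    {e : Sym2 V} (he : e ∈ pth P) : ∃ P ∈ Q, ∃ a b, e = s(a, b) ∧ a ≠ b ∧ a ∈ P ∧ b ∈ P := by
  obtain ⟨a, b, h1, h2, h3, h4⟩ := mem_pth ((List.nodup_flatten.1 hnd).1 P hP) he
  exact ⟨P, hP, a, b, h1, h2, h3, h4⟩

/-- the boundaries -/
noncomputable def Bd (V : Type*) [Fintype V] (k : ℕ) : Submodule ℤ (EE (Sym2 V)) :=
  (Sp {l : List (Sym2 V) | Sm k l ∧ l.length + 1 = 2 * k}).map bdE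

/-- the class of a chain modulo the boundaries -/
noncomputable def qB (k : ℕ) : EE (Sym2 V) →ₗ[ℤ] EE (Sym2 V) ⧸ Bd V k := (Bd V k).mkQ

theorem qB_bdE {k : ℕ} {Y : EE (Sym2 V)}
    (hY : Y ∈ Sp {l : List (Sym2 V) | Sm k l ∧ l.length + 1 = 2 * k}) : qB k (bdE Y) = 0 :=
  (Submodule.Quotient.mk_eq_zero _).2 (Submodule.mem_map_of_mem hY)

theorem qB_eq_zero {k : ℕ} {Y : EE (Sym2 V)} (h : qB k Y = 0) :
    ∃ Z ∈ Sp {l : List (Sym2 V) | Sm k l ∧ l.length + 1 = 2 * k}, bdE Z = Y :=
  (Submodule.Quotient.mk_eq_zero _).1 h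

/-- the cycle of a path without one edge, for all edges -/
noncomputable def gam (u : List V) : EE (Sym2 V) := bdE (word (pth u))

omit [Fintype V] in
theorem bdE_gam (u : List V) : bdE (gam u) = 0 := bdE_bdE _

/-- the class belonging to two paths -/
noncomputable def Cw (k : ℕ) (w u : List V) : EE (Sym2 V) ⧸ Bd V k :=
  qB k (bdE (lm (pth w) (gam u)))

theorem four {k : ℕ} (hk : 1 ≤ k) {p q p' q' : List V}
    (hnd : (p ++ q ++ (p' ++ q')).Nodup) (h1 : p.length ≤ k) (h2 : q.length ≤ k)
    (h3 : p'.length ≤ k) (h4 : q'.length ≤ k) (hp : p ≠ []) (hq : q ≠ []) (hp' : p' ≠ [])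
    (hq' : q' ≠ []) (hlen : p.length + q.length + p'.length + q'.length = 2 * k + 3) :
    Sm k (pth p ++ pth q ++ (pth p' ++ pth q')) ∧
      (pth p ++ pth q ++ (pth p' ++ pth q')).length + 1 = 2 * k := by
  constructor
  · have hnd' : ([p, q, p', q'] : List (List V)).flatten.Nodup := by
      simpa using hnd
    refine Sm_pieces [p, q, p', q'] hnd' ?_ hk ?_
    · intro P hP
      simp only [List.mem_cons, List.not_mem_nil, or_false] at hP
      rcases hP with rfl | rfl | rfl | rfl <;> assumption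
    · intro e he
      simp only [List.mem_append] at he
      rcases he with (he | he) | (he | he)
      · exact pieces_pth hnd' (by simp) he
      · exact pieces_pth hnd' (by simp) he
      · exact pieces_pth hnd' (by simp) he
      · exact pieces_pth hnd' (by simp) he
  · have e1 := pth_length' hp
    have e2 := pth_length' hq
    have e3 := pth_length' hp'
    have e4 := pth_length' hq'
    simp only [List.length_append]
    omega

theorem ne_nil_of_two {α : Type*} {l : List α} (h : 2 ≤ l.length) : l ≠ [] := by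
  rintro rfl
  simp at h

/-- rotating the first path -/
theorem RA {k : ℕ} (hk : 1 ≤ k) {a y : V} {t u : List V} (ht : t.length = k)
    (hu : u.length = k + 1) (hnd : (a :: t ++ [y] ++ u).Nodup) :
    Cw k (t ++ [y]) u = (-1 : ℤ) ^ (k + 1) • Cw k (a :: t) u := by
  have htn : t ≠ [] := by
    rintro rfl
    simp at ht
    omega
  obtain ⟨mid, hmid, h1⟩ := bd_long (a := a) (y := y) htn
  have h2 : bdE (lm (pth (a :: t ++ [y])) (gam u)) =
      mulE (gam u) (bdE (word (pth (a :: t ++ [y])))) := by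
    rw [bdE_lm, bdE_gam, map_zero, smul_zero, add_zero]
  have h3 : bdE (mulE (gam u) (bdE (word (pth (a :: t ++ [y]))))) = 0 := by
    rw [← h2, bdE_bdE]
  simp only [h1, map_add, map_smul, ← lm_eq] at h3
  have h4 : qB k (bdE (mulE (gam u) mid)) = 0 := by
    refine qB_bdE (mulE_mem ?_ hmid (bd_pth u))
    rintro l₁ ⟨p, q, hp, hq, hpq, rfl⟩ l₂ ⟨p', q', hp', hq', hpq', rfl⟩
    have e1 : p.length + q.length = k + 2 := by
      rw [← List.length_append, ← hpq]
      simp [ht]
    have e2 : p'.length + q'.length = k + 1 := by rw [← List.length_append, ← hpq', hu]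
    have e3 := List.length_pos_iff.2 hp'
    have e4 := List.length_pos_iff.2 hq'
    refine four hk ?_ (by omega) (by omega) (by omega) (by omega) (ne_nil_of_two hp)
      (ne_nil_of_two hq) hp' hq' (by omega)
    rw [← hpq, ← hpq']
    exact hnd
  have h5 := congrArg (qB k) h3
  rw [map_add, map_add, h4, add_zero, map_smul, map_zero, ht] at h5
  have h6 := eq_neg_of_add_eq_zero_left h5
  rw [Cw, h6, pow_succ, mul_neg_one, neg_smul]
  rfl

/-- rotating the second path -/
theorem RB {k : ℕ} (hk : 1 ≤ k) {a y : V} {t w : List V} (ht : t.length = k)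
    (hw : w.length = k + 1) (hnd : (w ++ (a :: t ++ [y])).Nodup) :
    Cw k w (t ++ [y]) = (-1 : ℤ) ^ (k + 1) • Cw k w (a :: t) := by
  have htn : t ≠ [] := by
    rintro rfl
    simp at ht
    omega
  obtain ⟨mid, hmid, h1⟩ := bd_long (a := a) (y := y) htn
  have h3 : bdE (bdE (word (pth (a :: t ++ [y])))) = 0 := bdE_bdE _
  rw [h1, map_add, map_add, map_smul] at h3
  have h3' : gam (t ++ [y]) + (-1 : ℤ) ^ t.length • gam (a :: t) + bdE mid = 0 := h3
  have h4 : qB k (bdE (lm (pth w) (bdE mid))) = 0 := by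
    have h5 := congrArg bdE (bdE_lm (pth w) mid)
    rw [bdE_bdE, map_add, map_smul] at h5
    have h6 : qB k (bdE (mulE mid (bdE (word (pth w))))) = 0 := by
      refine qB_bdE (mulE_mem ?_ (bd_pth w) hmid)
      rintro l₁ ⟨p, q, hp, hq, hpq, rfl⟩ l₂ ⟨p', q', hp', hq', hpq', rfl⟩
      have e1 : p'.length + q'.length = k + 2 := by
        rw [← List.length_append, ← hpq']
        simp [ht]
      have e2 : p.length + q.length = k + 1 := by rw [← List.length_append, ← hpq, hw]
      have e3 := List.length_pos_iff.2 hp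
      have e4 := List.length_pos_iff.2 hq
      refine four hk ?_ (by omega) (by omega) (by omega) (by omega) hp hq (ne_nil_of_two hp')
        (ne_nil_of_two hq') (by omega)
      rw [← hpq, ← hpq']
      exact hnd
    have h7 := congrArg (qB k) h5
    rw [map_zero, map_add, h6, zero_add, map_smul] at h7
    have h8 := congrArg (fun z => (-1 : ℤ) ^ (pth w).length • z) h7
    simp only [smul_zero, smul_smul, ← mul_pow] at h8
    norm_num at h8
    exact h8.symm
  have h5 := congrArg (fun z => qB k (bdE (lm (pth w) z))) h3'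
  simp only [map_add, map_smul, map_zero, h4, add_zero] at h5
  rw [ht] at h5
  have h6 := eq_neg_of_add_eq_zero_left h5
  rw [Cw, h6, pow_succ, mul_neg_one, neg_smul]
  rfl

end

end Pool.Agent.KS6_98.Bdd
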