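import Pool.Agent.KS6_98.Bdd.Base
import Pool.Agent.KS6_98.Bdd.Forest

/-!
# The operators of the increasing trees
-/

set_option autoImplicit false

namespace Pool.Agent.KS6_98.Bdd

open Pool.Agent.KS6_98.Orb Finset

/-- letters: edges and vertices -/
abbrev Lt (V : Type*) := Sym2 V ⊕ V

section

variable {V : Type*}

/-- the operator of a vertex -/
noncomputable def iv (x : V) : Module.End ℤ (EE (Lt V)) := ins (Sum.inr x)

/-- the operator of an edge -/
noncomputable def ie (x y : V) : Module.End ℤ (EE (Lt V)) := ins (Sum.inl s(x, y))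

/-- attaching `x` to `y` -/
noncomputable def zz (x y : V) : Module.End ℤ (EE (Lt V)) := iv x * ie x y

theorem ie_symm (x y : V) : ie x y = ie y x := by rw [ie, ie, Sym2.eq_swap]

theorem ins_mul (a b : Lt V) : (ins a : Module.End ℤ (EE (Lt V))) * ins b = -(ins b * ins a) :=
  LinearMap.ext fun x => ins_ins a b x

theorem ins_sq (a : Lt V) : (ins a : Module.End ℤ (EE (Lt V))) * ins a = 0 :=
  LinearMap.ext fun x => ins_self a x

theorem iv_ie (x a b : V) : iv x * ie a b = -(ie a b * iv x) := ins_mul _ _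

theorem iv_iv (x y : V) : iv x * iv y = -(iv y * iv x) := ins_mul _ _

theorem ie_ie (x y a b : V) : ie x y * ie a b = -(ie a b * ie x y) := ins_mul _ _

theorem ins_zz (a : Lt V) (x y : V) :
    (ins a : Module.End ℤ (EE (Lt V))) * zz x y = zz x y * ins a := by
  rw [zz, ← mul_assoc, iv, ins_mul, neg_mul, mul_assoc, ie, ins_mul, mul_neg, neg_neg, mul_assoc]

theorem zz_comm (a b c d : V) : zz a b * zz c d = zz c d * zz a b := by
  have h1 : ie a b * zz c d = zz c d * ie a b := ins_zz _ _ _
  have h2 : iv a * zz c d = zz c d * iv a := ins_zz _ _ _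
  calc zz a b * zz c d = iv a * (ie a b * zz c d) := by rw [zz, mul_assoc]
    _ = iv a * zz c d * ie a b := by rw [h1, mul_assoc]
    _ = zz c d * zz a b := by rw [h2, mul_assoc, ← zz]

theorem iv_zz (x a b : V) : iv x * zz a b = zz a b * iv x := ins_zz _ _ _

theorem ie_zz (x y a b : V) : ie x y * zz a b = zz a b * ie x y := ins_zz _ _ _

/-- the edges from `x` to `R` -/
noncomputable def Xs (x : V) (R : Finset V) : Module.End ℤ (EE (Lt V)) := ∑ u ∈ R, ie x u

theorem Zs_eq (x : V) (R : Finset V) : Zs zz x R = iv x * Xs x R := by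
  rw [Zs, Xs, mul_sum]
  rfl

theorem ins_Xs (a : Lt V) (x : V) (R : Finset V) :
    (ins a : Module.End ℤ (EE (Lt V))) * Xs x R = -(Xs x R * ins a) := by
  rw [Xs, mul_sum, sum_mul, ← sum_neg_distrib]
  exact sum_congr rfl fun u _ => ins_mul _ _

variable [DecidableEq V]

theorem ins_G (a : Lt V) (r : V) (U : Finset V) :
    (ins a : Module.End ℤ (EE (Lt V))) * G zz r U = G zz r U * ins a :=
  comm_G (fun x y => ins_zz a x y) r U

theorem G_G (r s : V) (U W : Finset V) : G zz r U * G zz s W = G (zz (V := V)) s W * G zz r U :=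
  comm_G (fun a b => ((comm_G (fun c d => zz_comm a b c d) r U) : _).symm) s W

theorem Xs_sq (x : V) (R : Finset V) : Xs x R * Xs x R = 0 := by
  induction R using Finset.induction_on with
  | empty => simp [Xs]
  | insert u R hu ih =>
    have h1 : Xs x (insert u R) = ie x u + Xs x R := by rw [Xs, sum_insert hu]; rfl
    have h2 : ie x u * Xs x R = -(Xs x R * ie x u) := ins_Xs _ _ _
    have h3 : ie x u * ie x u = 0 := ins_sq _
    rw [h1, mul_add, add_mul, add_mul, ih, h2, h3]
    abel

/-- the sum of all edges inside `X` -/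
noncomputable def chi (X : Finset V) : Module.End ℤ (EE (Lt V)) :=
  ∑ e ∈ X.sym2 with ¬e.IsDiag, ins (Sum.inl e)

theorem ins_chi (a : Lt V) (X : Finset V) :
    (ins a : Module.End ℤ (EE (Lt V))) * chi X = -(chi X * ins a) := by
  rw [chi, mul_sum, sum_mul, ← sum_neg_distrib]
  exact sum_congr rfl fun u _ => ins_mul _ _

theorem iv_chi (x : V) (X : Finset V) : iv x * chi X = -(chi X * iv x) := ins_chi _ _

theorem chi_insert {x : V} {R : Finset V} (h : x ∉ R) : chi (insert x R) = chi R + Xs x R := by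
  rw [chi, sym2_insert, filter_union, sum_union, add_comm]
  · congr 1
    rw [insert_eq, image_union, filter_union]
    have h1 : ((({x} : Finset V).image fun b => s(x, b)).filter fun e => ¬e.IsDiag) = ∅ := by
      simp
    have h2 : ((R.image fun b => s(x, b)).filter fun e => ¬e.IsDiag) =
        R.image fun b => s(x, b) := by
      refine filter_true_of_mem ?_
      intro e he
      obtain ⟨b, hb, rfl⟩ := mem_image.1 he
      rw [Sym2.mk_isDiag_iff]
      rintro rfl
      exact h hb
    rw [h1, h2, empty_union, sum_image]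
    · rfl
    · intro a _ b _ hab
      exact Sym2.congr_right.1 hab
  · rw [disjoint_left]
    intro e he he'
    rw [mem_filter] at he he'
    obtain ⟨b, _, rfl⟩ := mem_image.1 he.1
    rw [mk_mem_sym2_iff] at he'
    exact h he'.1.1

theorem chi_empty : chi (∅ : Finset V) = 0 := by simp [chi]

theorem chi_single (x : V) : chi ({x} : Finset V) = 0 := by
  have := chi_insert (notMem_empty x)
  rw [insert_empty, chi_empty, Xs, sum_empty, add_zero] at this
  exact this

/-- a tree absorbs all edges between its vertices -/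
theorem G_chi {r : V} {U : Finset V} (hr : r ∉ U) : G zz r U * chi (insert r U) = 0 := by
  induction U using Finset.strongInduction with
  | H U ih =>
    rcases U.eq_empty_or_nonempty with rfl | h
    · rw [insert_empty, chi_single, mul_zero]
    · rw [G_rec zz r h, sum_mul]
      refine sum_eq_zero fun l hl => ?_
      have hrl : r ≠ l := fun e => hr (e ▸ hl)
      have h1 : insert r U = insert l (insert r (U.erase l)) := by
        rw [insert_comm, insert_erase hl]
      have h2 : l ∉ insert r (U.erase l) := by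
        rw [mem_insert]
        rintro (e | e)
        · exact hrl e.symm
        · exact notMem_erase l U e
      rw [h1, chi_insert h2, mul_add, mul_assoc, ih (U.erase l) (erase_ssubset hl)
        (fun e => hr (mem_of_mem_erase e)), mul_zero, zero_add]
      have h3 : Zs zz l (insert r (U.erase l)) * G zz r (U.erase l) =
          G zz r (U.erase l) * Zs zz l (insert r (U.erase l)) :=
        ((comm_Zs (fun a b => ((comm_G (fun c d => zz_comm a b c d) r (U.erase l)) : _).symm) l
          (insert r (U.erase l))) : _).symm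
      rw [h3, Zs_eq, mul_assoc, mul_assoc, Xs_sq, mul_zero, mul_zero]

/-- the odd operator of a vertex set with root `r` -/
noncomputable def Fh (r : V) (X : Finset V) : Module.End ℤ (EE (Lt V)) :=
  iv r * G zz r (X.erase r)

theorem Fh_chi {r : V} {X : Finset V} (hr : r ∈ X) : Fh r X * chi X = 0 := by
  have h := G_chi (notMem_erase r X)
  rw [insert_erase hr] at h
  rw [Fh, mul_assoc, h, mul_zero]

theorem ins_Fh (a : Lt V) (r : V) (X : Finset V) :
    (ins a : Module.End ℤ (EE (Lt V))) * Fh r X = -(Fh r X * ins a) := by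
  rw [Fh, ← mul_assoc, iv, ins_mul, neg_mul, mul_assoc, ins_G, mul_assoc]

theorem chi_Fh (Y : Finset V) (r : V) (X : Finset V) :
    chi Y * Fh r X = -(Fh r X * chi Y) := by
  rw [chi, sum_mul, mul_sum, ← sum_neg_distrib]
  exact sum_congr rfl fun e _ => ins_Fh _ _ _

theorem Fh_Fh (r s : V) (X Y : Finset V) : Fh r X * Fh s Y = -(Fh s Y * Fh r X) := by
  have h1 : G zz r (X.erase r) * Fh s Y = Fh s Y * G zz r (X.erase r) := by
    rw [Fh, ← mul_assoc, iv, ← ins_G, mul_assoc, G_G, mul_assoc]
  have h2 : iv r * Fh s Y = -(Fh s Y * iv r) := ins_Fh _ _ _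
  calc Fh r X * Fh s Y = iv r * (G zz r (X.erase r) * Fh s Y) := by rw [Fh, mul_assoc]
    _ = iv r * Fh s Y * G zz r (X.erase r) := by rw [h1, mul_assoc]
    _ = -(Fh s Y * Fh r X) := by rw [h2, neg_mul, mul_assoc, ← Fh]

/-! ### Contractions -/

/-- contraction as an endomorphism -/
noncomputable def Dm (a : Lt V) : Module.End ℤ (EE (Lt V)) := Dl a

theorem Dm_ins_ne {a b : Lt V} (h : b ≠ a) : Dm a * ins b = -(ins b * Dm a) :=
  LinearMap.ext fun x => Dl_ins_ne h x

theorem Dm_ins_self (a : Lt V) : Dm a * ins a = 1 - ins a * Dm a :=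
  LinearMap.ext fun x => Dl_ins_self a x

theorem Dm_zz {x y a b : V} (h : s(a, b) ≠ s(x, y)) :
    Dm (Sum.inl s(x, y)) * zz a b = zz a b * Dm (Sum.inl s(x, y)) := by
  have h1 : Dm (Sum.inl s(x, y)) * iv a = -(iv a * Dm (Sum.inl s(x, y))) :=
    Dm_ins_ne (by simp)
  have h2 : Dm (Sum.inl s(x, y)) * ie a b = -(ie a b * Dm (Sum.inl s(x, y))) :=
    Dm_ins_ne (fun e => h (Sum.inl.inj e))
  rw [zz, ← mul_assoc, h1, neg_mul, mul_assoc, h2, mul_neg, neg_neg, mul_assoc]

theorem comm_G' {A : Type*} [Ring A] {z : V → V → A} {x : A} (r : V) (U : Finset V)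
    (hx : ∀ a ∈ U, ∀ b ∈ insert r U, x * z a b = z a b * x) :
    x * G z r U = G z r U * x := by
  induction U using Finset.strongInduction with
  | H U ih =>
    rcases U.eq_empty_or_nonempty with rfl | h
    · rw [G_empty, mul_one, one_mul]
    · rw [G_rec z r h, mul_sum, sum_mul]
      refine sum_congr rfl fun l hl => ?_
      have h1 : x * Zs z l (insert r (U.erase l)) = Zs z l (insert r (U.erase l)) * x := by
        rw [Zs, mul_sum, sum_mul]
        exact sum_congr rfl fun u hu => hx l hl u (insert_subset_insert _ (erase_subset _ _) hu)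
      have h2 := ih (U.erase l) (erase_ssubset hl) fun a ha b hb =>
        hx a (mem_of_mem_erase ha) b (insert_subset_insert _ (erase_subset _ _) hb)
      rw [← mul_assoc, h1, mul_assoc, h2, mul_assoc]

/-- An edge with an end outside `X` anticommutes with the operator of `X`. -/
theorem Dm_Fh {x y r : V} {X : Finset V} (hr : r ∈ X) (hx : x ∉ X) :
    Dm (Sum.inl s(x, y)) * Fh r X = -(Fh r X * Dm (Sum.inl s(x, y))) := by
  have h1 : Dm (Sum.inl s(x, y)) * iv r = -(iv r * Dm (Sum.inl s(x, y))) :=
    Dm_ins_ne (by simp)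
  have h2 : Dm (Sum.inl s(x, y)) * G zz r (X.erase r) =
      G zz r (X.erase r) * Dm (Sum.inl s(x, y)) := by
    refine comm_G' r _ fun a ha b hb => Dm_zz ?_
    rw [insert_erase hr] at hb
    intro e
    rw [Sym2.eq_iff] at e
    rcases e with ⟨rfl, _⟩ | ⟨_, rfl⟩
    · exact hx (mem_of_mem_erase ha)
    · exact hx hb
  rw [Fh, ← mul_assoc, h1, neg_mul, mul_assoc, h2, mul_assoc]

/-- the empty word -/
noncomputable def one : EE (Lt V) := word []

theorem Dm_one (a : Lt V) : Dm a one = 0 := Dc_nil _

theorem Dm_apply_ins (a b : Lt V) (y : EE (Lt V)) :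
    Dm a (ins b y) = (if b = a then (1 : ℤ) else 0) • y - ins b (Dm a y) := Dc_ins _ _ _

/-- Changing the root of a vertex set whose size is a power of `p`. -/
theorem Fh_root {p j : ℕ} (hp : p.Prime) {X : Finset V} (hX : X.card = p ^ j) {r u v : V}
    (hr : r ∉ X) (hu : u ∈ X) (hv : v ∈ X) :
    ∃ w : EE (Lt V), Fh u X one = Fh v X one + (p : ℤ) • w := by
  obtain ⟨w, hw⟩ := G_mod (A := Module.End ℤ (EE (Lt V))) zz_comm hp r hX hr
  have h1 : Cc zz r X * chi X = 0 := by
    rw [Cc, sum_mul]
    refine sum_eq_zero fun a ha => ?_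
    have := G_chi (notMem_erase a X)
    rw [insert_erase ha] at this
    rw [mul_assoc, this, mul_zero]
  have h2 : Cc zz r X * Xs r X = -((p : ℤ) • (w * chi (insert r X))) := by
    have h := G_chi hr
    rw [hw, add_mul, chi_insert hr, mul_add, h1, zero_add, smul_mul_assoc] at h
    rw [chi_insert hr]
    exact eq_neg_of_add_eq_zero_left h
  set D1 : Module.End ℤ (EE (Lt V)) := Dm (Sum.inl s(u, r)) with hD1
  set D2 : Module.End ℤ (EE (Lt V)) := Dm (Sum.inl s(v, r)) with hD2
  have h3 : ∀ a ∈ X, ∀ c : V, (c = u ∨ c = v) → Dm (Sum.inl s(c, r)) * Fh a X =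
      -(Fh a X * Dm (Sum.inl s(c, r))) := by
    intro a ha c _
    rw [Sym2.eq_swap]
    exact Dm_Fh ha hr
  have h4 : ∀ a ∈ X, D2 * D1 * Fh a X = Fh a X * (D2 * D1) := by
    intro a ha
    rw [mul_assoc, hD1, h3 a ha u (Or.inl rfl), mul_neg, ← mul_assoc, hD2,
      h3 a ha v (Or.inr rfl), neg_mul, neg_neg, mul_assoc]
  have h5 : Cc zz r X * Xs r X = ∑ a ∈ X, ∑ b ∈ X, Fh a X * (ie a r * ie r b) := by
    rw [Cc, sum_mul]
    refine sum_congr rfl fun a _ => ?_
    rw [Xs, mul_sum]
    refine sum_congr rfl fun b _ => ?_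
    have h6 : ie a r * G zz a (X.erase a) = G zz a (X.erase a) * ie a r := ins_G _ _ _
    rw [zz, mul_assoc (iv a), h6, Fh]
    simp only [mul_assoc]
  have h7 : ∀ a b : V, D2 (D1 (ie a r (ie r b one))) =
      ((if a = u then (if b = v then (1 : ℤ) else 0) else 0) -
        (if b = u then (if a = v then (1 : ℤ) else 0) else 0)) • one := by
    intro a b
    have e1 : ∀ c d : V, ((Sum.inl s(c, r) : Lt V) = Sum.inl s(d, r)) ↔ c = d := by
      intro c d
      rw [Sum.inl_injective.eq_iff, Sym2.congr_left]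
    have e2 : ∀ c d : V, ((Sum.inl s(r, c) : Lt V) = Sum.inl s(d, r)) ↔ c = d := by
      intro c d
      rw [Sym2.eq_swap, e1]
    rw [hD1, hD2, ie, ie, Dm_apply_ins, Dm_apply_ins, Dm_one, map_zero, sub_zero, map_smul, map_sub,
      map_smul, map_smul, Dm_apply_ins, Dm_apply_ins, Dm_one, map_zero, map_zero, sub_zero,
      sub_zero]
    simp only [e1, e2, smul_smul, ← sub_smul]
    congr 1
    split_ifs <;> simp
  have h8 : (D2 * D1 * (Cc zz r X * Xs r X)) one = Fh u X one - Fh v X one := by
    rw [h5, mul_sum, LinearMap.sum_apply]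
    have h9 : ∀ a ∈ X, (D2 * D1 * ∑ b ∈ X, Fh a X * (ie a r * ie r b)) one =
        ((if a = u then (1 : ℤ) else 0) - (if a = v then (1 : ℤ) else 0)) • Fh a X one := by
      intro a ha
      rw [mul_sum, LinearMap.sum_apply]
      have h10 : ∀ b ∈ X, (D2 * D1 * (Fh a X * (ie a r * ie r b))) one =
          ((if b = v then (if a = u then (1 : ℤ) else 0) else 0) -
            (if b = u then (if a = v then (1 : ℤ) else 0) else 0)) • Fh a X one := by
        intro b _
        rw [← mul_assoc, h4 a ha, mul_assoc]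
        show Fh a X (D2 (D1 (ie a r (ie r b one)))) = _
        rw [h7, map_smul]
        congr 1
        split_ifs <;> rfl
      rw [sum_congr rfl h10, ← sum_smul, sum_sub_distrib, sum_ite_eq', sum_ite_eq', if_pos hu,
        if_pos hv]
    rw [sum_congr rfl h9]
    simp only [sub_smul, ite_smul, one_smul, zero_smul]
    rw [sum_sub_distrib, sum_ite_eq', sum_ite_eq', if_pos hu, if_pos hv]
  refine ⟨-(D2 * D1 * (w * chi (insert r X))) one, ?_⟩
  rw [h2] at h8
  have h11 : (D2 * D1 * -((p : ℤ) • (w * chi (insert r X)))) one =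
      (p : ℤ) • -(D2 * D1 * (w * chi (insert r X))) one := by
    rw [mul_neg, mul_smul_comm, LinearMap.neg_apply, LinearMap.smul_apply, smul_neg]
  rw [h11] at h8
  rw [h8]
  abel

end

end Pool.Agent.KS6_98.Bdd
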